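import Pool.Agent.Run7.h133.RayCode

set_option autoImplicit false

namespace Pool.Agent.Run7.h133.Ray.E8

open Matroid Pool.Agent.Helper998.VecMatroid Pool.Agent.Run7.h133.Ray

/-- the matrix `D` of the matroid `X49` with 49 bases -/
def X49 : Matrix (Fin 4) (Fin 4) (ZMod 3) := !![1, 1, 1, 1; 1, 1, 1, 0; 1, 0, 0, 1; 0, 1, 0, 1]

def X49_rows : List (List ℕ) := [[1, 1, 1, 1], [1, 1, 1, 0], [1, 0, 0, 1], [0, 1, 0, 1]]

def X49_R : List ℕ := [141, 141, 67, 207, 206, 67, 206, 207, 43, 175, 166, 107, 238, 231, 104,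
  237, 229, 43, 166, 175, 104, 229, 237, 107, 231, 238, 23, 159, 154, 87, 222, 219, 84, 221,
  217, 63, 190, 179, 124, 253, 241, 127, 255, 242, 60, 181, 185, 127, 247, 250, 127, 246, 251,
  23, 154, 159, 84, 217, 221, 87, 219, 222, 60, 185, 181, 127, 251, 246, 127, 250, 247, 63, 179,
  190, 127, 242, 255, 124, 241, 253]

def X49_C : List ℕ := [67, 84, 104, 23, 43, 60, 141, 154, 166, 179, 181, 185, 206, 217, 229,
  241, 242]

def X49_L : List ℕ := [15, 27, 29, 30, 39, 45, 46, 51, 53, 54, 57, 58, 77, 78, 89, 90, 101, 102,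
  113, 114, 135, 139, 142, 147, 149, 150, 153, 156, 163, 165, 169, 170, 172, 177, 178, 180, 184,
  197, 198, 201, 202, 204, 209, 210, 216, 225, 226, 228, 240]

theorem X49_hb : HasBases (vecMatroid (ZMod 3) (stdVec X49)) X49_L ∧
    (vecMatroid (ZMod 3) (stdVec X49)).eRank = (4 : ℕ) :=
  hasBases_of (r := 4) (k := 4) code3 X49 X49_rows (by decide) (by decide +kernel)
    (by intro i j; fin_cases i <;> fin_cases j <;> rfl)
    (R := X49_R) (C := X49_C) (L := X49_L) (by decide +kernel) (by decide +kernel)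
    (by decide +kernel)

theorem X49_len : X49_L.length = 49 := by decide +kernel

theorem X49_fail : ¬ Pool.Agent.Helper214.PavMain.NegCorr fun A : Finset (Fin (4 + 4)) =>
    (vecMatroid (ZMod 3) (stdVec X49)).IsBase (A : Set (Fin (4 + 4))) :=
  X49_hb.1.fail (ys := [1, 1, 1, 2, 1, 1, 1, 1]) (e := 6) (f := 7) rfl (by decide) (by decide) (by decide +kernel)

/-- the matrix `D` of the matroid `X52` with 52 bases -/
def X52 : Matrix (Fin 4) (Fin 4) (ZMod 3) := !![1, 1, 0, 1; 1, 0, 1, 1; 1, 0, 1, 0; 0, 1, 1, 1]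

def X52_rows : List (List ℕ) := [[1, 1, 0, 1], [1, 0, 1, 1], [1, 0, 1, 0], [0, 1, 1, 1]]

def X52_R : List ℕ := [139, 139, 78, 207, 197, 78, 197, 207, 41, 171, 162, 111, 231, 236, 103,
  237, 238, 41, 162, 171, 103, 238, 237, 111, 236, 231, 23, 159, 156, 95, 221, 214, 89, 211,
  218, 63, 190, 181, 127, 244, 255, 113, 250, 251, 62, 183, 189, 118, 253, 255, 120, 251, 243,
  23, 156, 159, 89, 218, 211, 95, 214, 221, 62, 189, 183, 120, 243, 251, 118, 255, 253, 63, 181,
  190, 113, 251, 250, 127, 255, 244]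

def X52_C : List ℕ := [41, 162, 23, 78, 89, 113, 120, 139, 156, 197, 62, 103, 118, 181, 211,
  214, 218, 236, 244]

def X52_L : List ℕ := [15, 27, 29, 30, 39, 46, 51, 53, 54, 58, 60, 71, 75, 77, 83, 85, 86, 90,
  92, 99, 101, 102, 106, 108, 114, 116, 135, 141, 142, 147, 149, 150, 153, 154, 165, 172, 177,
  180, 184, 195, 198, 201, 202, 204, 209, 210, 212, 216, 225, 228, 232, 240]

theorem X52_hb : HasBases (vecMatroid (ZMod 3) (stdVec X52)) X52_L ∧
    (vecMatroid (ZMod 3) (stdVec X52)).eRank = (4 : ℕ) :=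
  hasBases_of (r := 4) (k := 4) code3 X52 X52_rows (by decide) (by decide +kernel)
    (by intro i j; fin_cases i <;> fin_cases j <;> rfl)
    (R := X52_R) (C := X52_C) (L := X52_L) (by decide +kernel) (by decide +kernel)
    (by decide +kernel)

theorem X52_len : X52_L.length = 52 := by decide +kernel

theorem X52_fail : ¬ Pool.Agent.Helper214.PavMain.NegCorr fun A : Finset (Fin (4 + 4)) =>
    (vecMatroid (ZMod 3) (stdVec X52)).IsBase (A : Set (Fin (4 + 4))) :=
  X52_hb.1.fail (ys := [2, 2, 1, 2, 1, 1, 1, 2]) (e := 2) (f := 5) rfl (by decide) (by decide) (by decide +kernel)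

/-- the matrix `D` of the matroid `X56` with 56 bases -/
def X56 : Matrix (Fin 4) (Fin 4) (ZMod 3) := !![1, 1, 0, 1; 1, 0, 1, 2; 1, 0, 1, 1; 0, 1, 1, 1]

def X56_rows : List (List ℕ) := [[1, 1, 0, 1], [1, 0, 1, 2], [1, 0, 1, 1], [0, 1, 1, 1]]

def X56_R : List ℕ := [143, 143, 78, 205, 195, 78, 195, 205, 41, 175, 166, 111, 229, 234, 103,
  235, 236, 41, 166, 175, 103, 236, 235, 111, 234, 229, 23, 157, 154, 95, 219, 212, 89, 215,
  222, 63, 188, 179, 127, 242, 253, 113, 254, 255, 62, 181, 187, 118, 251, 253, 120, 255, 247,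
  23, 154, 157, 89, 222, 215, 95, 212, 219, 62, 187, 181, 120, 247, 255, 118, 253, 251, 63, 179,
  188, 113, 255, 254, 127, 253, 242]

def X56_C : List ℕ := [41, 23, 78, 89, 113, 120, 154, 166, 195, 212, 62, 103, 118, 143, 157,
  179, 181, 188, 205, 229, 234, 236, 242]

def X56_L : List ℕ := [15, 27, 29, 30, 39, 46, 51, 53, 54, 58, 60, 71, 75, 77, 83, 85, 86, 90,
  92, 99, 101, 102, 106, 108, 114, 116, 135, 139, 141, 142, 147, 149, 150, 153, 156, 163, 165,
  170, 172, 177, 178, 180, 184, 197, 198, 201, 202, 204, 209, 210, 216, 225, 226, 228, 232, 240]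

theorem X56_hb : HasBases (vecMatroid (ZMod 3) (stdVec X56)) X56_L ∧
    (vecMatroid (ZMod 3) (stdVec X56)).eRank = (4 : ℕ) :=
  hasBases_of (r := 4) (k := 4) code3 X56 X56_rows (by decide) (by decide +kernel)
    (by intro i j; fin_cases i <;> fin_cases j <;> rfl)
    (R := X56_R) (C := X56_C) (L := X56_L) (by decide +kernel) (by decide +kernel)
    (by decide +kernel)

theorem X56_len : X56_L.length = 56 := by decide +kernel

theorem X56_fail : ¬ Pool.Agent.Helper214.PavMain.NegCorr fun A : Finset (Fin (4 + 4)) =>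
    (vecMatroid (ZMod 3) (stdVec X56)).IsBase (A : Set (Fin (4 + 4))) :=
  X56_hb.1.fail (ys := [53, 1, 1, 44, 9, 1, 9, 1]) (e := 1) (f := 5) rfl (by decide) (by decide) (by decide +kernel)

end Pool.Agent.Run7.h133.Ray.E8
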