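import Pool.Agent.Run7.h133.RayCode

set_option autoImplicit false

namespace Pool.Agent.Run7.h133.Ray.BB

open Matroid Pool.Agent.Helper998.VecMatroid Pool.Agent.Run7.h133.Ray

/-- the matrix `D` of a ternary matroid with 10 elements, rank 5 and 164 bases -/
def Y164 : Matrix (Fin 5) (Fin 5) (ZMod 3) :=
  !![1, 1, 1, 1, 1; 1, 2, 1, 2, 1; 1, 1, 2, 0, 2; 1, 0, 1, 1, 1; 0, 1, 0, 0, 2]

def Y164_rows : List (List ℕ) := [[1, 1, 1, 1, 1], [1, 2, 1, 2, 1], [1, 1, 2, 0, 2], [1, 0, 1,
  1, 1], [0, 1, 0, 0, 2]]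

def Y164_R : List ℕ := [543, 543, 267, 797, 790, 267, 790, 797, 143, 671, 656, 397, 918, 923,
  390, 925, 923, 143, 656, 671, 390, 923, 925, 397, 923, 918, 87, 585, 606, 351, 842, 853, 348,
  835, 863, 217, 718, 727, 474, 965, 991, 467, 975, 988, 222, 711, 729, 469, 975, 986, 479, 972,
  979, 87, 606, 585, 348, 863, 835, 351, 853, 842, 222, 729, 711, 479, 979, 972, 469, 986, 975,
  217, 727, 718, 467, 988, 975, 474, 991, 965, 47, 571, 564, 301, 818, 831, 294, 825, 831, 171,
  692, 703, 418, 959, 957, 425, 959, 950, 164, 703, 699, 431, 957, 946, 431, 950, 953, 125, 622,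
  627, 382, 869, 891, 375, 879, 888, 254, 739, 765, 501, 1003, 1022, 511, 1000, 1015, 243, 749,
  766, 507, 1006, 1013, 504, 999, 1023, 122, 637, 615, 379, 887, 876, 369, 894, 879, 253, 759,
  746, 503, 1020, 1003, 510, 1023, 993, 247, 762, 749, 508, 1019, 999, 511, 1009, 1006, 47, 564,
  571, 294, 831, 825, 301, 831, 818, 164, 699, 703, 431, 953, 950, 431, 946, 957, 171, 703, 692,
  425, 950, 959, 418, 957, 959, 122, 615, 637, 369, 879, 894, 379, 876, 887, 247, 749, 762, 511,
  1006, 1009, 508, 999, 1019, 253, 746, 759, 510, 993, 1023, 503, 1003, 1020, 125, 627, 622,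
  375, 888, 879, 382, 891, 869, 243, 766, 749, 504, 1023, 999, 507, 1013, 1006, 254, 765, 739,
  511, 1015, 1000, 501, 1022, 1003]

def Y164_C : List ℕ := [164, 656, 267, 294, 390, 418, 564, 585, 47, 87, 122, 143, 171, 217, 301,
  348, 369, 397, 425, 790, 818, 835, 842, 125, 222, 243, 467, 469, 474, 504, 543, 571, 606, 615,
  622, 627, 711, 718, 739, 746, 797, 825, 853, 869, 876, 888, 965, 972, 993, 1000]

def Y164_L : List ℕ := [31, 55, 59, 61, 62, 79, 91, 93, 94, 103, 107, 109, 110, 115, 117, 118,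
  121, 124, 151, 155, 157, 158, 179, 185, 186, 199, 203, 205, 206, 211, 213, 214, 218, 220, 227,
  233, 234, 241, 242, 248, 279, 285, 286, 307, 309, 313, 314, 316, 327, 333, 334, 339, 341, 342,
  345, 346, 355, 357, 361, 362, 364, 370, 372, 376, 403, 405, 409, 410, 412, 433, 440, 451, 453,
  457, 458, 460, 465, 466, 468, 472, 481, 488, 496, 527, 535, 539, 541, 542, 551, 555, 557, 558,
  563, 569, 570, 583, 590, 595, 597, 598, 602, 604, 611, 613, 614, 618, 620, 625, 626, 632, 647,
  651, 653, 654, 675, 681, 682, 707, 709, 710, 714, 716, 737, 738, 744, 775, 781, 782, 787, 789,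
  793, 794, 796, 803, 805, 809, 810, 812, 817, 824, 837, 838, 844, 849, 850, 852, 856, 865, 866,
  868, 872, 880, 899, 901, 905, 906, 908, 929, 936, 961, 962, 964, 968, 992]

theorem Y164_hb : HasBases (vecMatroid (ZMod 3) (stdVec Y164)) Y164_L ∧
    (vecMatroid (ZMod 3) (stdVec Y164)).eRank = (5 : ℕ) :=
  hasBases_of (r := 5) (k := 5) code3 Y164 Y164_rows (by decide) (by decide +kernel)
    (by intro i j; fin_cases i <;> fin_cases j <;> rfl)
    (R := Y164_R) (C := Y164_C) (L := Y164_L) (by decide +kernel) (by decide +kernel)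
    (by decide +kernel)

theorem Y164_len : Y164_L.length = 164 := by decide +kernel

theorem Y164_fail : failB Y164_L [1, 1, 1, 1, 1, 1, 1, 1, 1, 1] 6 7 = true := by decide +kernel

theorem Y164_chk : chkAll 10 1 1 Y164_L = true := by decide +kernel

end Pool.Agent.Run7.h133.Ray.BB
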