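import Pool.Agent.Run7.h133.RayCode

set_option autoImplicit false

namespace Pool.Agent.Run7.h133.Ray.BB

open Matroid Pool.Agent.Helper998.VecMatroid Pool.Agent.Run7.h133.Ray

/-- the matrix `D` of a ternary matroid with 10 elements, rank 5 and 170 bases -/
def Y170 : Matrix (Fin 5) (Fin 5) (ZMod 3) :=
  !![1, 1, 1, 1, 0; 1, 2, 0, 0, 1; 0, 1, 1, 2, 1; 0, 1, 1, 1, 0; 0, 1, 0, 1, 1]

def Y170_rows : List (List ℕ) := [[1, 1, 1, 1, 0], [1, 2, 0, 0, 1], [0, 1, 1, 2, 1], [0, 1, 1,
  1, 0], [0, 1, 0, 1, 1]]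

def Y170_R : List ℕ := [534, 534, 285, 795, 783, 285, 783, 795, 141, 671, 667, 409, 927, 911,
  404, 898, 918, 141, 667, 671, 404, 918, 898, 409, 911, 927, 95, 605, 587, 347, 845, 863, 326,
  848, 854, 223, 729, 719, 470, 964, 978, 459, 989, 991, 210, 724, 710, 479, 969, 991, 463, 989,
  987, 95, 587, 605, 326, 854, 848, 347, 863, 845, 210, 710, 724, 463, 987, 989, 479, 991, 969,
  223, 719, 729, 459, 991, 989, 470, 978, 964, 35, 567, 565, 319, 827, 813, 318, 814, 824, 175,
  703, 697, 442, 958, 940, 439, 931, 949, 174, 698, 700, 439, 951, 929, 443, 943, 957, 125, 639,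
  619, 376, 878, 894, 357, 883, 887, 252, 762, 750, 501, 999, 1011, 489, 1023, 1023, 241, 759,
  743, 509, 1003, 1023, 492, 1022, 1018, 126, 616, 638, 359, 885, 883, 379, 893, 879, 243, 741,
  759, 495, 1017, 1023, 510, 1020, 1002, 255, 749, 763, 490, 1020, 1022, 503, 1009, 999, 35,
  565, 567, 318, 824, 814, 319, 813, 827, 174, 700, 698, 443, 957, 943, 439, 929, 951, 175, 697,
  703, 439, 949, 931, 442, 940, 958, 126, 638, 616, 379, 879, 893, 359, 883, 885, 255, 763, 749,
  503, 999, 1009, 490, 1022, 1020, 243, 759, 741, 510, 1002, 1020, 495, 1023, 1017, 125, 619,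
  639, 357, 887, 883, 376, 894, 878, 241, 743, 759, 492, 1018, 1022, 509, 1023, 1003, 252, 750,
  762, 489, 1023, 1023, 501, 1011, 999]

def Y170_C : List ℕ := [35, 141, 210, 326, 404, 534, 616, 848, 898, 174, 241, 285, 357, 376,
  409, 565, 587, 710, 724, 824, 929, 964, 95, 125, 126, 252, 318, 347, 442, 459, 489, 490, 492,
  605, 667, 697, 698, 700, 729, 741, 783, 795, 813, 814, 845, 940, 969]

def Y170_L : List ℕ := [31, 61, 62, 79, 87, 91, 93, 94, 109, 110, 117, 118, 121, 122, 124, 151,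
  155, 158, 181, 182, 185, 186, 188, 199, 203, 206, 213, 217, 220, 229, 230, 233, 234, 236, 244,
  248, 271, 279, 283, 286, 301, 302, 309, 310, 313, 314, 316, 331, 333, 339, 341, 345, 346, 348,
  361, 362, 364, 369, 370, 372, 391, 395, 398, 403, 410, 421, 422, 425, 426, 428, 433, 434, 440,
  451, 453, 457, 458, 460, 465, 472, 481, 482, 484, 488, 496, 527, 539, 541, 557, 558, 569, 570,
  572, 583, 589, 590, 595, 597, 601, 602, 604, 613, 614, 625, 626, 628, 647, 651, 654, 659, 661,
  665, 666, 668, 677, 678, 681, 682, 684, 689, 690, 692, 696, 707, 709, 713, 714, 716, 721, 728,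
  737, 738, 740, 752, 775, 779, 781, 782, 787, 789, 793, 794, 796, 805, 806, 809, 810, 812, 817,
  818, 820, 835, 837, 841, 842, 844, 865, 866, 868, 901, 905, 908, 913, 920, 932, 936, 944, 961,
  968, 992]

theorem Y170_hb : HasBases (vecMatroid (ZMod 3) (stdVec Y170)) Y170_L ∧
    (vecMatroid (ZMod 3) (stdVec Y170)).eRank = (5 : ℕ) :=
  hasBases_of (r := 5) (k := 5) code3 Y170 Y170_rows (by decide) (by decide +kernel)
    (by intro i j; fin_cases i <;> fin_cases j <;> rfl)
    (R := Y170_R) (C := Y170_C) (L := Y170_L) (by decide +kernel) (by decide +kernel)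
    (by decide +kernel)

theorem Y170_len : Y170_L.length = 170 := by decide +kernel

theorem Y170_fail : failB Y170_L [1, 1, 1, 1, 1, 1, 1, 1, 1, 1] 1 3 = true := by decide +kernel

theorem Y170_chk : chkAll 10 1 1 Y170_L = true := by decide +kernel

end Pool.Agent.Run7.h133.Ray.BB
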