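import Mathlib

/-!
Field part: there is no character `χ : ℂ → K` (K a field, `2 ≠ 0`) such that
`(1 + χ (a u)) (1 + χ (b i u)) = 0` for all unit complex numbers `u`.
-/

namespace Run7.h133.RightTri

/-- `x` has type `k`: some odd multiple of `2^(k+1)` sends `x` to `-1`. -/
def Ty {K : Type*} [Field K] (k : ℕ) (x : K) : Prop :=
  ∃ M : ℕ, Odd M ∧ x ^ (2 ^ (k + 1) * M) = -1

lemma Ty.unique_aux {K : Type*} [Field K] (h2 : (2 : K) ≠ 0) {j k : ℕ} {x : K}
    (hj : Ty j x) (hk : Ty k x) (hlt : j < k) : False := by
  obtain ⟨M, hM, h1⟩ := hj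
  obtain ⟨M', hM', h3⟩ := hk
  obtain ⟨d, rfl⟩ : ∃ d, k = j + (d + 1) := ⟨k - j - 1, by omega⟩
  have e1 : x ^ (2 ^ (j + (d + 1) + 1) * M * M') = 1 := by
    have : 2 ^ (j + (d + 1) + 1) * M * M' = (2 ^ (j + 1) * M) * (2 ^ (d + 1) * M') := by ring
    rw [this, pow_mul, h1]
    apply Even.neg_one_pow
    exact (Even.pow_of_ne_zero (by decide : Even 2) (by omega)).mul_right _
  have e2 : x ^ (2 ^ (j + (d + 1) + 1) * M * M') = -1 := by
    have : 2 ^ (j + (d + 1) + 1) * M * M' = (2 ^ (j + (d + 1) + 1) * M') * M := by ring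
    rw [this, pow_mul, h3, Odd.neg_one_pow hM]
  rw [e1] at e2
  apply h2
  linear_combination e2

lemma Ty.unique {K : Type*} [Field K] (h2 : (2 : K) ≠ 0) {j k : ℕ} {x : K}
    (hj : Ty j x) (hk : Ty k x) : j = k := by
  rcases lt_trichotomy j k with h | h | h
  · exact (Ty.unique_aux h2 hj hk h).elim
  · exact h
  · exact (Ty.unique_aux h2 hk hj h).elim

/-- Elementary case analysis. -/
lemma cases_aux {K : Type*} [Field K] (h2 : (2 : K) ≠ 0) {x y z x' y' z' : K}
    (hx0 : x ≠ 0) (hy0 : y ≠ 0)
    (hxy : x * y = z) (hxy' : x' * y' = z')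
    (hx : x' = x ∨ x' * x = 1) (hy : y' = y ∨ y' * y = 1) (hz : z' = -z ∨ z' * z = -1) :
    z ^ 2 = -1 ∨ x ^ 2 = -1 ∨ y ^ 2 = -1 := by
  subst hxy
  subst hxy'
  rcases hx with rfl | hx
  · rcases hy with rfl | hy
    · rcases hz with hz | hz
      · exfalso
        have : (2 : K) * (x' * y') = 0 := by linear_combination hz
        rcases mul_eq_zero.1 this with h | h
        · exact h2 h
        · exact (mul_ne_zero hx0 hy0) h
      · left; linear_combination hz
    · rcases hz with hz | hz
      · -- x y' = - x y, y' y = 1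
        right; right
        have h3 : y' = -y := mul_left_cancel₀ hx0 (by linear_combination hz)
        rw [h3] at hy
        linear_combination -hy
      · right; left
        linear_combination hz - x' ^ 2 * hy
  · rcases hy with rfl | hy
    · rcases hz with hz | hz
      · right; left
        have h3 : x' = -x := mul_right_cancel₀ hy0 (by linear_combination hz)
        rw [h3] at hx
        linear_combination -hx
      · right; right
        linear_combination hz - y' ^ 2 * hx
    · rcases hz with hz | hz
      · left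
        have : (x' * y') * (x * y) = 1 := by
          have : (x' * y') * (x * y) = (x' * x) * (y' * y) := by ring
          rw [this, hx, hy]; ring
        rw [hz] at this
        linear_combination -this
      · exfalso
        apply h2
        have : (x' * y') * (x * y) = 1 := by
          have : (x' * y') * (x * y) = (x' * x) * (y' * y) := by ring
          rw [this, hx, hy]; ring
        linear_combination hz - this

/-- The combinatorial core. -/
lemma comb (t : ℤ → ℕ)
    (h : ∀ m : ℤ, ∀ k : ℕ, 1 ≤ k → k ≤ 3 → t m = 0 ∨ t (m + k) = k ∨ t (m - k) = k) :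
    t 0 = 0 := by
  by_contra h0
  have c (p : ℤ) (k : ℕ) (hk1 : 1 ≤ k) (hk3 : k ≤ 3) := h p k hk1 hk3
  have c01 := c 0 1 (by norm_num) (by norm_num)
  have c02 := c 0 2 (by norm_num) (by norm_num)
  have c03 := c 0 3 (by norm_num) (by norm_num)
  have c11 := c 1 1 (by norm_num) (by norm_num)
  have c12 := c 1 2 (by norm_num) (by norm_num)
  have c13 := c 1 3 (by norm_num) (by norm_num)
  have c21 := c 2 1 (by norm_num) (by norm_num)
  have c22 := c 2 2 (by norm_num) (by norm_num)
  have c23 := c 2 3 (by norm_num) (by norm_num)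
  have d11 := c (-1) 1 (by norm_num) (by norm_num)
  have d12 := c (-1) 2 (by norm_num) (by norm_num)
  have d13 := c (-1) 3 (by norm_num) (by norm_num)
  have d21 := c (-2) 1 (by norm_num) (by norm_num)
  have d22 := c (-2) 2 (by norm_num) (by norm_num)
  have d23 := c (-2) 3 (by norm_num) (by norm_num)
  clear c h
  norm_num at c01 c02 c03 c11 c12 c13 c21 c22 c23 d11 d12 d13 d21 d22 d23
  generalize t 0 = a0 at *
  generalize t 1 = a1 at *
  generalize t 2 = a2 at *
  generalize t 3 = a3 at *
  generalize t 4 = a4 at *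
  generalize t 5 = a5 at *
  generalize t (-1) = b1 at *
  generalize t (-2) = b2 at *
  generalize t (-3) = b3 at *
  generalize t (-4) = b4 at *
  generalize t (-5) = b5 at *
  omega

end Run7.h133.RightTri
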