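import Mathlib
import Pool.Agent.Run7.h133.RightTriA

namespace Run7.h133.RightTri

open Complex

lemma sq15 : (Real.sqrt 15) ^ 2 = 15 := Real.sq_sqrt (by norm_num)
lemma sq3 : (Real.sqrt 3) ^ 2 = 3 := Real.sq_sqrt (by norm_num)

/-- unit complex number with `e + e⁻¹ = 1/2`. -/
noncomputable def ee : ℂ := ⟨1 / 4, Real.sqrt 15 / 4⟩
noncomputable def ee' : ℂ := ⟨1 / 4, -(Real.sqrt 15 / 4)⟩
/-- primitive cube root of unity -/
noncomputable def om : ℂ := ⟨-1 / 2, Real.sqrt 3 / 2⟩

lemma ee_mul : ee * ee' = 1 := by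
  apply Complex.ext <;> simp [ee, ee']
  · nlinarith [sq15]
  · ring

lemma ee_add : ee + ee' = 1 / 2 := by
  apply Complex.ext <;> simp [ee, ee']
  norm_num

lemma norm_ee : ‖ee‖ = 1 := by
  have h : ‖ee‖ ^ 2 = 1 := by
    rw [← Complex.normSq_eq_norm_sq, Complex.normSq_apply]
    simp [ee]; nlinarith [sq15]
  nlinarith [norm_nonneg ee]

lemma norm_ee' : ‖ee'‖ = 1 := by
  have h : ‖ee'‖ ^ 2 = 1 := by
    rw [← Complex.normSq_eq_norm_sq, Complex.normSq_apply]
    simp [ee']; nlinarith [sq15]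
  nlinarith [norm_nonneg ee']

lemma norm_om : ‖om‖ = 1 := by
  have h : ‖om‖ ^ 2 = 1 := by
    rw [← Complex.normSq_eq_norm_sq, Complex.normSq_apply]
    simp [om]; nlinarith [sq3]
  nlinarith [norm_nonneg om]

lemma om_sum : 1 + om + om ^ 2 = 0 := by
  apply Complex.ext <;> simp [om, pow_two]
  · nlinarith [sq3]
  · ring

lemma ee_ne : ee ≠ 0 := by
  intro h; have := norm_ee; rw [h] at this; simp at this

lemma ee'_eq : ee' = ee⁻¹ := by
  field_simp [ee_ne]
  rw [mul_comm]; exact ee_mul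

section
variable {K : Type*} [Field K]

lemma chi_nsmul (χ : ℂ → K) (h0 : χ 0 = 1) (hadd : ∀ x y, χ (x + y) = χ x * χ y) (n : ℕ) (x : ℂ) :
    χ (n * x) = χ x ^ n := by
  induction n with
  | zero => simp [h0]
  | succ n ih =>
    have : ((n + 1 : ℕ) : ℂ) * x = n * x + x := by push_cast; ring
    rw [this, hadd, ih, pow_succ]

/-- No character. -/
theorem no_char (h2 : (2 : K) ≠ 0) (χ : ℂ → K) (h0 : χ 0 = 1)
    (hadd : ∀ x y, χ (x + y) = χ x * χ y) (a b : ℝ) (ha : 0 < a) (hb : 0 < b)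
    (h : ∀ u : ℂ, ‖u‖ = 1 → (1 + χ (a * u)) * (1 + χ (b * I * u)) = 0) : False := by
  have hne : ∀ x, χ x ≠ 0 := by
    intro x hx
    have : χ (x + -x) = χ x * χ (-x) := hadd x (-x)
    rw [add_neg_cancel, h0, hx, zero_mul] at this
    exact one_ne_zero this
  set c : ℝ := Real.sqrt (a ^ 2 + b ^ 2) with hc
  have hcpos : 0 < c := Real.sqrt_pos.2 (by positivity)
  have hc2 : c ^ 2 = a ^ 2 + b ^ 2 := Real.sq_sqrt (by positivity)
  have hcC : (c : ℂ) ≠ 0 := by exact_mod_cast hcpos.ne'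
  set z : ℂ := (a + b * I) / c with hz
  have hznorm : ‖z‖ = 1 := by
    have : ‖z‖ ^ 2 = 1 := by
      rw [← Complex.normSq_eq_norm_sq, hz, Complex.normSq_div, Complex.normSq_apply,
        Complex.normSq_ofReal]
      simp
      rw [div_eq_one_iff_eq (by positivity)]
      nlinarith [hc2]
    nlinarith [norm_nonneg z]
  have hzz : z * (starRingEnd ℂ) z = 1 := by
    rw [Complex.mul_conj, Complex.normSq_eq_norm_sq, hznorm]; simp
  -- F w = χ (c/2 * w)
  set F : ℂ → K := fun w => χ (c / 2 * w) with hF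
  have hFne : ∀ w, F w ≠ 0 := fun w => hne _
  have hFadd : ∀ x y, F (x + y) = F x * F y := by
    intro x y
    simp only [hF]
    rw [mul_add, hadd]
  have hF0 : F 0 = 1 := by simp [hF, h0]
  have hFn : ∀ (n : ℕ) (x : ℂ), F (n * x) = F x ^ n := by
    intro n x
    exact chi_nsmul F hF0 hFadd n x
  set ζ : ℂ := z ^ 2 with hζ
  have key : ∀ w : ℂ, ‖w‖ = 1 → (F (ζ * w) = -F w ∨ F (ζ * w) * F w = -1) := by
    intro w hw
    have hu : ‖z * w‖ = 1 := by rw [norm_mul, hznorm, hw, one_mul]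
    have h1 := h (z * w) hu
    have hza : (a : ℂ) = c / 2 * (z + (starRingEnd ℂ) z) := by
      rw [Complex.add_conj, hz]
      have : (((a : ℂ) + b * I) / c).re = a / c := by
        rw [Complex.div_ofReal_re]; simp
      rw [this]; push_cast; field_simp
    have hzb : (b : ℂ) * I = c / 2 * (z - (starRingEnd ℂ) z) := by
      rw [Complex.sub_conj, hz]
      have : (((a : ℂ) + b * I) / c).im = b / c := by
        rw [Complex.div_ofReal_im]; simp
      rw [this]; push_cast; field_simp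
    have e1 : (a : ℂ) * (z * w) = c / 2 * (ζ * w) + c / 2 * w := by
      rw [hza, hζ]
      linear_combination (c / 2 * w) * hzz
    have e2 : (b : ℂ) * I * (z * w) + c / 2 * w = c / 2 * (ζ * w) := by
      rw [hzb, hζ]
      linear_combination (-(c / 2 * w)) * hzz
    have f1 : χ (a * (z * w)) = F (ζ * w) * F w := by
      rw [e1, hadd]
    have f2 : χ (b * I * (z * w)) * F w = F (ζ * w) := by
      simp only [hF]
      rw [← hadd, e2]
    rcases mul_eq_zero.1 h1 with h3 | h3
    · right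
      rw [f1] at h3
      linear_combination h3
    · left
      rw [← f2]
      linear_combination (F w) * h3
  -- squares of F at zeta-translates
  have keypow_even : ∀ w : ℂ, ‖w‖ = 1 → ∀ N : ℕ, Even N →
      (F (ζ * w) ^ N = F w ^ N ∨ F (ζ * w) ^ N * F w ^ N = 1) := by
    intro w hw N hN
    rcases key w hw with h3 | h3
    · left; rw [h3, hN.neg_pow]
    · right; rw [← mul_pow, h3, hN.neg_one_pow]
  have keypow_odd : ∀ w : ℂ, ‖w‖ = 1 → ∀ M : ℕ, Odd M →
      (F (ζ * w) ^ M = -F w ^ M ∨ F (ζ * w) ^ M * F w ^ M = -1) := by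
    intro w hw N hN
    rcases key w hw with h3 | h3
    · left; rw [h3, hN.neg_pow]
    · right; rw [← mul_pow, h3, hN.neg_one_pow]
  -- general step
  have step : ∀ (k M : ℕ), 1 ≤ k → Odd M → ∀ p q w : ℂ, ‖p‖ = 1 → ‖q‖ = 1 → ‖w‖ = 1 →
      ((2 ^ k : ℕ) : ℂ) * p + ((2 ^ k : ℕ) : ℂ) * q = (M : ℕ) * w →
      Ty 0 (F w) ∨ Ty k (F p) ∨ Ty k (F q) := by
    intro k M hk hM p q w hp hq hw hrel
    have r1 : F p ^ (2 ^ k) * F q ^ (2 ^ k) = F w ^ M := by
      rw [← hFn, ← hFn, ← hFn, ← hFadd, hrel]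
    have hrel' : ((2 ^ k : ℕ) : ℂ) * (ζ * p) + ((2 ^ k : ℕ) : ℂ) * (ζ * q) = (M : ℕ) * (ζ * w) := by
      linear_combination ζ * hrel
    have r2 : F (ζ * p) ^ (2 ^ k) * F (ζ * q) ^ (2 ^ k) = F (ζ * w) ^ M := by
      rw [← hFn, ← hFn, ← hFn, ← hFadd, hrel']
    have hev : Even (2 ^ k) := Even.pow_of_ne_zero (by decide : Even 2) (by omega)
    rcases cases_aux h2 (pow_ne_zero _ (hFne p)) (pow_ne_zero _ (hFne q)) r1 r2
      (keypow_even p hp _ hev) (keypow_even q hq _ hev) (keypow_odd w hw _ hM) with h3 | h3 | h3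
    · left
      refine ⟨M, hM, ?_⟩
      rw [← h3, ← pow_mul]; congr 1; ring
    · right; left
      refine ⟨1, odd_one, ?_⟩
      rw [← h3, ← pow_mul]; congr 1; ring
    · right; right
      refine ⟨1, odd_one, ?_⟩
      rw [← h3, ← pow_mul]; congr 1; ring
  -- negative
  have Tyneg : ∀ w : ℂ, Ty 0 (F (-w)) → Ty 0 (F w) := by
    intro w ⟨M, hM, h3⟩
    refine ⟨M, hM, ?_⟩
    have h4 : F w * F (-w) = 1 := by rw [← hFadd, add_neg_cancel, hF0]
    have h5 : F w ^ (2 ^ (0 + 1) * M) * F (-w) ^ (2 ^ (0 + 1) * M) = 1 := by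
      rw [← mul_pow, h4, one_pow]
    rw [h3] at h5
    linear_combination -h5
  have em : ee * ee⁻¹ = 1 := mul_inv_cancel₀ ee_ne
  have ea : ee + ee⁻¹ = 1 / 2 := by rw [← ee'_eq]; exact ee_add
  have ninv : ‖ee⁻¹‖ = 1 := by rw [norm_inv, norm_ee, inv_one]
  -- all F values have type 0
  have all0 : ∀ w : ℂ, ‖w‖ = 1 → Ty 0 (F w) := by
    intro w hw
    classical
    set v : ℤ → ℂ := fun m => ee ^ m * w with hv
    have hvn : ∀ m, ‖v m‖ = 1 := by
      intro m; simp [hv, norm_mul, norm_zpow, norm_ee, hw]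
    let t : ℤ → ℕ := fun m => if Ty 0 (F (v m)) then 0 else if Ty 1 (F (v m)) then 1 else
      if Ty 2 (F (v m)) then 2 else if Ty 3 (F (v m)) then 3 else 4
    have ht : ∀ m k, k ≤ 3 → Ty k (F (v m)) → t m = k := by
      intro m k hk hT
      have u := fun j (hj : Ty j (F (v m))) => Ty.unique h2 hj hT
      simp only [t]
      split_ifs with g0 g1 g2 g3
      · exact u 0 g0
      · exact u 1 g1
      · exact u 2 g2
      · exact u 3 g3
      · exfalso
        interval_cases k
        · exact g0 hT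
        · exact g1 hT
        · exact g2 hT
        · exact g3 hT
    have vs : ∀ (m : ℤ) (k : ℕ), v (m + k) = ee ^ k * v m := by
      intro m k; simp only [hv]; rw [zpow_add₀ ee_ne, zpow_natCast]; ring
    have vs' : ∀ (m : ℤ) (k : ℕ), v (m - k) = ee⁻¹ ^ k * v m := by
      intro m k; simp only [hv]; rw [zpow_sub₀ ee_ne, zpow_natCast, inv_pow]; field_simp
    have main : ∀ m : ℤ, ∀ k : ℕ, 1 ≤ k → k ≤ 3 → t m = 0 ∨ t (m + k) = k ∨ t (m - k) = k := by
      intro m k hk1 hk3
      have hcases : Ty 0 (F (v m)) ∨ Ty k (F (v (m + k))) ∨ Ty k (F (v (m - k))) := by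
        interval_cases k
        · apply step 1 1 le_rfl odd_one _ _ _ (hvn _) (hvn _) (hvn _)
          rw [vs, vs']
          push_cast
          linear_combination (2 * v m) * ea
        · have := step 2 7 (by norm_num) (by decide) (v (m + (2 : ℕ))) (v (m - (2 : ℕ))) (-v m)
            (hvn _) (hvn _) (by rw [norm_neg]; exact hvn _) (by
              rw [vs, vs']
              push_cast
              linear_combination (4 * v m * (ee + ee⁻¹ + 1 / 2)) * ea - (8 * v m) * em)
          rcases this with h3 | h3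
          · left; exact Tyneg _ h3
          · right; exact h3
        · have := step 3 11 (by norm_num) (by decide) (v (m + (3 : ℕ))) (v (m - (3 : ℕ))) (-v m)
            (hvn _) (hvn _) (by rw [norm_neg]; exact hvn _) (by
              rw [vs, vs']
              push_cast
              have e3 : ee ^ 3 + ee⁻¹ ^ 3 = -11 / 8 := by
                have : ee ^ 3 + ee⁻¹ ^ 3 = (ee + ee⁻¹) ^ 3 - 3 * (ee * ee⁻¹) * (ee + ee⁻¹) := by ring
                rw [this, em, ea]; norm_num
              linear_combination (8 * v m) * e3)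
          rcases this with h3 | h3
          · left; exact Tyneg _ h3
          · right; exact h3
      rcases hcases with h3 | h3 | h3
      · left; exact ht m 0 (by norm_num) h3
      · right; left; exact ht _ k hk3 h3
      · right; right; exact ht _ k hk3 h3
    have hfin := comb t main
    have hv0 : v 0 = w := by simp [hv]
    by_contra hcon
    have : t 0 ≠ 0 := by
      simp only [t, hv0]
      rw [if_neg hcon]
      split_ifs <;> norm_num
    exact this hfin
  -- final contradiction from the cube roots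
  have t1 := all0 1 (by simp)
  have t2 := all0 om norm_om
  have t3 := all0 (om ^ 2) (by rw [norm_pow, norm_om, one_pow])
  obtain ⟨M1, hM1, g1⟩ := t1
  obtain ⟨M2, hM2, g2⟩ := t2
  obtain ⟨M3, hM3, g3⟩ := t3
  have hprod : F 1 * F om * F (om ^ 2) = 1 := by
    rw [← hFadd, ← hFadd, om_sum, hF0]
  have q1 : F 1 ^ (2 * M1 * M2 * M3) = -1 := by
    have : 2 * M1 * M2 * M3 = (2 ^ (0 + 1) * M1) * (M2 * M3) := by ring
    rw [this, pow_mul, g1, (hM2.mul hM3).neg_one_pow]
  have q2 : F om ^ (2 * M1 * M2 * M3) = -1 := by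
    have : 2 * M1 * M2 * M3 = (2 ^ (0 + 1) * M2) * (M1 * M3) := by ring
    rw [this, pow_mul, g2, (hM1.mul hM3).neg_one_pow]
  have q3 : F (om ^ 2) ^ (2 * M1 * M2 * M3) = -1 := by
    have : 2 * M1 * M2 * M3 = (2 ^ (0 + 1) * M3) * (M1 * M2) := by ring
    rw [this, pow_mul, g3, (hM1.mul hM2).neg_one_pow]
  have q : (F 1 * F om * F (om ^ 2)) ^ (2 * M1 * M2 * M3) = 1 := by rw [hprod, one_pow]
  rw [mul_pow, mul_pow, q1, q2, q3] at q
  apply h2
  linear_combination -q

end

end Run7.h133.RightTri
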