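import Mathlib
import Pool.Agent.Run7.h133.RightTriB

namespace Run7.h133.RightTri

open Complex

/-- The real group algebra of the additive group `ℂ`. -/
abbrev GA := AddMonoidAlgebra ℝ ℂ

/-- Translation operator. -/
def transl (g : ℂ) : Module.End ℝ (ℂ → ℝ) where
  toFun f := fun x => f (x + g)
  map_add' _ _ := rfl
  map_smul' _ _ := rfl

def translHom : Multiplicative ℂ →* Module.End ℝ (ℂ → ℝ) where
  toFun g := transl g.toAdd
  map_one' := by
    ext f x; simp [transl]
  map_mul' g h := by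
    apply LinearMap.ext; intro f; funext x
    simp only [transl, toAdd_mul, Module.End.mul_apply, LinearMap.coe_mk, AddHom.coe_mk]
    congr 1; ring

/-- The action of the group algebra on functions. -/
noncomputable def act : GA →ₐ[ℝ] Module.End ℝ (ℂ → ℝ) :=
  AddMonoidAlgebra.lift ℝ (Module.End ℝ (ℂ → ℝ)) ℂ translHom

lemma act_single (g : ℂ) (c : ℝ) (f : ℂ → ℝ) (x : ℂ) :
    act (AddMonoidAlgebra.single g c) f x = c * f (x + g) := by
  simp [act, AddMonoidAlgebra.lift_single, translHom, transl]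

lemma act_mul (P Q : GA) (f : ℂ → ℝ) : act (P * Q) f = act P (act Q f) := by
  rw [map_mul]; rfl

lemma act_comm (P Q : GA) (f : ℂ → ℝ) : act P (act Q f) = act Q (act P f) := by
  rw [← act_mul, ← act_mul, mul_comm]

lemma act_one (f : ℂ → ℝ) : act 1 f = f := by
  rw [map_one]; rfl

/-- positivity of an element of the group algebra -/
def Pos (P : GA) : Prop := ∀ f : ℂ → ℝ, (∀ x, 0 ≤ f x) → ∀ x, 0 ≤ act P f x

lemma Pos.zero : Pos 0 := by
  intro f _ x
  simp

lemma Pos.add {P Q : GA} (hP : Pos P) (hQ : Pos Q) : Pos (P + Q) := by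
  intro f hf x
  rw [map_add, LinearMap.add_apply, Pi.add_apply]
  exact add_nonneg (hP f hf x) (hQ f hf x)

lemma Pos.mul {P Q : GA} (hP : Pos P) (hQ : Pos Q) : Pos (P * Q) := by
  intro f hf x
  rw [act_mul]
  exact hP _ (hQ f hf) x

lemma Pos.single (g : ℂ) {c : ℝ} (hc : 0 ≤ c) : Pos (AddMonoidAlgebra.single g c) := by
  intro f hf x
  rw [act_single]
  exact mul_nonneg hc (hf _)

lemma Pos.one : Pos 1 := by
  intro f hf x
  rw [act_one]; exact hf x

lemma exists_abs (c : GA) : ∃ C : GA, Pos C ∧ ∀ (h : ℂ → ℝ) (x : ℂ),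
    |act c h x| ≤ act C (fun y => |h y|) x := by
  induction c using AddMonoidAlgebra.induction_linear with
  | zero => exact ⟨0, Pos.zero, fun h x => by simp⟩
  | add p q hp hq =>
    obtain ⟨C, hC, h1⟩ := hp
    obtain ⟨D, hD, h2⟩ := hq
    refine ⟨C + D, hC.add hD, fun h x => ?_⟩
    rw [map_add, map_add, LinearMap.add_apply, LinearMap.add_apply, Pi.add_apply, Pi.add_apply]
    exact (abs_add_le _ _).trans (add_le_add (h1 h x) (h2 h x))
  | single g c =>
    refine ⟨AddMonoidAlgebra.single g |c|, Pos.single g (abs_nonneg c), fun h x => ?_⟩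
    rw [act_single, act_single, abs_mul]

/-- The rectangle element. -/
noncomputable def rect (a b : ℝ) (u : ℂ) : GA :=
  (1 + AddMonoidAlgebra.single ((a : ℂ) * u) 1) * (1 + AddMonoidAlgebra.single ((b : ℂ) * I * u) 1)

lemma act_rect (a b : ℝ) (u : ℂ) (f : ℂ → ℝ) (x : ℂ) :
    act (rect a b u) f x = f x + f (x + a * u) + f (x + b * I * u) + f (x + a * u + b * I * u) := by
  rw [rect, act_mul]
  simp only [map_add, act_one, LinearMap.add_apply, Pi.add_apply, act_single, one_mul, map_one,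
    Module.End.one_apply]
  ring

lemma Pos.rect (a b : ℝ) (u : ℂ) : Pos (rect a b u) :=
  (Pos.one.add (Pos.single _ zero_le_one)).mul (Pos.one.add (Pos.single _ zero_le_one))

/-- The rectangle elements generate the unit ideal. -/
theorem span_top (a b : ℝ) (ha : 0 < a) (hb : 0 < b) :
    Ideal.span {r : GA | ∃ u : ℂ, ‖u‖ = 1 ∧ r = rect a b u} = ⊤ := by
  by_contra hne
  obtain ⟨M, hM, hle⟩ := Ideal.exists_le_maximal _ hne
  letI : Field (GA ⧸ M) := Ideal.Quotient.field M
  have h2 : (2 : GA ⧸ M) ≠ 0 := by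
    intro h
    have : (algebraMap ℝ (GA ⧸ M)) 2 = 0 := by rw [map_ofNat]; exact h
    rw [map_eq_zero] at this
    norm_num at this
  refine no_char h2 (fun x => Ideal.Quotient.mk M (AddMonoidAlgebra.single x 1)) ?_ ?_ a b ha hb ?_
  · change Ideal.Quotient.mk M (AddMonoidAlgebra.single 0 1) = 1
    rw [← AddMonoidAlgebra.one_def, map_one]
  · intro x y
    change Ideal.Quotient.mk M (AddMonoidAlgebra.single (x + y) 1) = _
    rw [← map_mul, AddMonoidAlgebra.single_mul_single, one_mul]
  · intro u hu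
    have : rect a b u ∈ M := hle (Ideal.subset_span ⟨u, hu, rfl⟩)
    have h3 := (Ideal.Quotient.eq_zero_iff_mem).2 this
    rw [rect, map_mul, map_add, map_add, map_one] at h3
    exact h3

/-- Key analytic statement: if all `a × b` rectangles have nonpositive sums of a `±1` function,
then a positive combination of translates is everywhere at most `-1`. -/
theorem exists_pos (a b : ℝ) (ha : 0 < a) (hb : 0 < b) (f : ℂ → ℝ)
    (hf : ∀ x, |f x| = 1)
    (hr : ∀ u : ℂ, ‖u‖ = 1 → ∀ x, act (rect a b u) f x ≤ 0) :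
    ∃ P : GA, Pos P ∧ ∀ x, act P f x ≤ -1 := by
  have key : ∀ r ∈ Ideal.span {r : GA | ∃ u : ℂ, ‖u‖ = 1 ∧ r = rect a b u},
      ∃ P : GA, Pos P ∧ ∀ x, |act r f x| ≤ - act P f x := by
    intro r hrm
    induction hrm using Submodule.span_induction with
    | mem r hr' =>
      obtain ⟨u, hu, rfl⟩ := hr'
      refine ⟨rect a b u, Pos.rect a b u, fun x => ?_⟩
      rw [abs_of_nonpos (hr u hu x)]
    | zero => exact ⟨0, Pos.zero, fun x => by simp⟩
    | add r s _ _ h1 h2 =>
      obtain ⟨P, hP, h1⟩ := h1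
      obtain ⟨Q, hQ, h2⟩ := h2
      refine ⟨P + Q, hP.add hQ, fun x => ?_⟩
      rw [map_add, map_add, LinearMap.add_apply, LinearMap.add_apply, Pi.add_apply, Pi.add_apply]
      have := abs_add_le (act r f x) (act s f x)
      linarith [h1 x, h2 x]
    | smul c r _ h1 =>
      obtain ⟨P, hP, h1⟩ := h1
      obtain ⟨C, hC, h2⟩ := exists_abs c
      refine ⟨C * P, hC.mul hP, fun x => ?_⟩
      rw [smul_eq_mul, act_mul, act_mul]
      refine (h2 _ x).trans ?_
      have h3 := hC (fun y => - act P f y - |act r f y|) (fun y => by linarith [h1 y]) x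
      have h4 : (fun y => - act P f y - |act r f y|) = -(act P f) - (fun y => |act r f y|) := rfl
      rw [h4, map_sub, map_neg, Pi.sub_apply, Pi.neg_apply] at h3
      linarith
  obtain ⟨P, hP, h1⟩ := key 1 (by rw [span_top a b ha hb]; trivial)
  refine ⟨P, hP, fun x => ?_⟩
  have := h1 x
  rw [act_one, hf] at this
  linarith

/-- The main combinatorial contradiction. -/
theorem no_colouring (a b a' b' : ℝ) (ha : 0 < a) (hb : 0 < b) (f : ℂ → ℝ)
    (hf : ∀ x, |f x| = 1)
    (hr : ∀ u : ℂ, ‖u‖ = 1 → ∀ x,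
      f x + f (x + a * u) + f (x + b * I * u) + f (x + a * u + b * I * u) ≤ 0)
    (hr' : ∀ x, 0 ≤ f x + f (x + a' * 1) + f (x + b' * I * 1) + f (x + a' * 1 + b' * I * 1)) :
    False := by
  obtain ⟨P, hP, h1⟩ := exists_pos a b ha hb f hf (fun u hu x => by rw [act_rect]; exact hr u hu x)
  have h2 : 0 ≤ act P (act (rect a' b' 1) f) 0 :=
    hP _ (fun x => by rw [act_rect]; exact hr' x) 0
  rw [act_comm, act_rect] at h2
  linarith [h1 0, h1 (0 + a' * 1), h1 (0 + b' * I * 1), h1 (0 + a' * 1 + b' * I * 1)]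

end Run7.h133.RightTri
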