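import Mathlib
import Pool.Agent.Run7.h133.RightTriC

/-!
Cube elements `∏ (1 + [v w])` of the group algebra of `ℂ`, over all unit complex numbers `w`,
generate the unit ideal.
-/

namespace Run7.h133.Cube

open Complex Run7.h133.RightTri

/-- Integer sequence `(x^j - y^j)/(x-y)` for `x + y = 1`, `x y = 4`. -/
def W : ℕ → ℤ
  | 0 => 0
  | 1 => 1
  | (n + 2) => W (n + 1) - 4 * W n

lemma W_odd : ∀ n : ℕ, Odd (W (n + 1))
  | 0 => by simp [W]
  | (n + 1) => by
    have h := W_odd n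
    have e : W (n + 1 + 1) = W (n + 1) - 4 * W n := rfl
    rw [e]
    rw [Int.odd_iff] at h ⊢
    omega

lemma ee_quad : 4 * ee ^ 2 = 2 * ee - 4 := by
  have h1 := ee_mul
  have h2 := ee_add
  linear_combination (4 * ee) * h2 - 4 * h1

lemma ee_W1 : ∀ i : ℕ, (W (i + 1) : ℂ) * ee ^ i = 2 * W i * ee ^ (i + 1) + 2 ^ i
  | 0 => by simp [W]
  | (i + 1) => by
    have h := ee_W1 i
    have e : W (i + 1 + 1) = W (i + 1) - 4 * W i := rfl
    rw [e]
    push_cast
    linear_combination 2 * h - (W (i + 1) * ee ^ i / 2) * ee_quad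

lemma ee_W (i : ℕ) : ∀ l : ℕ,
    (W (i + l) : ℂ) * ee ^ i = 2 ^ l * W i * ee ^ (i + l) + 2 ^ i * W l
  | 0 => by simp [W]
  | 1 => by
    have h := ee_W1 i
    have e : W 1 = 1 := rfl
    rw [h, e]
    push_cast
    ring
  | (l + 2) => by
    have h0 := ee_W i l
    have h1 := ee_W i (l + 1)
    have e : W (i + (l + 2)) = W (i + (l + 1)) - 4 * W (i + l) := rfl
    have e' : W (l + 2) = W (l + 1) - 4 * W l := rfl
    rw [e, e']
    push_cast
    linear_combination h1 - 4 * h0 - (2 ^ l * W i * ee ^ (i + l)) * ee_quad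

section
variable {K : Type*} [Field K]

lemma chi_ne (χ : ℂ → K) (h0 : χ 0 = 1) (hadd : ∀ x y, χ (x + y) = χ x * χ y) (x : ℂ) :
    χ x ≠ 0 := by
  intro hx
  have : χ (x + -x) = χ x * χ (-x) := hadd x (-x)
  rw [add_neg_cancel, h0, hx, zero_mul] at this
  exact one_ne_zero this

lemma chi_zsmul (χ : ℂ → K) (h0 : χ 0 = 1) (hadd : ∀ x y, χ (x + y) = χ x * χ y) (n : ℤ)
    (x : ℂ) : χ (n * x) = χ x ^ n := by
  have hne := chi_ne χ h0 hadd
  cases n with
  | ofNat n =>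
    rw [Int.ofNat_eq_natCast, Int.cast_natCast, zpow_natCast]
    exact chi_nsmul χ h0 hadd n x
  | negSucc n =>
    have h1 : χ (((Int.negSucc n : ℤ) : ℂ) * x) * χ (((n + 1 : ℕ) : ℂ) * x) = 1 := by
      rw [← hadd, Int.cast_negSucc, neg_mul, neg_add_cancel, h0]
    rw [chi_nsmul χ h0 hadd (n + 1) x] at h1
    rw [zpow_negSucc]
    exact eq_inv_of_mul_eq_one_left h1

/-- At most two members of the orbit `ee ^ m z` are sent to `-1`. -/
lemma orbit_three (h2 : (2 : K) ≠ 0) (χ : ℂ → K) (h0 : χ 0 = 1)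
    (hadd : ∀ x y, χ (x + y) = χ x * χ y) (z : ℂ) (i l : ℕ)
    (c0 : χ z = -1) (c1 : χ (ee ^ (i + 1) * z) = -1)
    (c2 : χ (ee ^ ((i + 1) + (l + 1)) * z) = -1) : False := by
  have key := ee_W (i + 1) (l + 1)
  have e1 : (W (i + 1 + (l + 1)) : ℂ) * (ee ^ (i + 1) * z) =
      ((2 ^ (l + 1) * W (i + 1) : ℤ) : ℂ) * (ee ^ ((i + 1) + (l + 1)) * z)
        + ((2 ^ (i + 1) * W (l + 1) : ℤ) : ℂ) * z := by
    push_cast
    linear_combination z * key
  have e2 := congrArg χ e1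
  rw [hadd, chi_zsmul χ h0 hadd, chi_zsmul χ h0 hadd, chi_zsmul χ h0 hadd, c0, c1, c2] at e2
  have o1 : Odd (W (i + 1 + (l + 1))) := W_odd (i + 1 + l)
  have o2 : Even (2 ^ (l + 1) * W (i + 1)) := by
    apply Even.mul_right
    exact Even.pow_of_ne_zero (by decide) (by omega)
  have o3 : Even (2 ^ (i + 1) * W (l + 1)) := by
    apply Even.mul_right
    exact Even.pow_of_ne_zero (by decide) (by omega)
  rw [o1.neg_one_zpow, o2.neg_one_zpow, o3.neg_one_zpow] at e2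
  apply h2
  linear_combination -e2

/-- No character kills all the cube elements. -/
theorem no_char_cube (h2 : (2 : K) ≠ 0) (χ : ℂ → K) (h0 : χ 0 = 1)
    (hadd : ∀ x y, χ (x + y) = χ x * χ y) (vs : List ℂ)
    (h : ∀ w : ℂ, ‖w‖ = 1 → ∃ v ∈ vs, χ (v * w) = -1) : False := by
  have hm : ∀ m : ℕ, ∃ j : Fin vs.length, χ (vs.get j * ee ^ m) = -1 := by
    intro m
    obtain ⟨v, hv, h3⟩ := h (ee ^ m) (by rw [norm_pow, norm_ee, one_pow])
    obtain ⟨j, rfl⟩ := List.get_of_mem hv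
    exact ⟨j, h3⟩
  choose j hj using hm
  obtain ⟨y, hy⟩ := Finite.exists_infinite_fiber j
  rw [Set.infinite_coe_iff] at hy
  obtain ⟨m0, hm0⟩ := hy.nonempty
  obtain ⟨m1, hm1, hlt1⟩ := hy.exists_gt m0
  obtain ⟨m2, hm2, hlt2⟩ := hy.exists_gt m1
  obtain ⟨i, rfl⟩ : ∃ i, m1 = m0 + (i + 1) := ⟨m1 - m0 - 1, by omega⟩
  obtain ⟨l, rfl⟩ : ∃ l, m2 = m0 + (i + 1) + (l + 1) := ⟨m2 - (m0 + (i + 1)) - 1, by omega⟩
  have k0 := hj m0
  have k1 := hj (m0 + (i + 1))
  have k2 := hj (m0 + (i + 1) + (l + 1))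
  have q0 : j m0 = y := hm0
  have q1 : j (m0 + (i + 1)) = y := hm1
  have q2 : j (m0 + (i + 1) + (l + 1)) = y := hm2
  rw [q0] at k0
  rw [q1] at k1
  rw [q2] at k2
  refine orbit_three h2 χ h0 hadd (vs.get y * ee ^ m0) i l k0 ?_ ?_
  · rw [← k1]; congr 1; rw [pow_add]; ring
  · rw [← k2]; congr 1; rw [pow_add, pow_add, pow_add]; ring

end

/-- The cube element with sides `v * w`, `v ∈ vs`. -/
noncomputable def cubeEl (vs : List ℂ) (w : ℂ) : GA :=
  (vs.map (fun v => 1 + AddMonoidAlgebra.single (v * w) 1)).prod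

lemma Pos.cubeEl (vs : List ℂ) (w : ℂ) : Pos (cubeEl vs w) := by
  induction vs with
  | nil => simpa [Cube.cubeEl] using Pos.one
  | cons v vs ih =>
    have : Cube.cubeEl (v :: vs) w = (1 + AddMonoidAlgebra.single (v * w) 1) * Cube.cubeEl vs w := by
      simp [Cube.cubeEl]
    rw [this]
    exact (Pos.one.add (Pos.single _ zero_le_one)).mul ih

/-- The cube elements generate the unit ideal. -/
theorem span_cube_top (vs : List ℂ) :
    Ideal.span {r : GA | ∃ w : ℂ, ‖w‖ = 1 ∧ r = cubeEl vs w} = ⊤ := by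
  by_contra hne
  obtain ⟨M, hM, hle⟩ := Ideal.exists_le_maximal _ hne
  letI : Field (GA ⧸ M) := Ideal.Quotient.field M
  have h2 : (2 : GA ⧸ M) ≠ 0 := by
    intro h
    have : (algebraMap ℝ (GA ⧸ M)) 2 = 0 := by rw [map_ofNat]; exact h
    rw [map_eq_zero] at this
    norm_num at this
  refine no_char_cube h2 (fun x => Ideal.Quotient.mk M (AddMonoidAlgebra.single x 1)) ?_ ?_ vs ?_
  · change Ideal.Quotient.mk M (AddMonoidAlgebra.single 0 1) = 1
    rw [← AddMonoidAlgebra.one_def, map_one]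
  · intro x y
    change Ideal.Quotient.mk M (AddMonoidAlgebra.single (x + y) 1) = _
    rw [← map_mul, AddMonoidAlgebra.single_mul_single, one_mul]
  · intro w hw
    have : cubeEl vs w ∈ M := hle (Ideal.subset_span ⟨w, hw, rfl⟩)
    have h3 := (Ideal.Quotient.eq_zero_iff_mem).2 this
    rw [cubeEl, map_list_prod, List.map_map, List.prod_eq_zero_iff, List.mem_map] at h3
    obtain ⟨v, hv, h4⟩ := h3
    refine ⟨v, hv, ?_⟩
    simp only [Function.comp_apply, map_add, map_one] at h4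
    change Ideal.Quotient.mk M (AddMonoidAlgebra.single (v * w) 1) = -1
    linear_combination h4

end Run7.h133.Cube
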