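import Mathlib
import Pool.Agent.Run7.h133.CubeA

/-!
From cube inequalities to sparsity, and the geometric part in the complex plane.
-/

namespace Run7.h133.Cube

open Complex Run7.h133.RightTri

open Classical in
/-- The `±1` function of a set. -/
noncomputable def sgn (D : Set ℂ) (x : ℂ) : ℝ := if x ∈ D then 1 else -1

lemma sgn_mem {D : Set ℂ} {x : ℂ} (h : x ∈ D) : sgn D x = 1 := by simp [sgn, h]
lemma sgn_not {D : Set ℂ} {x : ℂ} (h : x ∉ D) : sgn D x = -1 := by simp [sgn, h]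

lemma sgn_cases (D : Set ℂ) (x : ℂ) : (x ∈ D ∧ sgn D x = 1) ∨ (x ∉ D ∧ sgn D x = -1) := by
  by_cases h : x ∈ D
  · exact Or.inl ⟨h, sgn_mem h⟩
  · exact Or.inr ⟨h, sgn_not h⟩

lemma sgn_abs (D : Set ℂ) (x : ℂ) : |sgn D x| = 1 := by
  rcases sgn_cases D x with ⟨_, h⟩ | ⟨_, h⟩ <;> simp [h]

lemma sgn_compl (D : Set ℂ) : sgn Dᶜ = - sgn D := by
  funext x
  rcases sgn_cases D x with ⟨h1, h⟩ | ⟨h1, h⟩
  · rw [Pi.neg_apply, h, sgn_not (by simpa using h1)]
  · rw [Pi.neg_apply, h, sgn_mem (by simpa using h1)]; norm_num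

/-- `D` is sparse: some positive combination of translates of its `±1` function is at most `-1`. -/
def Sparse (D : Set ℂ) : Prop := ∃ P : GA, Pos P ∧ ∀ x, act P (sgn D) x ≤ -1

lemma Pos.mono {P : GA} (hP : Pos P) {f g : ℂ → ℝ} (h : ∀ x, f x ≤ g x) (x : ℂ) :
    act P f x ≤ act P g x := by
  have h1 := hP (g - f) (fun y => by simpa using h y) x
  rw [map_sub, Pi.sub_apply] at h1
  linarith

/-- A set and its complement are not both sparse. -/
theorem not_sparse_compl {D : Set ℂ} (h1 : Sparse D) (h2 : Sparse Dᶜ) : False := by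
  obtain ⟨P, hP, h1⟩ := h1
  obtain ⟨Q, hQ, h2⟩ := h2
  rw [sgn_compl] at h2
  have h2' : ∀ x, 1 ≤ act Q (sgn D) x := by
    intro x
    have := h2 x
    rw [map_neg, Pi.neg_apply] at this
    linarith
  -- compare
  have hle : ∀ x, sgn D x ≤ 1 := fun x => (le_abs_self _).trans (sgn_abs D x).le
  have hge : ∀ x, -1 ≤ sgn D x := fun x => by
    have := neg_abs_le (sgn D x); rw [sgn_abs] at this; exact this
  have a1 : act Q (act P (sgn D)) 0 ≤ act Q (fun _ => (-1 : ℝ)) 0 := Pos.mono hQ (fun x => h1 x) 0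
  have a2 : act P (fun _ => (1 : ℝ)) 0 ≤ act P (act Q (sgn D)) 0 := Pos.mono hP (fun x => h2' x) 0
  have a3 : act Q (fun _ => (-1 : ℝ)) 0 ≤ -1 := by
    have e : (fun _ : ℂ => (-1 : ℝ)) = -(fun _ : ℂ => (1 : ℝ)) := rfl
    have b1 : act Q (sgn D) 0 ≤ act Q (fun _ => (1 : ℝ)) 0 := Pos.mono hQ hle 0
    rw [e, map_neg, Pi.neg_apply]
    linarith [h2' 0]
  have a4 : 0 ≤ act P (fun _ => (1 : ℝ)) 0 := hP _ (fun _ => zero_le_one) 0
  rw [act_comm] at a1
  linarith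

/-- Cube inequalities imply sparsity. -/
theorem sparse_of_cube (vs : List ℂ) (D : Set ℂ)
    (hr : ∀ w : ℂ, ‖w‖ = 1 → ∀ x, act (cubeEl vs w) (sgn D) x ≤ 0) : Sparse D := by
  have key : ∀ r ∈ Ideal.span {r : GA | ∃ w : ℂ, ‖w‖ = 1 ∧ r = cubeEl vs w},
      ∃ P : GA, Pos P ∧ ∀ x, |act r (sgn D) x| ≤ - act P (sgn D) x := by
    intro r hrm
    induction hrm using Submodule.span_induction with
    | mem r hr' =>
      obtain ⟨u, hu, rfl⟩ := hr'
      refine ⟨cubeEl vs u, Pos.cubeEl vs u, fun x => ?_⟩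
      rw [abs_of_nonpos (hr u hu x)]
    | zero => exact ⟨0, Pos.zero, fun x => by simp⟩
    | add r s _ _ h1 h2 =>
      obtain ⟨P, hP, h1⟩ := h1
      obtain ⟨Q, hQ, h2⟩ := h2
      refine ⟨P + Q, hP.add hQ, fun x => ?_⟩
      rw [map_add, map_add, LinearMap.add_apply, LinearMap.add_apply, Pi.add_apply, Pi.add_apply]
      have := abs_add_le (act r (sgn D) x) (act s (sgn D) x)
      linarith [h1 x, h2 x]
    | smul c r _ h1 =>
      obtain ⟨P, hP, h1⟩ := h1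
      obtain ⟨C, hC, h2⟩ := exists_abs c
      refine ⟨C * P, hC.mul hP, fun x => ?_⟩
      rw [smul_eq_mul, act_mul, act_mul]
      refine (h2 _ x).trans ?_
      have h3 := hC (fun y => - act P (sgn D) y - |act r (sgn D) y|) (fun y => by linarith [h1 y]) x
      have h4 : (fun y => - act P (sgn D) y - |act r (sgn D) y|) =
        -(act P (sgn D)) - (fun y => |act r (sgn D) y|) := rfl
      rw [h4, map_sub, map_neg, Pi.sub_apply, Pi.neg_apply] at h3
      linarith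
  obtain ⟨P, hP, h1⟩ := key 1 (by rw [span_cube_top vs]; trivial)
  refine ⟨P, hP, fun x => ?_⟩
  have := h1 x
  rw [act_one, sgn_abs] at this
  linarith

/-- `D` misses the triangle with sides `l1 l2 l3`. -/
def Miss (D : Set ℂ) (l1 l2 l3 : ℝ) : Prop :=
  ∀ x y z : ℂ, ‖y - x‖ = l1 → ‖z - x‖ = l2 → ‖z - y‖ = l3 → x ∈ D → y ∈ D → z ∉ D

lemma act_cube4 (v1 v2 v3 v4 w : ℂ) (f : ℂ → ℝ) (x : ℂ) :
    act (cubeEl [v1, v2, v3, v4] w) f x =
      (f x + f (x + v4 * w) + f (x + v3 * w) + f (x + v3 * w + v4 * w)) +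
      (f (x + v2 * w) + f (x + v2 * w + v4 * w) + f (x + v2 * w + v3 * w)
        + f (x + v2 * w + v3 * w + v4 * w)) +
      (f (x + v1 * w) + f (x + v1 * w + v4 * w) + f (x + v1 * w + v3 * w)
        + f (x + v1 * w + v3 * w + v4 * w)) +
      (f (x + v1 * w + v2 * w) + f (x + v1 * w + v2 * w + v4 * w)
        + f (x + v1 * w + v2 * w + v3 * w)
        + f (x + v1 * w + v2 * w + v3 * w + v4 * w)) := by
  simp only [cubeEl, List.map_cons, List.map_nil, List.prod_cons, List.prod_nil, mul_one,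
    act_mul, map_add, LinearMap.add_apply, Pi.add_apply, act_single, one_mul, map_one,
    Module.End.one_apply]
  ring

/-- The four-cycle of implications. -/
lemma four_cycle (D : Set ℂ) (α β η θ : ℂ)
    (hA1 : ∀ w : ℂ, ‖w‖ = 1 → ∀ c : ℂ, c + α * w ∈ D → c - α * w ∈ D → c + η * w + β * w ∉ D)
    (hA2 : ∀ w : ℂ, ‖w‖ = 1 → ∀ c : ℂ, c + α * w ∈ D → c - α * w ∈ D → c + η * w - β * w ∉ D)
    (hB1 : ∀ w : ℂ, ‖w‖ = 1 → ∀ c : ℂ, c + β * w ∈ D → c - β * w ∈ D → c + θ * w + α * w ∉ D)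
    (hB2 : ∀ w : ℂ, ‖w‖ = 1 → ∀ c : ℂ, c + β * w ∈ D → c - β * w ∈ D → c + θ * w - α * w ∉ D)
    (w : ℂ) (hw : ‖w‖ = 1) (c : ℂ) :
    sgn D (c + α * w) + sgn D (c - α * w)
      + sgn D (c + η * w + β * w) + sgn D (c + η * w - β * w)
      + sgn D (c + η * w + θ * w + α * w) + sgn D (c + η * w + θ * w - α * w)
      + sgn D (c + θ * w + β * w) + sgn D (c + θ * w - β * w) ≤ 0 := by
  have hw' : ‖-w‖ = 1 := by rw [norm_neg]; exact hw
  have p1 := hA1 w hw c
  have p2 := hA2 w hw c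
  have p3 := hB1 w hw (c + η * w)
  have p4 := hB2 w hw (c + η * w)
  have p5 := hA1 (-w) hw' (c + η * w + θ * w)
  have p6 := hA2 (-w) hw' (c + η * w + θ * w)
  have p7 := hB1 (-w) hw' (c + θ * w)
  have p8 := hB2 (-w) hw' (c + θ * w)
  have e5 : c + η * w + θ * w + α * -w = c + η * w + θ * w - α * w := by ring
  have e5' : c + η * w + θ * w - α * -w = c + η * w + θ * w + α * w := by ring
  have e5'' : c + η * w + θ * w + η * -w + β * -w = c + θ * w - β * w := by ring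
  have e6'' : c + η * w + θ * w + η * -w - β * -w = c + θ * w + β * w := by ring
  have e7 : c + θ * w + β * -w = c + θ * w - β * w := by ring
  have e7' : c + θ * w - β * -w = c + θ * w + β * w := by ring
  have e7'' : c + θ * w + θ * -w + α * -w = c - α * w := by ring
  have e8'' : c + θ * w + θ * -w - α * -w = c + α * w := by ring
  rw [e5, e5', e5''] at p5
  rw [e5, e5', e6''] at p6
  rw [e7, e7', e7''] at p7
  rw [e7, e7', e8''] at p8
  rcases sgn_cases D (c + α * w) with ⟨m1, h1⟩ | ⟨m1, h1⟩ <;>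
  rcases sgn_cases D (c - α * w) with ⟨m2, h2⟩ | ⟨m2, h2⟩ <;>
  rcases sgn_cases D (c + η * w + β * w) with ⟨m3, h3⟩ | ⟨m3, h3⟩ <;>
  rcases sgn_cases D (c + η * w - β * w) with ⟨m4, h4⟩ | ⟨m4, h4⟩ <;>
  rcases sgn_cases D (c + η * w + θ * w + α * w) with ⟨m5, h5⟩ | ⟨m5, h5⟩ <;>
  rcases sgn_cases D (c + η * w + θ * w - α * w) with ⟨m6, h6⟩ | ⟨m6, h6⟩ <;>
  rcases sgn_cases D (c + θ * w + β * w) with ⟨m7, h7⟩ | ⟨m7, h7⟩ <;>
  rcases sgn_cases D (c + θ * w - β * w) with ⟨m8, h8⟩ | ⟨m8, h8⟩ <;>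
  first
  | (rw [h1, h2, h3, h4, h5, h6, h7, h8]; norm_num; done)
  | (exact absurd m3 (p1 m1 m2))
  | (exact absurd m4 (p2 m1 m2))
  | (exact absurd m5 (p3 m3 m4))
  | (exact absurd m6 (p4 m3 m4))
  | (exact absurd m8 (p5 m6 m5))
  | (exact absurd m7 (p6 m6 m5))
  | (exact absurd m2 (p7 m8 m7))
  | (exact absurd m1 (p8 m8 m7))

end Run7.h133.Cube
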