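import Mathlib
import Pool.Agent.Run7.h133.CubeB

/-!
Sparsity of the sets missing a triangle of one of the three families.
-/

namespace Run7.h133.Cube

open Complex Run7.h133.RightTri

lemma norm_mul_unit {z w : ℂ} {l : ℝ} (hw : ‖w‖ = 1) (hl : 0 ≤ l) (h : normSq z = l ^ 2) :
    ‖z * w‖ = l := by
  rw [norm_mul, hw, mul_one]
  rw [Complex.normSq_eq_norm_sq] at h
  exact (pow_left_inj₀ (norm_nonneg z) hl two_ne_zero).1 h

/-- Data of four-cycle type implies sparsity. -/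
theorem sparse_of_data (D : Set ℂ) (α β η θ : ℂ)
    (hA1 : ∀ w : ℂ, ‖w‖ = 1 → ∀ c : ℂ, c + α * w ∈ D → c - α * w ∈ D → c + η * w + β * w ∉ D)
    (hA2 : ∀ w : ℂ, ‖w‖ = 1 → ∀ c : ℂ, c + α * w ∈ D → c - α * w ∈ D → c + η * w - β * w ∉ D)
    (hB1 : ∀ w : ℂ, ‖w‖ = 1 → ∀ c : ℂ, c + β * w ∈ D → c - β * w ∈ D → c + θ * w + α * w ∉ D)
    (hB2 : ∀ w : ℂ, ‖w‖ = 1 → ∀ c : ℂ, c + β * w ∈ D → c - β * w ∈ D → c + θ * w - α * w ∉ D) :
    Sparse D := by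
  apply sparse_of_cube [η, θ, α + β, α - β] D
  intro w hw x
  have hw' : ‖-w‖ = 1 := by rw [norm_neg]; exact hw
  have k1 := four_cycle D α β η θ hA1 hA2 hB1 hB2 w hw (x + α * w)
  have hB1' : ∀ w : ℂ, ‖w‖ = 1 → ∀ c : ℂ, c + β * w ∈ D → c - β * w ∈ D →
      c + (-θ) * w + α * w ∉ D := by
    intro w hw c g1 g2
    have hw' : ‖-w‖ = 1 := by rw [norm_neg]; exact hw
    have := hB2 (-w) hw' c (by rw [show c + β * -w = c - β * w by ring]; exact g2)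
      (by rw [show c - β * -w = c + β * w by ring]; exact g1)
    rw [show c + θ * -w - α * -w = c + (-θ) * w + α * w by ring] at this
    exact this
  have hB2' : ∀ w : ℂ, ‖w‖ = 1 → ∀ c : ℂ, c + β * w ∈ D → c - β * w ∈ D →
      c + (-θ) * w - α * w ∉ D := by
    intro w hw c g1 g2
    have hw' : ‖-w‖ = 1 := by rw [norm_neg]; exact hw
    have := hB1 (-w) hw' c (by rw [show c + β * -w = c - β * w by ring]; exact g2)
      (by rw [show c - β * -w = c + β * w by ring]; exact g1)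
    rw [show c + θ * -w + α * -w = c + (-θ) * w - α * w by ring] at this
    exact this
  have k2 := four_cycle D α β η (-θ) hA1 hA2 hB1' hB2' w hw (x + α * w + θ * w)
  rw [act_cube4]
  have s1 : x + α * w + α * w = x + (α + β) * w + (α - β) * w := by ring
  have s2 : x + α * w - α * w = x := by ring
  have s3 : x + α * w + η * w + β * w = x + η * w + (α + β) * w := by ring
  have s4 : x + α * w + η * w - β * w = x + η * w + (α - β) * w := by ring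
  have s5 : x + α * w + η * w + θ * w + α * w = x + η * w + θ * w + (α + β) * w + (α - β) * w := by
    ring
  have s6 : x + α * w + η * w + θ * w - α * w = x + η * w + θ * w := by ring
  have s7 : x + α * w + θ * w + β * w = x + θ * w + (α + β) * w := by ring
  have s8 : x + α * w + θ * w - β * w = x + θ * w + (α - β) * w := by ring
  rw [s1, s2, s3, s4, s5, s6, s7, s8] at k1
  have t1 : x + α * w + θ * w + α * w = x + θ * w + (α + β) * w + (α - β) * w := by ring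
  have t2 : x + α * w + θ * w - α * w = x + θ * w := by ring
  have t3 : x + α * w + θ * w + η * w + β * w = x + η * w + θ * w + (α + β) * w := by ring
  have t4 : x + α * w + θ * w + η * w - β * w = x + η * w + θ * w + (α - β) * w := by ring
  have t5 : x + α * w + θ * w + η * w + -θ * w + α * w = x + η * w + (α + β) * w + (α - β) * w := by
    ring
  have t6 : x + α * w + θ * w + η * w + -θ * w - α * w = x + η * w := by ring
  have t7 : x + α * w + θ * w + -θ * w + β * w = x + (α + β) * w := by ring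
  have t8 : x + α * w + θ * w + -θ * w - β * w = x + (α - β) * w := by ring
  rw [t1, t2, t3, t4, t5, t6, t7, t8] at k2
  linarith

/-- Family (iii): the height on a side equals half of that side. -/
theorem sparse_height (D : Set ℂ) (a t l2 l3 : ℝ) (ha : 0 ≤ a) (h2 : 0 ≤ l2) (h3 : 0 ≤ l3)
    (e2 : l2 ^ 2 = (t + a / 2) ^ 2 + (a / 2) ^ 2) (e3 : l3 ^ 2 = (t - a / 2) ^ 2 + (a / 2) ^ 2)
    (hM : Miss D a l2 l3) : Sparse D := by
  apply sparse_of_data D ((a / 2 : ℝ) : ℂ) ⟨0, a / 2⟩ (t : ℂ) ⟨0, t⟩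
  · intro w hw c g1 g2
    refine hM (c - ((a / 2 : ℝ) : ℂ) * w) (c + ((a / 2 : ℝ) : ℂ) * w) _ ?_ ?_ ?_ g2 g1
    · rw [show c + ((a / 2 : ℝ) : ℂ) * w - (c - ((a / 2 : ℝ) : ℂ) * w) =
        (2 * ((a / 2 : ℝ) : ℂ)) * w by ring]
      apply norm_mul_unit hw ha
      simp [normSq_apply]; ring
    · rw [show c + (t : ℂ) * w + ⟨0, a / 2⟩ * w - (c - ((a / 2 : ℝ) : ℂ) * w) =
        ((t : ℂ) + ⟨0, a / 2⟩ + ((a / 2 : ℝ) : ℂ)) * w by ring]
      apply norm_mul_unit hw h2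
      rw [e2]; simp [normSq_apply]; ring
    · rw [show c + (t : ℂ) * w + ⟨0, a / 2⟩ * w - (c + ((a / 2 : ℝ) : ℂ) * w) =
        ((t : ℂ) + ⟨0, a / 2⟩ - ((a / 2 : ℝ) : ℂ)) * w by ring]
      apply norm_mul_unit hw h3
      rw [e3]; simp [normSq_apply]; ring
  · intro w hw c g1 g2
    refine hM (c - ((a / 2 : ℝ) : ℂ) * w) (c + ((a / 2 : ℝ) : ℂ) * w) _ ?_ ?_ ?_ g2 g1
    · rw [show c + ((a / 2 : ℝ) : ℂ) * w - (c - ((a / 2 : ℝ) : ℂ) * w) =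
        (2 * ((a / 2 : ℝ) : ℂ)) * w by ring]
      apply norm_mul_unit hw ha
      simp [normSq_apply]; ring
    · rw [show c + (t : ℂ) * w - ⟨0, a / 2⟩ * w - (c - ((a / 2 : ℝ) : ℂ) * w) =
        ((t : ℂ) - ⟨0, a / 2⟩ + ((a / 2 : ℝ) : ℂ)) * w by ring]
      apply norm_mul_unit hw h2
      rw [e2]; simp [normSq_apply]; ring
    · rw [show c + (t : ℂ) * w - ⟨0, a / 2⟩ * w - (c + ((a / 2 : ℝ) : ℂ) * w) =
        ((t : ℂ) - ⟨0, a / 2⟩ - ((a / 2 : ℝ) : ℂ)) * w by ring]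
      apply norm_mul_unit hw h3
      rw [e3]; simp [normSq_apply]; ring
  · intro w hw c g1 g2
    refine hM (c - (⟨0, a / 2⟩ : ℂ) * w) (c + (⟨0, a / 2⟩ : ℂ) * w) _ ?_ ?_ ?_ g2 g1
    · rw [show c + (⟨0, a / 2⟩ : ℂ) * w - (c - (⟨0, a / 2⟩ : ℂ) * w) =
        (2 * (⟨0, a / 2⟩ : ℂ)) * w by ring]
      apply norm_mul_unit hw ha
      simp [normSq_apply]; ring
    · rw [show c + (⟨0, t⟩ : ℂ) * w + ((a / 2 : ℝ) : ℂ) * w - (c - (⟨0, a / 2⟩ : ℂ) * w) =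
        ((⟨0, t⟩ : ℂ) + ((a / 2 : ℝ) : ℂ) + ⟨0, a / 2⟩) * w by ring]
      apply norm_mul_unit hw h2
      rw [e2]; simp [normSq_apply]; ring
    · rw [show c + (⟨0, t⟩ : ℂ) * w + ((a / 2 : ℝ) : ℂ) * w - (c + (⟨0, a / 2⟩ : ℂ) * w) =
        ((⟨0, t⟩ : ℂ) + ((a / 2 : ℝ) : ℂ) - ⟨0, a / 2⟩) * w by ring]
      apply norm_mul_unit hw h3
      rw [e3]; simp [normSq_apply]; ring
  · intro w hw c g1 g2
    refine hM (c - (⟨0, a / 2⟩ : ℂ) * w) (c + (⟨0, a / 2⟩ : ℂ) * w) _ ?_ ?_ ?_ g2 g1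
    · rw [show c + (⟨0, a / 2⟩ : ℂ) * w - (c - (⟨0, a / 2⟩ : ℂ) * w) =
        (2 * (⟨0, a / 2⟩ : ℂ)) * w by ring]
      apply norm_mul_unit hw ha
      simp [normSq_apply]; ring
    · rw [show c + (⟨0, t⟩ : ℂ) * w - ((a / 2 : ℝ) : ℂ) * w - (c - (⟨0, a / 2⟩ : ℂ) * w) =
        ((⟨0, t⟩ : ℂ) - ((a / 2 : ℝ) : ℂ) + ⟨0, a / 2⟩) * w by ring]
      apply norm_mul_unit hw h2
      rw [e2]; simp [normSq_apply]; ring
    · rw [show c + (⟨0, t⟩ : ℂ) * w - ((a / 2 : ℝ) : ℂ) * w - (c + (⟨0, a / 2⟩ : ℂ) * w) =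
        ((⟨0, t⟩ : ℂ) - ((a / 2 : ℝ) : ℂ) - ⟨0, a / 2⟩) * w by ring]
      apply norm_mul_unit hw h3
      rw [e3]; simp [normSq_apply]; ring

/-- Family (ii): the sides `a`, `b` enclose an angle with cosine `k`, `k ^ 2 = 3 / 4`. -/
theorem sparse_thirty (D : Set ℂ) (a b k l3 : ℝ) (ha : 0 ≤ a) (hb : 0 ≤ b) (h3 : 0 ≤ l3)
    (hk : k ^ 2 = 3 / 4) (e3 : l3 ^ 2 = a ^ 2 + b ^ 2 - 2 * a * b * k)
    (hM : Miss D a b l3) : Sparse D := by
  apply sparse_of_data D ((a / 2 : ℝ) : ℂ) ⟨0, b / 2⟩ ((-a / 2 + b * k : ℝ) : ℂ)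
    ⟨0, -b / 2 + a * k⟩
  · intro w hw c g1 g2
    refine hM (c - ((a / 2 : ℝ) : ℂ) * w) (c + ((a / 2 : ℝ) : ℂ) * w) _ ?_ ?_ ?_ g2 g1
    · rw [show c + ((a / 2 : ℝ) : ℂ) * w - (c - ((a / 2 : ℝ) : ℂ) * w) =
        (2 * ((a / 2 : ℝ) : ℂ)) * w by ring]
      apply norm_mul_unit hw ha
      simp [normSq_apply]; ring
    · rw [show c + ((-a / 2 + b * k : ℝ) : ℂ) * w + ⟨0, b / 2⟩ * w - (c - ((a / 2 : ℝ) : ℂ) * w) =
        (((-a / 2 + b * k : ℝ) : ℂ) + ⟨0, b / 2⟩ + ((a / 2 : ℝ) : ℂ)) * w by ring]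
      apply norm_mul_unit hw hb
      simp [normSq_apply]; linear_combination b ^ 2 * hk
    · rw [show c + ((-a / 2 + b * k : ℝ) : ℂ) * w + ⟨0, b / 2⟩ * w - (c + ((a / 2 : ℝ) : ℂ) * w) =
        (((-a / 2 + b * k : ℝ) : ℂ) + ⟨0, b / 2⟩ - ((a / 2 : ℝ) : ℂ)) * w by ring]
      apply norm_mul_unit hw h3
      rw [e3]; simp [normSq_apply]; linear_combination b ^ 2 * hk
  · intro w hw c g1 g2
    refine hM (c - ((a / 2 : ℝ) : ℂ) * w) (c + ((a / 2 : ℝ) : ℂ) * w) _ ?_ ?_ ?_ g2 g1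
    · rw [show c + ((a / 2 : ℝ) : ℂ) * w - (c - ((a / 2 : ℝ) : ℂ) * w) =
        (2 * ((a / 2 : ℝ) : ℂ)) * w by ring]
      apply norm_mul_unit hw ha
      simp [normSq_apply]; ring
    · rw [show c + ((-a / 2 + b * k : ℝ) : ℂ) * w - ⟨0, b / 2⟩ * w - (c - ((a / 2 : ℝ) : ℂ) * w) =
        (((-a / 2 + b * k : ℝ) : ℂ) - ⟨0, b / 2⟩ + ((a / 2 : ℝ) : ℂ)) * w by ring]
      apply norm_mul_unit hw hb
      simp [normSq_apply]; linear_combination b ^ 2 * hk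
    · rw [show c + ((-a / 2 + b * k : ℝ) : ℂ) * w - ⟨0, b / 2⟩ * w - (c + ((a / 2 : ℝ) : ℂ) * w) =
        (((-a / 2 + b * k : ℝ) : ℂ) - ⟨0, b / 2⟩ - ((a / 2 : ℝ) : ℂ)) * w by ring]
      apply norm_mul_unit hw h3
      rw [e3]; simp [normSq_apply]; linear_combination b ^ 2 * hk
  · intro w hw c g1 g2 g3
    refine hM (c - (⟨0, b / 2⟩ : ℂ) * w)
      (c + (⟨0, -b / 2 + a * k⟩ : ℂ) * w + ((a / 2 : ℝ) : ℂ) * w) (c + (⟨0, b / 2⟩ : ℂ) * w)
      ?_ ?_ ?_ g2 g3 g1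
    · rw [show c + (⟨0, -b / 2 + a * k⟩ : ℂ) * w + ((a / 2 : ℝ) : ℂ) * w
          - (c - (⟨0, b / 2⟩ : ℂ) * w) =
        ((⟨0, -b / 2 + a * k⟩ : ℂ) + ((a / 2 : ℝ) : ℂ) + ⟨0, b / 2⟩) * w by ring]
      apply norm_mul_unit hw ha
      simp [normSq_apply]; linear_combination a ^ 2 * hk
    · rw [show c + (⟨0, b / 2⟩ : ℂ) * w - (c - (⟨0, b / 2⟩ : ℂ) * w) =
        (2 * (⟨0, b / 2⟩ : ℂ)) * w by ring]
      apply norm_mul_unit hw hb
      simp [normSq_apply]; ring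
    · rw [show c + (⟨0, b / 2⟩ : ℂ) * w -
          (c + (⟨0, -b / 2 + a * k⟩ : ℂ) * w + ((a / 2 : ℝ) : ℂ) * w) =
        ((⟨0, b / 2⟩ : ℂ) - (⟨0, -b / 2 + a * k⟩ : ℂ) - ((a / 2 : ℝ) : ℂ)) * w by ring]
      apply norm_mul_unit hw h3
      rw [e3]; simp [normSq_apply]; linear_combination a ^ 2 * hk
  · intro w hw c g1 g2 g3
    refine hM (c - (⟨0, b / 2⟩ : ℂ) * w)
      (c + (⟨0, -b / 2 + a * k⟩ : ℂ) * w - ((a / 2 : ℝ) : ℂ) * w) (c + (⟨0, b / 2⟩ : ℂ) * w)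
      ?_ ?_ ?_ g2 g3 g1
    · rw [show c + (⟨0, -b / 2 + a * k⟩ : ℂ) * w - ((a / 2 : ℝ) : ℂ) * w
          - (c - (⟨0, b / 2⟩ : ℂ) * w) =
        ((⟨0, -b / 2 + a * k⟩ : ℂ) - ((a / 2 : ℝ) : ℂ) + ⟨0, b / 2⟩) * w by ring]
      apply norm_mul_unit hw ha
      simp [normSq_apply]; linear_combination a ^ 2 * hk
    · rw [show c + (⟨0, b / 2⟩ : ℂ) * w - (c - (⟨0, b / 2⟩ : ℂ) * w) =
        (2 * (⟨0, b / 2⟩ : ℂ)) * w by ring]
      apply norm_mul_unit hw hb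
      simp [normSq_apply]; ring
    · rw [show c + (⟨0, b / 2⟩ : ℂ) * w -
          (c + (⟨0, -b / 2 + a * k⟩ : ℂ) * w - ((a / 2 : ℝ) : ℂ) * w) =
        ((⟨0, b / 2⟩ : ℂ) - (⟨0, -b / 2 + a * k⟩ : ℂ) + ((a / 2 : ℝ) : ℂ)) * w by ring]
      apply norm_mul_unit hw h3
      rw [e3]; simp [normSq_apply]; linear_combination a ^ 2 * hk

lemma act_cube2 (v1 v2 w : ℂ) (f : ℂ → ℝ) (x : ℂ) :
    act (cubeEl [v1, v2] w) f x =
      f x + f (x + v2 * w) + f (x + v1 * w) + f (x + v1 * w + v2 * w) := by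
  simp only [cubeEl, List.map_cons, List.map_nil, List.prod_cons, List.prod_nil, mul_one,
    act_mul, map_add, LinearMap.add_apply, Pi.add_apply, act_single, one_mul, map_one,
    Module.End.one_apply]
  ring

/-- Family (i): right triangles with legs `a`, `b`. -/
theorem sparse_right (D : Set ℂ) (a b l3 : ℝ) (ha : 0 ≤ a) (hb : 0 ≤ b) (h3 : 0 ≤ l3)
    (e3 : l3 ^ 2 = a ^ 2 + b ^ 2) (hM : Miss D a b l3) : Sparse D := by
  apply sparse_of_cube [(a : ℂ), ⟨0, b⟩] D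
  intro w hw x
  rw [act_cube2]
  have na : ‖(a : ℂ) * w‖ = a := by
    apply norm_mul_unit hw ha
    simp [normSq_apply]; ring
  have nb : ‖(⟨0, b⟩ : ℂ) * w‖ = b := by
    apply norm_mul_unit hw hb
    simp [normSq_apply]; ring
  have n3 : ‖((a : ℂ) + ⟨0, b⟩) * w‖ = l3 := by
    apply norm_mul_unit hw h3
    rw [e3]; simp [normSq_apply]; ring
  have n3' : ‖((a : ℂ) - ⟨0, b⟩) * w‖ = l3 := by
    apply norm_mul_unit hw h3
    rw [e3]; simp [normSq_apply]; ring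
  have na' : ‖-((a : ℂ) * w)‖ = a := by rw [norm_neg]; exact na
  have nb' : ‖-((⟨0, b⟩ : ℂ) * w)‖ = b := by rw [norm_neg]; exact nb
  have n4 : ‖-(((a : ℂ) + ⟨0, b⟩) * w)‖ = l3 := by rw [norm_neg]; exact n3
  have n4' : ‖-(((a : ℂ) - ⟨0, b⟩) * w)‖ = l3 := by rw [norm_neg]; exact n3'
  have q1 : x ∈ D → x + a * w ∈ D → x + ⟨0, b⟩ * w ∉ D := by
    refine hM _ _ _ ?_ ?_ ?_
    · rw [show x + a * w - x = a * w by ring]; exact na
    · rw [show x + (⟨0, b⟩ : ℂ) * w - x = ⟨0, b⟩ * w by ring]; exact nb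
    · rw [show x + (⟨0, b⟩ : ℂ) * w - (x + a * w) = -((a - ⟨0, b⟩) * w) by ring]; exact n4'
  have q2 : x + a * w ∈ D → x ∈ D → x + a * w + ⟨0, b⟩ * w ∉ D := by
    refine hM _ _ _ ?_ ?_ ?_
    · rw [show x - (x + a * w) = -(a * w) by ring]; exact na'
    · rw [show x + a * w + (⟨0, b⟩ : ℂ) * w - (x + a * w) = ⟨0, b⟩ * w by ring]; exact nb
    · rw [show x + a * w + (⟨0, b⟩ : ℂ) * w - x = (a + ⟨0, b⟩) * w by ring]; exact n3
  have q3 : x + ⟨0, b⟩ * w ∈ D → x + a * w + ⟨0, b⟩ * w ∈ D → x ∉ D := by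
    refine hM _ _ _ ?_ ?_ ?_
    · rw [show x + a * w + (⟨0, b⟩ : ℂ) * w - (x + ⟨0, b⟩ * w) = a * w by ring]; exact na
    · rw [show x - (x + (⟨0, b⟩ : ℂ) * w) = -(⟨0, b⟩ * w) by ring]; exact nb'
    · rw [show x - (x + a * w + (⟨0, b⟩ : ℂ) * w) = -((a + ⟨0, b⟩) * w) by ring]; exact n4
  have q4 : x + a * w + ⟨0, b⟩ * w ∈ D → x + ⟨0, b⟩ * w ∈ D → x + a * w ∉ D := by
    refine hM _ _ _ ?_ ?_ ?_
    · rw [show x + (⟨0, b⟩ : ℂ) * w - (x + a * w + ⟨0, b⟩ * w) = -(a * w) by ring]; exact na'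
    · rw [show x + a * w - (x + a * w + (⟨0, b⟩ : ℂ) * w) = -(⟨0, b⟩ * w) by ring]; exact nb'
    · rw [show x + a * w - (x + (⟨0, b⟩ : ℂ) * w) = (a - ⟨0, b⟩) * w by ring]; exact n3'
  rcases sgn_cases D x with ⟨m1, h1⟩ | ⟨m1, h1⟩ <;>
  rcases sgn_cases D (x + a * w) with ⟨m2, h2⟩ | ⟨m2, h2⟩ <;>
  rcases sgn_cases D (x + ⟨0, b⟩ * w) with ⟨m3, h3⟩ | ⟨m3, h3⟩ <;>
  rcases sgn_cases D (x + a * w + ⟨0, b⟩ * w) with ⟨m4, h4⟩ | ⟨m4, h4⟩ <;>
  first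
  | (rw [h1, h2, h3, h4]; norm_num; done)
  | (exact absurd m3 (q1 m1 m2))
  | (exact absurd m4 (q2 m2 m1))
  | (exact absurd m1 (q3 m3 m4))
  | (exact absurd m2 (q4 m4 m3))

/-- SSS in the complex plane. -/
lemma exists_isometry (p q r P Q R : ℂ) (hpq : q ≠ p) (h1 : ‖Q - P‖ = ‖q - p‖)
    (h2 : ‖R - P‖ = ‖r - p‖) (h3 : ‖R - Q‖ = ‖r - q‖) :
    ∃ ψ : ℂ ≃ᵢ ℂ, ψ p = P ∧ ψ q = Q ∧ ψ r = R := by
  have hd : q - p ≠ 0 := sub_ne_zero.2 hpq
  have hD : Q - P ≠ 0 := by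
    rw [← norm_ne_zero_iff, h1, norm_ne_zero_iff]; exact hd
  have hdn : ‖q - p‖ ≠ 0 := norm_ne_zero_iff.2 hd
  set ρ : ℂ := (r - p) / (q - p) with hρ
  set σ : ℂ := (R - P) / (Q - P) with hσ
  have n1 : ‖σ‖ = ‖ρ‖ := by rw [hρ, hσ, norm_div, norm_div, h1, h2]
  have n2 : ‖σ - 1‖ = ‖ρ - 1‖ := by
    have e1 : σ - 1 = (R - Q) / (Q - P) := by rw [hσ]; field_simp; ring
    have e2 : ρ - 1 = (r - q) / (q - p) := by rw [hρ]; field_simp; ring
    rw [e1, e2, norm_div, norm_div, h1, h3]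
  have m1 : normSq σ = normSq ρ := by rw [normSq_eq_norm_sq, normSq_eq_norm_sq, n1]
  have m2 : normSq (σ - 1) = normSq (ρ - 1) := by rw [normSq_eq_norm_sq, normSq_eq_norm_sq, n2]
  rw [normSq_apply, normSq_apply] at m1 m2
  simp only [sub_re, one_re, sub_im, one_im] at m2
  have hre : σ.re = ρ.re := by linarith
  have him : σ.im = ρ.im ∨ σ.im = -ρ.im := by
    rw [hre] at m1
    have : σ.im ^ 2 = ρ.im ^ 2 := by linarith
    exact sq_eq_sq_iff_eq_or_eq_neg.1 this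
  rcases him with him | him
  · -- orientation preserving
    have hσρ : σ = ρ := Complex.ext hre him
    have hg : ‖(Q - P) / (q - p)‖ = 1 := by rw [norm_div, h1, div_self hdn]
    let g : Circle := ⟨(Q - P) / (q - p), mem_sphere_zero_iff_norm.2 hg⟩
    refine ⟨(IsometryEquiv.addRight (-p)).trans
      ((rotation g).toIsometryEquiv.trans (IsometryEquiv.addRight P)), ?_, ?_, ?_⟩
    · simp
    · simp [g]; field_simp; ring
    · simp [g]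
      have : r + -p = ρ * (q - p) := by rw [hρ]; field_simp; ring
      rw [this, ← hσρ, hσ]; field_simp; ring
  · have hσρ : σ = (starRingEnd ℂ) ρ := Complex.ext (by simpa using hre) (by simpa using him)
    have hcd : (starRingEnd ℂ) (q - p) ≠ 0 := by
      rw [Ne, map_eq_zero]; exact hd
    have hg : ‖(Q - P) / (starRingEnd ℂ) (q - p)‖ = 1 := by
      rw [norm_div, h1, RCLike.norm_conj, div_self hdn]
    let g : Circle := ⟨(Q - P) / (starRingEnd ℂ) (q - p), mem_sphere_zero_iff_norm.2 hg⟩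
    have hval : ∀ z : ℂ, ((IsometryEquiv.addRight (-p)).trans (conjLIE.toIsometryEquiv.trans
      ((rotation g).toIsometryEquiv.trans (IsometryEquiv.addRight P)))) z
      = (Q - P) / (starRingEnd ℂ) (q - p) * (starRingEnd ℂ) (z - p) + P := by
      intro z
      simp [g, sub_eq_add_neg]
    refine ⟨(IsometryEquiv.addRight (-p)).trans (conjLIE.toIsometryEquiv.trans
      ((rotation g).toIsometryEquiv.trans (IsometryEquiv.addRight P))), ?_, ?_, ?_⟩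
    · rw [hval]; simp
    · rw [hval]; rw [div_mul_cancel₀ _ hcd]; ring
    · rw [hval]
      have : r - p = ρ * (q - p) := by rw [hρ]; field_simp
      rw [this, map_mul, ← hσρ, hσ]
      field_simp
      ring

end Run7.h133.Cube
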