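import Mathlib
import Pool.Agent.Run7.h133.CubeC

/-!
Transfer to the Euclidean plane.
-/

namespace Run7.h133.Cube

open EuclideanGeometry Run7.h133.RightTri

/-- The Euclidean plane. -/
abbrev E2 := EuclideanSpace ℝ (Fin 2)

/-- The standard identification. -/
noncomputable def LL : ℂ ≃ₗᵢ[ℝ] E2 := Complex.orthonormalBasisOneI.repr

/-- The triple `p, q, r` occurs in `D`. -/
def Occ (p q r : E2) (D : Set E2) : Prop := ∃ φ : E2 ≃ᵢ E2, φ p ∈ D ∧ φ q ∈ D ∧ φ r ∈ D

lemma miss_of_not_occ {p q r : E2} (hpq : q ≠ p) {D : Set E2} (h : ¬ Occ p q r D) :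
    Miss (LL ⁻¹' D) (dist q p) (dist r p) (dist r q) := by
  intro x y z h1 h2 h3 hx hy hz
  apply h
  have hd : ∀ a b : E2, ‖LL.symm a - LL.symm b‖ = dist a b := by
    intro a b
    rw [← map_sub, LinearIsometryEquiv.norm_map, dist_eq_norm]
  obtain ⟨ψ, e1, e2, e3⟩ := exists_isometry (LL.symm p) (LL.symm q) (LL.symm r) x y z
    (fun hh => hpq (LL.symm.injective hh))
    (by rw [h1, hd]) (by rw [h2, hd]) (by rw [h3, hd])
  refine ⟨LL.symm.toIsometryEquiv.trans (ψ.trans LL.toIsometryEquiv), ?_, ?_, ?_⟩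
  · simpa [e1] using hx
  · simpa [e2] using hy
  · simpa [e3] using hz

lemma occ_right {D : Set E2} (hD : ¬ Sparse (LL ⁻¹' D)) {p q r : E2} (hq : q ≠ p)
    (h : ∠ q p r = Real.pi / 2) : Occ p q r D := by
  by_contra hno
  apply hD
  refine sparse_right _ (dist q p) (dist r p) (dist r q) dist_nonneg dist_nonneg dist_nonneg ?_
    (miss_of_not_occ hq hno)
  have h1 := law_cos q p r
  rw [h, Real.cos_pi_div_two, dist_comm q r] at h1
  linear_combination h1

lemma occ_thirty {D : Set E2} (hD : ¬ Sparse (LL ⁻¹' D)) {p q r : E2} (hq : q ≠ p)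
    (h : Real.cos (∠ q p r) ^ 2 = 3 / 4) : Occ p q r D := by
  by_contra hno
  apply hD
  refine sparse_thirty _ (dist q p) (dist r p) (Real.cos (∠ q p r)) (dist r q) dist_nonneg
    dist_nonneg dist_nonneg h ?_ (miss_of_not_occ hq hno)
  have h1 := law_cos q p r
  rw [dist_comm q r] at h1
  linear_combination h1

lemma occ_height {D : Set E2} (hD : ¬ Sparse (LL ⁻¹' D)) {p q r s : E2} (hq : p ≠ q)
    (hs : s ∈ line[ℝ, p, q]) (ho : inner ℝ (r - s) (q - p) = 0)
    (hh : dist r s = dist p q / 2) : Occ p q r D := by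
  by_contra hno
  apply hD
  obtain ⟨t, rfl⟩ := mem_affineSpan_pair_iff_exists_lineMap_eq.1 hs
  have hs' : AffineMap.lineMap p q t = p + t • (q - p) := by
    rw [AffineMap.lineMap_apply]; simp [add_comm]
  rw [hs'] at ho hh
  have hrs : ‖r - (p + t • (q - p))‖ = ‖q - p‖ / 2 := by
    rw [← dist_eq_norm, hh, dist_comm p q, dist_eq_norm]
  refine sparse_height _ (dist q p) ((t - 1 / 2) * dist q p) (dist r p) (dist r q) dist_nonneg
    dist_nonneg dist_nonneg ?_ ?_ (miss_of_not_occ hq.symm hno)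
  · have e : r - p = (r - (p + t • (q - p))) + t • (q - p) := by abel
    rw [dist_eq_norm, dist_eq_norm, e, norm_add_sq_real, inner_smul_right, ho, hrs, norm_smul,
      mul_pow, Real.norm_eq_abs, sq_abs]
    ring
  · have e : r - q = (r - (p + t • (q - p))) + (t - 1) • (q - p) := by
      rw [sub_smul, one_smul]; abel
    rw [dist_eq_norm, dist_eq_norm, e, norm_add_sq_real, inner_smul_right, ho, hrs, norm_smul,
      mul_pow, Real.norm_eq_abs, sq_abs]
    ring

theorem main (C : Set E2) :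
    ∃ D : Set E2, (D = C ∨ D = Cᶜ) ∧
      (∀ p q r : E2, q ≠ p → r ≠ p →
        (∠ q p r = Real.pi / 6 ∨ ∠ q p r = Real.pi / 2 ∨ ∠ q p r = 5 * Real.pi / 6) →
        Occ p q r D) ∧
      (∀ p q r s : E2, p ≠ q → s ∈ line[ℝ, p, q] → inner ℝ (r - s) (q - p) = 0 →
        dist r s = dist p q / 2 → Occ p q r D) := by
  have hcore : ∀ D : Set E2, ¬ Sparse (LL ⁻¹' D) →
      (∀ p q r : E2, q ≠ p → r ≠ p →
        (∠ q p r = Real.pi / 6 ∨ ∠ q p r = Real.pi / 2 ∨ ∠ q p r = 5 * Real.pi / 6) →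
        Occ p q r D) ∧
      (∀ p q r s : E2, p ≠ q → s ∈ line[ℝ, p, q] → inner ℝ (r - s) (q - p) = 0 →
        dist r s = dist p q / 2 → Occ p q r D) := by
    intro D hD
    refine ⟨?_, fun p q r s hq hs ho hh => occ_height hD hq hs ho hh⟩
    intro p q r hq hr hang
    have h3 : (Real.sqrt 3) ^ 2 = 3 := Real.sq_sqrt (by norm_num)
    rcases hang with h | h | h
    · apply occ_thirty hD hq
      rw [h, Real.cos_pi_div_six]
      linear_combination h3 / 4
    · exact occ_right hD hq h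
    · apply occ_thirty hD hq
      rw [h, show 5 * Real.pi / 6 = Real.pi - Real.pi / 6 by ring, Real.cos_pi_sub,
        Real.cos_pi_div_six]
      linear_combination h3 / 4
  by_cases hS : Sparse (LL ⁻¹' C)
  · refine ⟨Cᶜ, Or.inr rfl, hcore _ (fun hS' => ?_)⟩
    rw [Set.preimage_compl] at hS'
    exact not_sparse_compl hS hS'
  · exact ⟨C, Or.inl rfl, hcore _ hS⟩

end Run7.h133.Cube
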