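import Mathlib
import Pool.Agent.Run7.h133.CubeD

/-!
Cube sums over the vectors `e 0, ..., e (n-1)` with `e k` pointing in the direction `k θ`,
`θ` an odd multiple of `π / n`, and the combinatorial balance property of `n`-cubes.
-/

namespace Run7.h133.Cube

open Run7.h133.RightTri Finset

lemma act_cubeEl_append (vs : List ℂ) (v w : ℂ) (f : ℂ → ℝ) (x : ℂ) :
    act (cubeEl (vs ++ [v]) w) f x = act (cubeEl vs w) f x + act (cubeEl vs w) f (x + v * w) := by
  have h : cubeEl (vs ++ [v]) w =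
      (1 + AddMonoidAlgebra.single (v * w) 1) * cubeEl vs w := by
    simp only [cubeEl, List.map_append, List.map_cons, List.map_nil, List.prod_append,
      List.prod_cons, List.prod_nil, mul_one]
    ring
  rw [h, act_mul]
  simp only [map_add, LinearMap.add_apply, Pi.add_apply, act_single, one_mul, map_one,
    Module.End.one_apply]

/-- Expansion of the action of a cube element. -/
lemma act_cubeEl_range (e : ℕ → ℂ) (w : ℂ) (f : ℂ → ℝ) (n : ℕ) : ∀ x : ℂ,
    act (cubeEl ((List.range n).map e) w) f x =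
      ∑ S ∈ (range n).powerset, f (x + ∑ i ∈ S, e i * w) := by
  induction n with
  | zero => intro x; simp [cubeEl]
  | succ n ih =>
    intro x
    rw [List.range_succ, List.map_append, List.map_cons, List.map_nil, act_cubeEl_append, ih, ih,
      range_add_one, sum_powerset_insert (by simp)]
    congr 1
    apply sum_congr rfl
    intro S hS
    have hn : n ∉ S := fun h => by simpa using mem_powerset.1 hS h
    rw [sum_insert hn]
    congr 1; ring

/-- Not all three equal. -/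
def Nae (a b c : Bool) : Prop := ¬ (a = b ∧ a = c)

instance (a b c : Bool) : Decidable (Nae a b c) := by unfold Nae; infer_instance

/-- The local condition on colourings of the subsets of `range n`. -/
structure Good (n : ℕ) (F : Finset ℕ → Bool) : Prop where
  a1 : ∀ k, k + 1 < n → ∀ r ⊆ range n, k ∉ r → k + 1 ∉ r →
    Nae (F r) (F (insert k r)) (F (insert (k + 1) r))
  a2 : ∀ k, k + 1 < n → ∀ r ⊆ range n, k ∉ r → k + 1 ∉ r →
    Nae (F (insert k (insert (k + 1) r))) (F (insert k r)) (F (insert (k + 1) r))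
  b1 : ∀ r ⊆ range n, 0 ∉ r → n - 1 ∉ r →
    Nae (F (insert 0 r)) (F (insert 0 (insert (n - 1) r))) (F r)
  b2 : ∀ r ⊆ range n, 0 ∉ r → n - 1 ∉ r →
    Nae (F (insert (n - 1) r)) (F r) (F (insert 0 (insert (n - 1) r)))

/-- The balance property. -/
def Bal (n : ℕ) : Prop := ∀ F : Finset ℕ → Bool, Good n F →
  ∑ S ∈ (range n).powerset, (if F S then (1 : ℝ) else -1) = 0

section geometry

variable (a b : ℝ) (ζ : ℂ)

/-- The directions. -/
noncomputable def ev (a b : ℝ) (ζ : ℂ) (k : ℕ) : ℂ := (if Even k then (a : ℂ) else b) * ζ ^ k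

lemma norm_sub_zeta {a b c : ℝ} {ζ : ℂ} (hζ : ‖ζ‖ = 1) (hc : 0 ≤ c)
    (h : c ^ 2 = a ^ 2 + b ^ 2 - 2 * a * b * ζ.re) : ‖(a : ℂ) - b * ζ‖ = c := by
  have h1 : Complex.normSq ζ = 1 := by rw [Complex.normSq_eq_norm_sq, hζ, one_pow]
  rw [Complex.normSq_apply] at h1
  refine (pow_left_inj₀ (norm_nonneg _) hc two_ne_zero).1 ?_
  rw [← Complex.normSq_eq_norm_sq, Complex.normSq_apply, h]
  simp
  linear_combination b ^ 2 * h1

lemma ev_facts {a b c : ℝ} {ζ : ℂ} (hζ : ‖ζ‖ = 1) (ha : 0 ≤ a) (hb : 0 ≤ b) (hc : 0 ≤ c)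
    (h : c ^ 2 = a ^ 2 + b ^ 2 - 2 * a * b * ζ.re) (k : ℕ) {w : ℂ} (hw : ‖w‖ = 1) :
    ((‖ev a b ζ k * w‖ = a ∧ ‖ev a b ζ (k + 1) * w‖ = b) ∨
      (‖ev a b ζ k * w‖ = b ∧ ‖ev a b ζ (k + 1) * w‖ = a)) ∧
    ‖ev a b ζ k * w - ev a b ζ (k + 1) * w‖ = c := by
  have h' : c ^ 2 = b ^ 2 + a ^ 2 - 2 * b * a * ζ.re := by rw [h]; ring
  rcases Nat.even_or_odd k with hk | hk
  · have hk1 : ¬ Even (k + 1) := by rw [Nat.even_add_one, not_not]; exact hk
    refine ⟨Or.inl ⟨?_, ?_⟩, ?_⟩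
    · simp [ev, hk, hζ, hw, norm_pow, abs_of_nonneg ha]
    · simp [ev, hk1, hζ, hw, norm_pow, abs_of_nonneg hb]
    · have : ev a b ζ k * w - ev a b ζ (k + 1) * w = ζ ^ k * ((a : ℂ) - b * ζ) * w := by
        simp only [ev, hk, hk1, if_true, if_false]; ring
      rw [this, norm_mul, norm_mul, hw, norm_pow, hζ, norm_sub_zeta hζ hc h]; simp
  · have hk0 : ¬ Even k := Nat.not_even_iff_odd.2 hk
    have hk1 : Even (k + 1) := by rw [Nat.even_add_one]; exact hk0
    refine ⟨Or.inr ⟨?_, ?_⟩, ?_⟩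
    · simp [ev, hk0, hζ, hw, norm_pow, abs_of_nonneg hb]
    · simp [ev, hk1, hζ, hw, norm_pow, abs_of_nonneg ha]
    · have : ev a b ζ k * w - ev a b ζ (k + 1) * w = ζ ^ k * ((b : ℂ) - a * ζ) * w := by
        simp only [ev, hk0, hk1, if_true, if_false]; ring
      rw [this, norm_mul, norm_mul, hw, norm_pow, hζ, norm_sub_zeta hζ hc h']; simp

lemma not_all {D : Set ℂ} {a b c : ℝ} (hM : Miss D a b c) {v p q : ℂ}
    (h : (‖p‖ = a ∧ ‖q‖ = b) ∨ (‖p‖ = b ∧ ‖q‖ = a)) (hpq : ‖p - q‖ = c) :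
    ¬ (v ∈ D ∧ v + p ∈ D ∧ v + q ∈ D) := by
  rintro ⟨h1, h2, h3⟩
  rcases h with ⟨hp, hq⟩ | ⟨hp, hq⟩
  · refine hM v (v + p) (v + q) (by simpa using hp) (by simpa using hq) ?_ h1 h2 h3
    rw [← hpq, show v + q - (v + p) = -(p - q) by ring, norm_neg]
  · refine hM v (v + q) (v + p) (by simpa using hq) (by simpa using hp) ?_ h1 h3 h2
    rw [← hpq, show v + p - (v + q) = p - q by ring]

open Classical in
/-- If both classes miss the triangle then the induced colouring of the cube is good. -/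
lemma good_of_miss {D : Set ℂ} {a b c : ℝ} {ζ : ℂ} {n : ℕ} (hn : Even n) (hn0 : 2 ≤ n)
    (hζ : ‖ζ‖ = 1) (hζn : ζ ^ n = -1)
    (ha : 0 ≤ a) (hb : 0 ≤ b) (hc : 0 ≤ c) (h : c ^ 2 = a ^ 2 + b ^ 2 - 2 * a * b * ζ.re)
    (hM : Miss D a b c) (hM' : Miss Dᶜ a b c) {w : ℂ} (hw : ‖w‖ = 1) (x : ℂ) :
    Good n (fun S => decide (x + ∑ i ∈ S, ev a b ζ i * w ∈ D)) := by
  have key : ∀ (v p q : ℂ), ((‖p‖ = a ∧ ‖q‖ = b) ∨ (‖p‖ = b ∧ ‖q‖ = a)) → ‖p - q‖ = c →
      Nae (decide (v ∈ D)) (decide (v + p ∈ D)) (decide (v + q ∈ D)) := by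
    intro v p q h1 h2 h3
    have e1 := not_all hM (v := v) h1 h2
    have e2 := not_all hM' (v := v) h1 h2
    simp only [Set.mem_compl_iff] at e2
    rw [decide_eq_decide, decide_eq_decide] at h3
    tauto
  have keyp : ∀ k (v : ℂ), Nae (decide (v ∈ D)) (decide (v + ev a b ζ k * w ∈ D))
      (decide (v + ev a b ζ (k + 1) * w ∈ D)) := by
    intro k v
    obtain ⟨h1, h2⟩ := ev_facts hζ ha hb hc h k hw
    exact key v _ _ h1 h2
  have keym : ∀ k (v : ℂ), Nae (decide (v ∈ D)) (decide (v + -(ev a b ζ k * w) ∈ D))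
      (decide (v + -(ev a b ζ (k + 1) * w) ∈ D)) := by
    intro k v
    obtain ⟨h1, h2⟩ := ev_facts hζ ha hb hc h k hw
    refine key v _ _ (by simpa using h1) ?_
    rw [← h2, show -(ev a b ζ k * w) - -(ev a b ζ (k + 1) * w) =
      -(ev a b ζ k * w - ev a b ζ (k + 1) * w) by ring, norm_neg]
  have hen : ev a b ζ n = -ev a b ζ 0 := by simp [ev, hn, hζn]
  constructor
  · intro k hk r hr h1 h2
    have := keyp k (x + ∑ i ∈ r, ev a b ζ i * w)
    simp only [sum_insert h1, sum_insert h2]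
    rw [show x + (ev a b ζ k * w + ∑ i ∈ r, ev a b ζ i * w) =
      x + ∑ i ∈ r, ev a b ζ i * w + ev a b ζ k * w by ring,
      show x + (ev a b ζ (k + 1) * w + ∑ i ∈ r, ev a b ζ i * w) =
      x + ∑ i ∈ r, ev a b ζ i * w + ev a b ζ (k + 1) * w by ring]
    exact this
  · intro k hk r hr h1 h2
    have hk' : k ∉ insert (k + 1) r := by simp [h1]
    have := keym k (x + ∑ i ∈ r, ev a b ζ i * w + ev a b ζ k * w + ev a b ζ (k + 1) * w)
    simp only [sum_insert h1, sum_insert h2, sum_insert hk']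
    rw [show x + (ev a b ζ k * w + (ev a b ζ (k + 1) * w + ∑ i ∈ r, ev a b ζ i * w)) =
      x + ∑ i ∈ r, ev a b ζ i * w + ev a b ζ k * w + ev a b ζ (k + 1) * w by ring,
      show x + (ev a b ζ k * w + ∑ i ∈ r, ev a b ζ i * w) =
      x + ∑ i ∈ r, ev a b ζ i * w + ev a b ζ k * w + ev a b ζ (k + 1) * w +
        -(ev a b ζ (k + 1) * w) by ring,
      show x + (ev a b ζ (k + 1) * w + ∑ i ∈ r, ev a b ζ i * w) =
      x + ∑ i ∈ r, ev a b ζ i * w + ev a b ζ k * w + ev a b ζ (k + 1) * w +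
        -(ev a b ζ k * w) by ring]
    intro h3
    exact this ⟨h3.2, h3.1⟩
  · intro r hr h1 h2
    have h0 : 0 ∉ insert (n - 1) r := by
      simp only [mem_insert, not_or]; exact ⟨by omega, h1⟩
    have := keyp (n - 1) (x + ∑ i ∈ r, ev a b ζ i * w + ev a b ζ 0 * w)
    rw [show n - 1 + 1 = n by omega, hen] at this
    simp only [sum_insert h1, sum_insert h2, sum_insert h0]
    rw [show x + (ev a b ζ 0 * w + ∑ i ∈ r, ev a b ζ i * w) =
      x + ∑ i ∈ r, ev a b ζ i * w + ev a b ζ 0 * w by ring,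
      show x + (ev a b ζ 0 * w + (ev a b ζ (n - 1) * w + ∑ i ∈ r, ev a b ζ i * w)) =
      x + ∑ i ∈ r, ev a b ζ i * w + ev a b ζ 0 * w + ev a b ζ (n - 1) * w by ring]
    rw [show x + ∑ i ∈ r, ev a b ζ i * w + ev a b ζ 0 * w + -ev a b ζ 0 * w =
      x + ∑ i ∈ r, ev a b ζ i * w by ring] at this
    exact this
  · intro r hr h1 h2
    have h0 : 0 ∉ insert (n - 1) r := by
      simp only [mem_insert, not_or]; exact ⟨by omega, h1⟩
    have := keym (n - 1) (x + ∑ i ∈ r, ev a b ζ i * w + ev a b ζ (n - 1) * w)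
    rw [show n - 1 + 1 = n by omega, hen] at this
    simp only [sum_insert h2, sum_insert h0]
    rw [show x + (ev a b ζ (n - 1) * w + ∑ i ∈ r, ev a b ζ i * w) =
      x + ∑ i ∈ r, ev a b ζ i * w + ev a b ζ (n - 1) * w by ring,
      show x + (ev a b ζ 0 * w + (ev a b ζ (n - 1) * w + ∑ i ∈ r, ev a b ζ i * w)) =
      x + ∑ i ∈ r, ev a b ζ i * w + ev a b ζ (n - 1) * w + -(-ev a b ζ 0 * w) by ring]
    rw [show x + ∑ i ∈ r, ev a b ζ i * w + ev a b ζ (n - 1) * w + -(ev a b ζ (n - 1) * w) =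
      x + ∑ i ∈ r, ev a b ζ i * w by ring] at this
    exact this

open Classical in
/-- Both classes missing the triangle is impossible. -/
theorem not_both_miss {D : Set ℂ} {a b c : ℝ} {ζ : ℂ} {n : ℕ} (hbal : Bal n) (hn : Even n)
    (hn0 : 2 ≤ n) (hζ : ‖ζ‖ = 1) (hζn : ζ ^ n = -1)
    (ha : 0 ≤ a) (hb : 0 ≤ b) (hc : 0 ≤ c) (h : c ^ 2 = a ^ 2 + b ^ 2 - 2 * a * b * ζ.re)
    (hM : Miss D a b c) (hM' : Miss Dᶜ a b c) : False := by
  have hz : ∀ w : ℂ, ‖w‖ = 1 → ∀ x : ℂ,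
      act (cubeEl ((List.range n).map (ev a b ζ)) w) (sgn D) x = 0 := by
    intro w hw x
    rw [act_cubeEl_range, ← hbal _ (good_of_miss hn hn0 hζ hζn ha hb hc h hM hM' hw x)]
    apply sum_congr rfl
    intro S _
    by_cases hS : x + ∑ i ∈ S, ev a b ζ i * w ∈ D
    · simp [sgn_mem hS, hS]
    · simp [sgn_not hS, hS]
  refine not_sparse_compl (D := D) (sparse_of_cube _ D fun w hw x => (hz w hw x).le)
    (sparse_of_cube ((List.range n).map (ev a b ζ)) Dᶜ fun w hw x => ?_)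
  rw [sgn_compl, map_neg, Pi.neg_apply, hz w hw x, neg_zero]

end geometry

/-- The single-triangle statement from the balance property. -/
theorem occ_of_bal {n : ℕ} (hbal : Bal n) (hn : Even n) (hn0 : 2 ≤ n) {m : ℕ} (hm : Odd m)
    (C : Set E2) (p q r : E2) (hq : q ≠ p)
    (hang : EuclideanGeometry.angle q p r = m * Real.pi / n) : Occ p q r C ∨ Occ p q r Cᶜ := by
  by_contra hno
  rw [not_or] at hno
  have hn' : (n : ℝ) ≠ 0 := by positivity
  set θ : ℝ := m * Real.pi / n with hθ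
  have h1 := EuclideanGeometry.law_cos q p r
  rw [hang, dist_comm q r] at h1
  refine not_both_miss (D := LL ⁻¹' C) (ζ := Complex.exp (θ * Complex.I)) hbal hn hn0
    (Complex.norm_exp_ofReal_mul_I θ) ?_ dist_nonneg dist_nonneg dist_nonneg ?_
    (miss_of_not_occ hq hno.1) ?_
  · rw [← Complex.exp_nat_mul]
    obtain ⟨j, rfl⟩ := hm
    have hnC : (n : ℂ) ≠ 0 := by exact_mod_cast hn'
    rw [show (n : ℂ) * ((θ : ℂ) * Complex.I) = (Real.pi : ℂ) * Complex.I +
      j * (2 * Real.pi * Complex.I) by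
        rw [hθ]; push_cast; field_simp; ring]
    rw [Complex.exp_add, Complex.exp_pi_mul_I, Complex.exp_nat_mul_two_pi_mul_I, mul_one]
  · rw [Complex.exp_ofReal_mul_I_re]
    linear_combination h1
  · rw [← Set.preimage_compl]
    exact miss_of_not_occ hq hno.2

end Run7.h133.Cube
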