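import Mathlib
import Pool.Agent.Run7.h133.CubeE

/-!
The balance property of the four-dimensional cube.
-/

namespace Run7.h133.Cube

open Finset

/-- Depth-first search through the colourings of `N` vertices avoiding monochromatic triples. -/
def srch (T : List (ℕ × ℕ × ℕ)) (N M : ℕ) : ℕ → List Bool → Bool
  | 0, l => (l.countP (fun b => b)) == M
  | k + 1, l =>
    [true, false].all fun b =>
      (T.any fun t => t.2.2 + (k + 1) == N &&
        ((l ++ [b]).getD t.1 false == b && (l ++ [b]).getD t.2.1 false == b))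
      || srch T N M k (l ++ [b])

lemma getD_range (P : ℕ → Bool) (j i : ℕ) (h : i < j) :
    ((List.range j).map P).getD i false = P i := by
  rw [List.getD_eq_getElem?_getD]
  simp [h]

theorem srch_sound (T : List (ℕ × ℕ × ℕ)) (N M : ℕ) (P : ℕ → Bool)
    (hT : ∀ t ∈ T, t.1 < t.2.2 ∧ t.2.1 < t.2.2)
    (hP : ∀ t ∈ T, ¬ (P t.1 = P t.2.2 ∧ P t.2.1 = P t.2.2)) :
    ∀ k, k ≤ N → srch T N M k ((List.range (N - k)).map P) = true →
      ((List.range N).map P).countP (fun b => b) = M := by
  intro k
  induction k with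
  | zero => intro _ h; simpa [srch] using h
  | succ k ih =>
    intro hk h
    rw [srch, List.all_eq_true] at h
    have h1 := h (P (N - (k + 1))) (by cases P (N - (k + 1)) <;> simp)
    have e : (List.range (N - (k + 1))).map P ++ [P (N - (k + 1))] =
        (List.range (N - k)).map P := by
      rw [show N - k = (N - (k + 1)) + 1 by omega, List.range_succ, List.map_append]; rfl
    rw [e, Bool.or_eq_true] at h1
    rcases h1 with h1 | h1
    · exfalso
      rw [List.any_eq_true] at h1
      obtain ⟨t, ht, h2⟩ := h1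
      simp only [Bool.and_eq_true, beq_iff_eq] at h2
      obtain ⟨h3, h4, h5⟩ := h2
      obtain ⟨h6, h7⟩ := hT t ht
      rw [getD_range P _ _ (by omega)] at h4 h5
      apply hP t ht
      rw [h4, h5, show t.2.2 = N - (k + 1) by omega]
      exact ⟨rfl, rfl⟩
    · exact ih (by omega) h1

/-- The monochromatic triples of the four-dimensional cube. -/
def T4 : List (ℕ × ℕ × ℕ) := [(0, 1, 2), (1, 2, 3), (0, 2, 4), (1, 3, 5), (2, 4, 6), (4, 5, 6),
  (3, 5, 7), (5, 6, 7), (0, 4, 8), (0, 1, 9), (0, 8, 9), (1, 5, 9),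
  (2, 6, 10), (8, 9, 10), (2, 3, 11), (2, 10, 11), (3, 7, 11), (9, 10, 11),
  (4, 8, 12), (8, 10, 12), (4, 5, 13), (4, 12, 13), (5, 9, 13), (9, 11, 13),
  (6, 10, 14), (10, 12, 14), (12, 13, 14), (6, 7, 15), (6, 14, 15), (7, 11, 15),
  (11, 13, 15), (13, 14, 15)]

lemma srch_four : srch T4 16 8 16 [] = true := by decide +kernel

/-- The subset with code `i`. -/
def S (i : ℕ) : Finset ℕ := (range 4).filter fun j => i.testBit j = true

theorem bal4 : Bal 4 := by
  intro F h
  set P : ℕ → Bool := fun i => F (S i) with hPdef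
  have f0 : Nae (P 0) (P 1) (P 2) ∧ Nae (P 3) (P 1) (P 2) := by
    have g1 := h.a1 0 (by norm_num) (S 0) (by decide) (by decide) (by decide)
    have g2 := h.a2 0 (by norm_num) (S 0) (by decide) (by decide) (by decide)
    rw [show insert 0 (S 0) = S 1 from by decide,
      show insert (0 + 1) (S 0) = S 2 from by decide] at g1 g2
    rw [show insert 0 (S 2) = S 3 from by decide] at g2
    exact ⟨g1, g2⟩
  have f1 : Nae (P 4) (P 5) (P 6) ∧ Nae (P 7) (P 5) (P 6) := by
    have g1 := h.a1 0 (by norm_num) (S 4) (by decide) (by decide) (by decide)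
    have g2 := h.a2 0 (by norm_num) (S 4) (by decide) (by decide) (by decide)
    rw [show insert 0 (S 4) = S 5 from by decide,
      show insert (0 + 1) (S 4) = S 6 from by decide] at g1 g2
    rw [show insert 0 (S 6) = S 7 from by decide] at g2
    exact ⟨g1, g2⟩
  have f2 : Nae (P 8) (P 9) (P 10) ∧ Nae (P 11) (P 9) (P 10) := by
    have g1 := h.a1 0 (by norm_num) (S 8) (by decide) (by decide) (by decide)
    have g2 := h.a2 0 (by norm_num) (S 8) (by decide) (by decide) (by decide)
    rw [show insert 0 (S 8) = S 9 from by decide,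
      show insert (0 + 1) (S 8) = S 10 from by decide] at g1 g2
    rw [show insert 0 (S 10) = S 11 from by decide] at g2
    exact ⟨g1, g2⟩
  have f3 : Nae (P 12) (P 13) (P 14) ∧ Nae (P 15) (P 13) (P 14) := by
    have g1 := h.a1 0 (by norm_num) (S 12) (by decide) (by decide) (by decide)
    have g2 := h.a2 0 (by norm_num) (S 12) (by decide) (by decide) (by decide)
    rw [show insert 0 (S 12) = S 13 from by decide,
      show insert (0 + 1) (S 12) = S 14 from by decide] at g1 g2
    rw [show insert 0 (S 14) = S 15 from by decide] at g2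
    exact ⟨g1, g2⟩
  have f4 : Nae (P 0) (P 2) (P 4) ∧ Nae (P 6) (P 2) (P 4) := by
    have g1 := h.a1 1 (by norm_num) (S 0) (by decide) (by decide) (by decide)
    have g2 := h.a2 1 (by norm_num) (S 0) (by decide) (by decide) (by decide)
    rw [show insert 1 (S 0) = S 2 from by decide,
      show insert (1 + 1) (S 0) = S 4 from by decide] at g1 g2
    rw [show insert 1 (S 4) = S 6 from by decide] at g2
    exact ⟨g1, g2⟩
  have f5 : Nae (P 1) (P 3) (P 5) ∧ Nae (P 7) (P 3) (P 5) := by
    have g1 := h.a1 1 (by norm_num) (S 1) (by decide) (by decide) (by decide)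
    have g2 := h.a2 1 (by norm_num) (S 1) (by decide) (by decide) (by decide)
    rw [show insert 1 (S 1) = S 3 from by decide,
      show insert (1 + 1) (S 1) = S 5 from by decide] at g1 g2
    rw [show insert 1 (S 5) = S 7 from by decide] at g2
    exact ⟨g1, g2⟩
  have f6 : Nae (P 8) (P 10) (P 12) ∧ Nae (P 14) (P 10) (P 12) := by
    have g1 := h.a1 1 (by norm_num) (S 8) (by decide) (by decide) (by decide)
    have g2 := h.a2 1 (by norm_num) (S 8) (by decide) (by decide) (by decide)
    rw [show insert 1 (S 8) = S 10 from by decide,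
      show insert (1 + 1) (S 8) = S 12 from by decide] at g1 g2
    rw [show insert 1 (S 12) = S 14 from by decide] at g2
    exact ⟨g1, g2⟩
  have f7 : Nae (P 9) (P 11) (P 13) ∧ Nae (P 15) (P 11) (P 13) := by
    have g1 := h.a1 1 (by norm_num) (S 9) (by decide) (by decide) (by decide)
    have g2 := h.a2 1 (by norm_num) (S 9) (by decide) (by decide) (by decide)
    rw [show insert 1 (S 9) = S 11 from by decide,
      show insert (1 + 1) (S 9) = S 13 from by decide] at g1 g2
    rw [show insert 1 (S 13) = S 15 from by decide] at g2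
    exact ⟨g1, g2⟩
  have f8 : Nae (P 0) (P 4) (P 8) ∧ Nae (P 12) (P 4) (P 8) := by
    have g1 := h.a1 2 (by norm_num) (S 0) (by decide) (by decide) (by decide)
    have g2 := h.a2 2 (by norm_num) (S 0) (by decide) (by decide) (by decide)
    rw [show insert 2 (S 0) = S 4 from by decide,
      show insert (2 + 1) (S 0) = S 8 from by decide] at g1 g2
    rw [show insert 2 (S 8) = S 12 from by decide] at g2
    exact ⟨g1, g2⟩
  have f9 : Nae (P 1) (P 5) (P 9) ∧ Nae (P 13) (P 5) (P 9) := by
    have g1 := h.a1 2 (by norm_num) (S 1) (by decide) (by decide) (by decide)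
    have g2 := h.a2 2 (by norm_num) (S 1) (by decide) (by decide) (by decide)
    rw [show insert 2 (S 1) = S 5 from by decide,
      show insert (2 + 1) (S 1) = S 9 from by decide] at g1 g2
    rw [show insert 2 (S 9) = S 13 from by decide] at g2
    exact ⟨g1, g2⟩
  have f10 : Nae (P 2) (P 6) (P 10) ∧ Nae (P 14) (P 6) (P 10) := by
    have g1 := h.a1 2 (by norm_num) (S 2) (by decide) (by decide) (by decide)
    have g2 := h.a2 2 (by norm_num) (S 2) (by decide) (by decide) (by decide)
    rw [show insert 2 (S 2) = S 6 from by decide,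
      show insert (2 + 1) (S 2) = S 10 from by decide] at g1 g2
    rw [show insert 2 (S 10) = S 14 from by decide] at g2
    exact ⟨g1, g2⟩
  have f11 : Nae (P 3) (P 7) (P 11) ∧ Nae (P 15) (P 7) (P 11) := by
    have g1 := h.a1 2 (by norm_num) (S 3) (by decide) (by decide) (by decide)
    have g2 := h.a2 2 (by norm_num) (S 3) (by decide) (by decide) (by decide)
    rw [show insert 2 (S 3) = S 7 from by decide,
      show insert (2 + 1) (S 3) = S 11 from by decide] at g1 g2
    rw [show insert 2 (S 11) = S 15 from by decide] at g2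
    exact ⟨g1, g2⟩
  have f12 : Nae (P 1) (P 9) (P 0) ∧ Nae (P 8) (P 0) (P 9) := by
    have g1 := h.b1 (S 0) (by decide) (by decide) (by decide)
    have g2 := h.b2 (S 0) (by decide) (by decide) (by decide)
    rw [show insert (4 - 1) (S 0) = S 8 from by decide] at g1 g2
    rw [show insert 0 (S 0) = S 1 from by decide] at g1
    rw [show insert 0 (S 8) = S 9 from by decide] at g1 g2
    exact ⟨g1, g2⟩
  have f13 : Nae (P 3) (P 11) (P 2) ∧ Nae (P 10) (P 2) (P 11) := by
    have g1 := h.b1 (S 2) (by decide) (by decide) (by decide)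
    have g2 := h.b2 (S 2) (by decide) (by decide) (by decide)
    rw [show insert (4 - 1) (S 2) = S 10 from by decide] at g1 g2
    rw [show insert 0 (S 2) = S 3 from by decide] at g1
    rw [show insert 0 (S 10) = S 11 from by decide] at g1 g2
    exact ⟨g1, g2⟩
  have f14 : Nae (P 5) (P 13) (P 4) ∧ Nae (P 12) (P 4) (P 13) := by
    have g1 := h.b1 (S 4) (by decide) (by decide) (by decide)
    have g2 := h.b2 (S 4) (by decide) (by decide) (by decide)
    rw [show insert (4 - 1) (S 4) = S 12 from by decide] at g1 g2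
    rw [show insert 0 (S 4) = S 5 from by decide] at g1
    rw [show insert 0 (S 12) = S 13 from by decide] at g1 g2
    exact ⟨g1, g2⟩
  have f15 : Nae (P 7) (P 15) (P 6) ∧ Nae (P 14) (P 6) (P 15) := by
    have g1 := h.b1 (S 6) (by decide) (by decide) (by decide)
    have g2 := h.b2 (S 6) (by decide) (by decide) (by decide)
    rw [show insert (4 - 1) (S 6) = S 14 from by decide] at g1 g2
    rw [show insert 0 (S 6) = S 7 from by decide] at g1
    rw [show insert 0 (S 14) = S 15 from by decide] at g1 g2
    exact ⟨g1, g2⟩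
  have hP : ∀ t ∈ T4, ¬ (P t.1 = P t.2.2 ∧ P t.2.1 = P t.2.2) := by
    simp only [T4, List.forall_mem_cons, List.not_mem_nil, false_implies, implies_true, and_true]
    simp only [Nae] at f0 f1 f2 f3 f4 f5 f6 f7 f8 f9 f10 f11 f12 f13 f14 f15
    refine ⟨?_, ?_, ?_, ?_, ?_, ?_, ?_, ?_, ?_, ?_, ?_, ?_, ?_, ?_, ?_, ?_, ?_, ?_, ?_, ?_, ?_, ?_, ?_, ?_, ?_, ?_, ?_, ?_, ?_, ?_, ?_, ?_⟩
    all_goals
      rintro ⟨h1, h2⟩
      simp_all
  have h1 := srch_sound T4 16 8 P (by decide) hP 16 le_rfl (by simpa using srch_four)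
  have h2 : (range 4).powerset = (range 16).image S := by decide
  rw [h2, sum_image (by decide)]
  have h3 : ∀ N : ℕ, ∑ i ∈ range N, (if P i then (1 : ℝ) else -1) =
      2 * (((List.range N).map P).countP (fun b => b) : ℝ) - N := by
    intro N
    induction N with
    | zero => simp
    | succ N ih =>
      rw [sum_range_succ, ih, List.range_succ, List.map_append, List.countP_append]
      cases hb : P N <;> simp [hb] <;> ring
  have h4 := h3 16
  rw [h1] at h4
  simp only [hPdef] at h4
  rw [h4]; norm_num

end Run7.h133.Cube
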