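import Pool.Agent.Run7.h133.RayDefs

set_option autoImplicit false

namespace Pool.Agent.Run7.h133.Ray.Q8

open Matroid Pool.Agent.Helper998.VecMatroid Pool.Agent.Run7.h133.Ray

/-- the matrix `D` of a quaternary matroid with 48 bases -/
def Q48 {K : Type} [Field K] (ω : K) : Matrix (Fin 4) (Fin 4) K :=
  !![1, 1, 1, 0; 1, 0, 0, 1; 0, 1, 0, 1; 0, 0, 1, 1]

def Q48_rows : List (List ℕ) := [[1, 1, 1, 0], [1, 0, 0, 1], [0, 1, 0, 1], [0, 0, 1, 1]]

def Q48_R : List ℕ := [142, 142, 142, 73, 199, 207, 207, 73, 207, 199, 207, 73, 207, 207, 199,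
  37, 171, 175, 175, 108, 226, 238, 238, 109, 235, 231, 239, 109, 235, 239, 231, 37, 175, 171,
  175, 109, 231, 235, 239, 108, 238, 226, 238, 109, 239, 235, 231, 37, 175, 175, 171, 109, 231,
  239, 235, 109, 239, 231, 235, 108, 238, 238, 226, 19, 157, 159, 159, 90, 212, 222, 222, 91,
  221, 215, 223, 91, 221, 223, 215, 54, 184, 190, 190, 127, 241, 255, 255, 127, 249, 247, 255,
  127, 249, 255, 247, 55, 189, 187, 191, 127, 245, 251, 255, 127, 253, 243, 255, 126, 252, 250,
  246, 55, 189, 191, 187, 127, 245, 255, 251, 126, 252, 246, 250, 127, 253, 255, 243, 19, 159,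
  157, 159, 91, 215, 221, 223, 90, 222, 212, 222, 91, 223, 221, 215, 55, 187, 189, 191, 127,
  243, 253, 255, 127, 251, 245, 255, 126, 250, 252, 246, 54, 190, 184, 190, 127, 247, 249, 255,
  127, 255, 241, 255, 127, 255, 249, 247, 55, 191, 189, 187, 126, 246, 252, 250, 127, 255, 245,
  251, 127, 255, 253, 243, 19, 159, 159, 157, 91, 215, 223, 221, 91, 223, 215, 221, 90, 222,
  222, 212, 55, 187, 191, 189, 127, 243, 255, 253, 126, 250, 246, 252, 127, 251, 255, 245, 55,
  191, 187, 189, 126, 246, 250, 252, 127, 255, 243, 253, 127, 255, 251, 245, 54, 190, 190, 184,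
  127, 247, 255, 249, 127, 255, 247, 249, 127, 255, 255, 241]

def Q48_C : List ℕ := [19, 37, 73, 54, 90, 108, 142, 184, 212, 226, 157, 171, 199, 241]

def Q48_L : List ℕ := [15, 29, 30, 43, 46, 57, 58, 60, 71, 78, 85, 86, 92, 99, 102, 106, 113,
  114, 116, 120, 135, 139, 141, 149, 150, 153, 154, 156, 163, 166, 169, 170, 172, 177, 178, 180,
  195, 197, 198, 202, 204, 209, 210, 216, 225, 228, 232, 240]

theorem Q48_rel : relList 4 add4 mul4 4 Q48_rows = Q48_R := by decide +kernel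

theorem Q48_row : ∀ row ∈ Q48_rows, row.length = 4 ∧ ∀ a ∈ row, a < 4 := by decide

theorem Q48_hb {K : Type} [Field K] [Fintype K] [DecidableEq K] (hc : Fintype.card K = 4)
    (ω : K) (hω : ω ^ 2 = ω + 1) : HasBases (colMatroid (Q48 ω)) Q48_L ∧
    (colMatroid (Q48 ω)).eRank = (4 : ℕ) :=
  hasBases_of (r := 4) (k := 4) (code4 hc ω hω) (Q48 ω) Q48_rows (by decide) Q48_row
    (by intro i j; fin_cases i <;> fin_cases j <;> rfl)
    (R := Q48_R) (C := Q48_C) (L := Q48_L) Q48_rel (by decide +kernel)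
    (by decide +kernel)

theorem Q48_len : Q48_L.length = 48 := by decide +kernel

theorem Q48_fail : failB Q48_L [1, 1, 1, 1, 1, 1, 1, 1] 0 7 = true := by decide +kernel

/-- the matrix `D` of a quaternary matroid with 50 bases -/
def Q50 {K : Type} [Field K] (ω : K) : Matrix (Fin 4) (Fin 4) K :=
  !![1, 1, 1, 1; 1, 0, 0, ω; 0, 1, 0, 1; 0, 0, 1, 1]

def Q50_rows : List (List ℕ) := [[1, 1, 1, 1], [1, 0, 0, 2], [0, 1, 0, 1], [0, 0, 1, 1]]

def Q50_R : List ℕ := [143, 143, 143, 73, 198, 207, 207, 73, 207, 198, 207, 73, 207, 207, 198,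
  37, 170, 175, 175, 108, 227, 239, 239, 109, 235, 231, 238, 109, 235, 238, 231, 37, 175, 170,
  175, 109, 231, 235, 238, 108, 239, 227, 239, 109, 238, 235, 231, 37, 175, 175, 170, 109, 231,
  238, 235, 109, 238, 231, 235, 108, 239, 239, 227, 19, 158, 159, 157, 90, 215, 223, 221, 91,
  223, 215, 220, 91, 223, 222, 213, 54, 187, 191, 189, 127, 242, 255, 253, 127, 251, 246, 253,
  127, 251, 255, 244, 55, 191, 187, 188, 127, 247, 250, 253, 127, 254, 243, 253, 126, 255, 251,
  245, 55, 191, 190, 185, 127, 247, 255, 248, 126, 255, 247, 249, 127, 254, 255, 241, 19, 157,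
  158, 159, 91, 213, 223, 222, 90, 221, 215, 223, 91, 220, 223, 215, 55, 185, 191, 190, 127,
  241, 254, 255, 127, 248, 247, 255, 126, 249, 255, 247, 54, 189, 187, 191, 127, 244, 251, 255,
  127, 253, 242, 255, 127, 253, 251, 246, 55, 188, 191, 187, 126, 245, 255, 251, 127, 253, 247,
  250, 127, 253, 254, 243, 19, 159, 157, 158, 91, 215, 220, 223, 91, 222, 213, 223, 90, 223,
  221, 215, 55, 187, 188, 191, 127, 243, 253, 254, 126, 251, 245, 255, 127, 250, 253, 247, 55,
  190, 185, 191, 126, 247, 249, 255, 127, 255, 241, 254, 127, 255, 248, 247, 54, 191, 189, 187,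
  127, 246, 253, 251, 127, 255, 244, 251, 127, 255, 253, 242]

def Q50_C : List ℕ := [19, 37, 73, 54, 90, 108, 170, 198, 143, 157, 158, 185, 188, 213, 220,
  227, 241, 242, 244, 248]

def Q50_L : List ℕ := [15, 29, 30, 43, 46, 57, 58, 60, 71, 78, 85, 86, 92, 99, 102, 106, 113,
  114, 116, 120, 135, 139, 141, 142, 149, 150, 153, 154, 156, 163, 166, 169, 172, 177, 178, 180,
  184, 195, 197, 202, 204, 209, 210, 212, 216, 225, 226, 228, 232, 240]

theorem Q50_rel : relList 4 add4 mul4 4 Q50_rows = Q50_R := by decide +kernel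

theorem Q50_row : ∀ row ∈ Q50_rows, row.length = 4 ∧ ∀ a ∈ row, a < 4 := by decide

theorem Q50_hb {K : Type} [Field K] [Fintype K] [DecidableEq K] (hc : Fintype.card K = 4)
    (ω : K) (hω : ω ^ 2 = ω + 1) : HasBases (colMatroid (Q50 ω)) Q50_L ∧
    (colMatroid (Q50 ω)).eRank = (4 : ℕ) :=
  hasBases_of (r := 4) (k := 4) (code4 hc ω hω) (Q50 ω) Q50_rows (by decide) Q50_row
    (by intro i j; fin_cases i <;> fin_cases j <;> rfl)
    (R := Q50_R) (C := Q50_C) (L := Q50_L) Q50_rel (by decide +kernel)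
    (by decide +kernel)

theorem Q50_len : Q50_L.length = 50 := by decide +kernel

theorem Q50_fail : failB Q50_L [1, 3, 2, 2, 1, 2, 2, 1] 0 7 = true := by decide +kernel

/-- the matrix `D` of a quaternary matroid with 53 bases -/
def Q53 {K : Type} [Field K] (ω : K) : Matrix (Fin 4) (Fin 4) K :=
  !![1, 1, 1, 0; 1, 0, ω, 1; 0, 1, 0, 1; 0, 0, 1, 1]

def Q53_rows : List (List ℕ) := [[1, 1, 1, 0], [1, 0, 2, 1], [0, 1, 0, 1], [0, 0, 1, 1]]

def Q53_R : List ℕ := [142, 142, 142, 75, 199, 205, 207, 75, 207, 199, 205, 75, 205, 207, 199,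
  37, 171, 175, 175, 110, 226, 236, 238, 111, 235, 231, 237, 111, 233, 239, 231, 37, 175, 171,
  175, 111, 231, 233, 239, 110, 238, 226, 236, 111, 237, 235, 231, 37, 175, 175, 171, 111, 231,
  237, 235, 111, 239, 231, 233, 110, 236, 238, 226, 19, 157, 159, 159, 90, 214, 222, 220, 91,
  223, 213, 223, 89, 223, 223, 215, 54, 184, 190, 190, 127, 243, 255, 253, 127, 251, 245, 255,
  125, 251, 255, 247, 55, 189, 187, 191, 127, 247, 251, 253, 127, 255, 241, 255, 124, 254, 250,
  246, 55, 189, 191, 187, 127, 247, 255, 249, 126, 254, 244, 250, 125, 255, 255, 243, 19, 159,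
  157, 159, 89, 215, 223, 223, 90, 220, 214, 222, 91, 223, 223, 213, 55, 187, 189, 191, 125,
  243, 255, 255, 127, 249, 247, 255, 126, 250, 254, 244, 54, 190, 184, 190, 125, 247, 251, 255,
  127, 253, 243, 255, 127, 255, 251, 245, 55, 191, 189, 187, 124, 246, 254, 250, 127, 253, 247,
  251, 127, 255, 255, 241, 19, 159, 159, 157, 91, 213, 223, 223, 89, 223, 215, 223, 90, 222,
  220, 214, 55, 187, 191, 189, 127, 241, 255, 255, 124, 250, 246, 254, 127, 251, 253, 247, 55,
  191, 187, 189, 126, 244, 250, 254, 125, 255, 243, 255, 127, 255, 249, 247, 54, 190, 190, 184,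
  127, 245, 255, 251, 125, 255, 247, 251, 127, 255, 253, 243]

def Q53_C : List ℕ := [19, 37, 54, 75, 89, 90, 142, 184, 226, 110, 124, 157, 171, 199, 205, 213,
  214, 220, 233, 236, 241, 244]

def Q53_L : List ℕ := [15, 29, 30, 43, 46, 57, 58, 60, 71, 77, 78, 85, 86, 92, 99, 102, 105,
  106, 108, 113, 114, 116, 120, 135, 139, 141, 149, 150, 153, 154, 156, 163, 166, 169, 170, 172,
  177, 178, 180, 195, 197, 198, 201, 202, 204, 209, 210, 212, 216, 225, 228, 232, 240]

theorem Q53_rel : relList 4 add4 mul4 4 Q53_rows = Q53_R := by decide +kernel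

theorem Q53_row : ∀ row ∈ Q53_rows, row.length = 4 ∧ ∀ a ∈ row, a < 4 := by decide

theorem Q53_hb {K : Type} [Field K] [Fintype K] [DecidableEq K] (hc : Fintype.card K = 4)
    (ω : K) (hω : ω ^ 2 = ω + 1) : HasBases (colMatroid (Q53 ω)) Q53_L ∧
    (colMatroid (Q53 ω)).eRank = (4 : ℕ) :=
  hasBases_of (r := 4) (k := 4) (code4 hc ω hω) (Q53 ω) Q53_rows (by decide) Q53_row
    (by intro i j; fin_cases i <;> fin_cases j <;> rfl)
    (R := Q53_R) (C := Q53_C) (L := Q53_L) Q53_rel (by decide +kernel)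
    (by decide +kernel)

theorem Q53_len : Q53_L.length = 53 := by decide +kernel

theorem Q53_fail : failB Q53_L [1, 5, 2, 2, 3, 2, 1, 1] 0 7 = true := by decide +kernel

/-- the matrix `D` of a quaternary matroid with 54 bases -/
def Q54a {K : Type} [Field K] (ω : K) : Matrix (Fin 4) (Fin 4) K :=
  !![1, 1, 1, 1; 1, ω, ω, 0; 0, 1, 0, 1; 0, 0, 1, 1]

def Q54a_rows : List (List ℕ) := [[1, 1, 1, 1], [1, 2, 2, 0], [0, 1, 0, 1], [0, 0, 1, 1]]

def Q54a_R : List ℕ := [141, 141, 141, 75, 198, 207, 207, 75, 207, 198, 207, 75, 207, 207, 198,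
  39, 170, 175, 175, 108, 225, 237, 237, 111, 235, 231, 238, 111, 235, 238, 231, 39, 175, 170,
  175, 111, 231, 235, 238, 108, 237, 225, 237, 111, 238, 235, 231, 39, 175, 175, 170, 111, 231,
  238, 235, 111, 238, 231, 235, 108, 237, 237, 225, 19, 158, 159, 159, 90, 215, 223, 223, 91,
  223, 215, 222, 89, 221, 220, 213, 54, 187, 191, 191, 127, 242, 255, 255, 125, 249, 244, 253,
  127, 251, 255, 246, 55, 191, 187, 190, 125, 245, 248, 253, 127, 254, 243, 255, 126, 255, 251,
  247, 53, 189, 188, 185, 127, 247, 255, 250, 126, 255, 247, 251, 127, 254, 255, 243, 19, 159,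
  158, 159, 89, 213, 221, 220, 90, 223, 215, 223, 91, 222, 223, 215, 53, 185, 189, 188, 127,
  243, 254, 255, 127, 250, 247, 255, 126, 251, 255, 247, 54, 191, 187, 191, 127, 246, 251, 255,
  127, 255, 242, 255, 125, 253, 249, 244, 55, 190, 191, 187, 126, 247, 255, 251, 125, 253, 245,
  248, 127, 255, 254, 243, 19, 159, 159, 158, 91, 215, 222, 223, 89, 220, 213, 221, 90, 223,
  223, 215, 55, 187, 190, 191, 127, 243, 255, 254, 126, 251, 247, 255, 125, 248, 253, 245, 53,
  188, 185, 189, 126, 247, 251, 255, 127, 255, 243, 254, 127, 255, 250, 247, 54, 191, 191, 187,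
  125, 244, 253, 249, 127, 255, 246, 251, 127, 255, 255, 242]

def Q54a_C : List ℕ := [19, 39, 53, 54, 75, 89, 90, 108, 141, 170, 198, 225, 158, 185, 188, 213,
  220, 242, 244, 248]

def Q54a_L : List ℕ := [15, 29, 30, 43, 45, 46, 57, 58, 60, 71, 77, 78, 85, 86, 92, 99, 101,
  102, 105, 106, 113, 114, 116, 120, 135, 139, 142, 149, 150, 153, 154, 156, 163, 165, 166, 169,
  172, 177, 178, 180, 184, 195, 197, 201, 202, 204, 209, 210, 212, 216, 226, 228, 232, 240]

theorem Q54a_rel : relList 4 add4 mul4 4 Q54a_rows = Q54a_R := by decide +kernel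

theorem Q54a_row : ∀ row ∈ Q54a_rows, row.length = 4 ∧ ∀ a ∈ row, a < 4 := by decide

theorem Q54a_hb {K : Type} [Field K] [Fintype K] [DecidableEq K] (hc : Fintype.card K = 4)
    (ω : K) (hω : ω ^ 2 = ω + 1) : HasBases (colMatroid (Q54a ω)) Q54a_L ∧
    (colMatroid (Q54a ω)).eRank = (4 : ℕ) :=
  hasBases_of (r := 4) (k := 4) (code4 hc ω hω) (Q54a ω) Q54a_rows (by decide) Q54a_row
    (by intro i j; fin_cases i <;> fin_cases j <;> rfl)
    (R := Q54a_R) (C := Q54a_C) (L := Q54a_L) Q54a_rel (by decide +kernel)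
    (by decide +kernel)

theorem Q54a_len : Q54a_L.length = 54 := by decide +kernel

theorem Q54a_fail : failB Q54a_L [6, 6, 1, 1, 1, 1, 1, 1] 4 7 = true := by decide +kernel

/-- the matrix `D` of a quaternary matroid with 54 bases -/
def Q54b {K : Type} [Field K] (ω : K) : Matrix (Fin 4) (Fin 4) K :=
  !![1, 1, 0, 1; 1, 0, 1, 1; 0, 1, 1, 1; 0, 0, 1, ω]

def Q54b_rows : List (List ℕ) := [[1, 1, 0, 1], [1, 0, 1, 1], [0, 1, 1, 1], [0, 0, 1, 2]]

def Q54b_R : List ℕ := [143, 143, 143, 78, 201, 207, 199, 78, 199, 201, 207, 78, 207, 199, 201,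
  37, 170, 175, 175, 107, 236, 239, 231, 111, 230, 237, 235, 111, 238, 227, 237, 37, 175, 170,
  175, 111, 237, 238, 227, 107, 231, 236, 239, 111, 235, 230, 237, 37, 175, 175, 170, 111, 237,
  235, 230, 111, 227, 237, 238, 107, 239, 231, 236, 19, 156, 159, 159, 93, 218, 223, 215, 95,
  214, 219, 221, 95, 222, 213, 219, 54, 185, 191, 191, 120, 255, 255, 247, 126, 247, 255, 249,
  126, 255, 241, 255, 55, 189, 187, 190, 125, 255, 255, 242, 123, 247, 255, 252, 127, 251, 245,
  254, 55, 189, 190, 187, 125, 255, 250, 247, 127, 243, 254, 253, 123, 255, 244, 255, 19, 159,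
  156, 159, 95, 219, 222, 213, 93, 215, 218, 223, 95, 221, 214, 219, 55, 187, 189, 190, 123,
  255, 255, 244, 125, 247, 255, 250, 127, 253, 243, 254, 54, 191, 185, 191, 126, 255, 255, 241,
  120, 247, 255, 255, 126, 249, 247, 255, 55, 190, 189, 187, 127, 254, 251, 245, 125, 242, 255,
  255, 123, 252, 247, 255, 19, 159, 159, 156, 95, 219, 221, 214, 95, 213, 219, 222, 93, 223,
  215, 218, 55, 187, 190, 189, 123, 255, 252, 247, 127, 245, 254, 251, 125, 255, 242, 255, 55,
  190, 187, 189, 127, 254, 253, 243, 123, 244, 255, 255, 125, 250, 247, 255, 54, 191, 191, 185,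
  126, 255, 249, 247, 126, 241, 255, 255, 120, 255, 247, 255]

def Q54b_C : List ℕ := [19, 37, 54, 78, 120, 156, 170, 201, 93, 107, 143, 185, 199, 213, 214,
  218, 227, 230, 236, 241, 242, 244]

def Q54b_L : List ℕ := [15, 29, 30, 43, 46, 57, 58, 60, 71, 75, 77, 85, 86, 89, 90, 92, 99, 102,
  105, 106, 108, 113, 114, 116, 135, 139, 141, 142, 149, 150, 153, 154, 163, 166, 169, 172, 177,
  178, 180, 184, 195, 197, 198, 202, 204, 209, 210, 212, 216, 225, 226, 228, 232, 240]

theorem Q54b_rel : relList 4 add4 mul4 4 Q54b_rows = Q54b_R := by decide +kernel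

theorem Q54b_row : ∀ row ∈ Q54b_rows, row.length = 4 ∧ ∀ a ∈ row, a < 4 := by decide

theorem Q54b_hb {K : Type} [Field K] [Fintype K] [DecidableEq K] (hc : Fintype.card K = 4)
    (ω : K) (hω : ω ^ 2 = ω + 1) : HasBases (colMatroid (Q54b ω)) Q54b_L ∧
    (colMatroid (Q54b ω)).eRank = (4 : ℕ) :=
  hasBases_of (r := 4) (k := 4) (code4 hc ω hω) (Q54b ω) Q54b_rows (by decide) Q54b_row
    (by intro i j; fin_cases i <;> fin_cases j <;> rfl)
    (R := Q54b_R) (C := Q54b_C) (L := Q54b_L) Q54b_rel (by decide +kernel)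
    (by decide +kernel)

theorem Q54b_len : Q54b_L.length = 54 := by decide +kernel

theorem Q54b_fail : failB Q54b_L [1, 6, 6, 1, 6, 6, 1, 1] 0 3 = true := by decide +kernel

/-- the matrix `D` of a quaternary matroid with 56 bases -/
def Q56 {K : Type} [Field K] (ω : K) : Matrix (Fin 4) (Fin 4) K :=
  !![1, 1, 0, 0; 1, 0, 1, 1; 0, 1, ω, 1; 0, 1, 1, ω]

def Q56_rows : List (List ℕ) := [[1, 1, 0, 0], [1, 0, 1, 1], [0, 1, 2, 1], [0, 1, 1, 2]]

def Q56_R : List ℕ := [142, 142, 142, 78, 204, 202, 198, 78, 198, 204, 202, 78, 202, 198, 204,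
  45, 171, 175, 167, 103, 237, 239, 235, 111, 239, 225, 239, 107, 231, 239, 237, 45, 167, 171,
  175, 107, 237, 231, 239, 103, 235, 237, 239, 111, 239, 239, 225, 45, 175, 167, 171, 111, 225,
  239, 239, 107, 239, 237, 231, 103, 239, 235, 237, 19, 157, 159, 159, 93, 223, 219, 215, 95,
  215, 223, 217, 95, 219, 213, 223, 62, 184, 190, 182, 116, 254, 254, 250, 126, 254, 242, 252,
  122, 246, 252, 254, 63, 181, 187, 191, 121, 255, 247, 255, 119, 251, 255, 253, 127, 255, 253,
  243, 63, 189, 183, 187, 125, 243, 255, 255, 123, 255, 255, 245, 119, 255, 249, 255, 19, 159,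
  157, 159, 95, 223, 219, 213, 93, 215, 223, 219, 95, 217, 215, 223, 63, 187, 189, 183, 119,
  255, 255, 249, 125, 255, 243, 255, 123, 245, 255, 255, 62, 182, 184, 190, 122, 254, 246, 252,
  116, 250, 254, 254, 126, 252, 254, 242, 63, 191, 181, 187, 127, 243, 255, 253, 121, 255, 255,
  247, 119, 253, 251, 255, 19, 159, 159, 157, 95, 223, 217, 215, 95, 213, 223, 219, 93, 219,
  215, 223, 63, 187, 191, 181, 119, 255, 253, 251, 127, 253, 243, 255, 121, 247, 255, 255, 63,
  183, 187, 189, 123, 255, 245, 255, 119, 249, 255, 255, 125, 255, 255, 243, 62, 190, 182, 184,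
  126, 242, 252, 254, 122, 252, 254, 246, 116, 254, 250, 254]

def Q56_C : List ℕ := [19, 45, 78, 116, 142, 184, 198, 202, 204, 225, 62, 93, 103, 107, 121,
  122, 157, 167, 171, 181, 182, 213, 217, 242]

def Q56_L : List ℕ := [15, 29, 30, 39, 43, 46, 53, 54, 57, 58, 60, 71, 75, 77, 85, 86, 89, 90,
  92, 99, 101, 102, 105, 106, 108, 113, 114, 120, 135, 139, 141, 149, 150, 153, 154, 156, 163,
  165, 166, 169, 170, 172, 177, 178, 180, 195, 197, 201, 209, 210, 212, 216, 226, 228, 232, 240]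

theorem Q56_rel : relList 4 add4 mul4 4 Q56_rows = Q56_R := by decide +kernel

theorem Q56_row : ∀ row ∈ Q56_rows, row.length = 4 ∧ ∀ a ∈ row, a < 4 := by decide

theorem Q56_hb {K : Type} [Field K] [Fintype K] [DecidableEq K] (hc : Fintype.card K = 4)
    (ω : K) (hω : ω ^ 2 = ω + 1) : HasBases (colMatroid (Q56 ω)) Q56_L ∧
    (colMatroid (Q56 ω)).eRank = (4 : ℕ) :=
  hasBases_of (r := 4) (k := 4) (code4 hc ω hω) (Q56 ω) Q56_rows (by decide) Q56_row
    (by intro i j; fin_cases i <;> fin_cases j <;> rfl)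
    (R := Q56_R) (C := Q56_C) (L := Q56_L) Q56_rel (by decide +kernel)
    (by decide +kernel)

theorem Q56_len : Q56_L.length = 56 := by decide +kernel

theorem Q56_fail : failB Q56_L [1, 1, 1, 1, 1, 1, 1, 1] 1 5 = true := by decide +kernel

/-- the matrix `D` of a quaternary matroid with 57 bases -/
def Q57 {K : Type} [Field K] (ω : K) : Matrix (Fin 4) (Fin 4) K :=
  !![1, 1, 1, 1; 1, ω, 0, 1; 0, 1, 1, ω; 0, 0, 1, 1]

def Q57_rows : List (List ℕ) := [[1, 1, 1, 1], [1, 2, 0, 1], [0, 1, 1, 2], [0, 0, 1, 1]]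

def Q57_R : List ℕ := [143, 143, 143, 77, 198, 207, 203, 77, 203, 198, 207, 77, 207, 203, 198,
  39, 174, 173, 171, 106, 231, 237, 239, 111, 239, 225, 238, 111, 235, 236, 231, 39, 171, 174,
  173, 111, 231, 235, 236, 106, 239, 231, 237, 111, 238, 239, 225, 39, 173, 171, 174, 111, 225,
  238, 239, 111, 236, 231, 235, 106, 237, 239, 231, 19, 156, 159, 159, 94, 213, 223, 219, 95,
  217, 215, 222, 95, 221, 218, 215, 54, 191, 191, 185, 123, 246, 255, 253, 127, 255, 242, 253,
  127, 251, 255, 244, 55, 187, 189, 190, 127, 247, 248, 255, 123, 254, 245, 255, 126, 255, 253,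
  243, 53, 191, 186, 191, 125, 243, 255, 254, 124, 255, 247, 251, 121, 254, 255, 247, 19, 159,
  156, 159, 95, 215, 221, 218, 94, 219, 213, 223, 95, 222, 217, 215, 53, 191, 191, 186, 121,
  247, 254, 255, 125, 254, 243, 255, 124, 251, 255, 247, 54, 185, 191, 191, 127, 244, 251, 255,
  123, 253, 246, 255, 127, 253, 255, 242, 55, 190, 187, 189, 126, 243, 255, 253, 127, 255, 247,
  248, 123, 255, 254, 245, 19, 159, 159, 156, 95, 215, 222, 217, 95, 218, 215, 221, 94, 223,
  219, 213, 55, 189, 190, 187, 123, 245, 255, 254, 126, 253, 243, 255, 127, 248, 255, 247, 53,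
  186, 191, 191, 124, 247, 251, 255, 121, 255, 247, 254, 125, 255, 254, 243, 54, 191, 185, 191,
  127, 242, 253, 255, 127, 255, 244, 251, 123, 255, 253, 246]

def Q57_C : List ℕ := [19, 39, 53, 54, 77, 106, 156, 198, 225, 94, 121, 124, 143, 171, 173, 174,
  185, 186, 203, 213, 217, 218, 236, 242, 244, 248]

def Q57_L : List ℕ := [15, 29, 30, 43, 45, 46, 57, 58, 60, 71, 75, 78, 85, 86, 89, 90, 92, 99,
  101, 102, 105, 108, 113, 114, 116, 120, 135, 139, 141, 142, 149, 150, 153, 154, 163, 165, 166,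
  169, 170, 172, 177, 178, 180, 184, 195, 197, 201, 202, 204, 209, 210, 212, 216, 226, 228, 232,
  240]

theorem Q57_rel : relList 4 add4 mul4 4 Q57_rows = Q57_R := by decide +kernel

theorem Q57_row : ∀ row ∈ Q57_rows, row.length = 4 ∧ ∀ a ∈ row, a < 4 := by decide

theorem Q57_hb {K : Type} [Field K] [Fintype K] [DecidableEq K] (hc : Fintype.card K = 4)
    (ω : K) (hω : ω ^ 2 = ω + 1) : HasBases (colMatroid (Q57 ω)) Q57_L ∧
    (colMatroid (Q57 ω)).eRank = (4 : ℕ) :=
  hasBases_of (r := 4) (k := 4) (code4 hc ω hω) (Q57 ω) Q57_rows (by decide) Q57_row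
    (by intro i j; fin_cases i <;> fin_cases j <;> rfl)
    (R := Q57_R) (C := Q57_C) (L := Q57_L) Q57_rel (by decide +kernel)
    (by decide +kernel)

theorem Q57_len : Q57_L.length = 57 := by decide +kernel

theorem Q57_fail : failB Q57_L [3, 4, 4, 1, 1, 1, 1, 1] 4 6 = true := by decide +kernel

end Pool.Agent.Run7.h133.Ray.Q8
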