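import Mathlib

set_option autoImplicit false

/-!
# The group behind a representation of the non-Fano matroid
-/

namespace Pool.Agent.Run7.h133.Cf

variable {Ω S : Type}

/-- any two of the variables `X i`, `X j`, `X k` determine the third -/
def Line (X : Fin 7 → Ω → S) (i j k : Fin 7) : Prop :=
  (∀ ω ω', X i ω = X i ω' → X j ω = X j ω' → X k ω = X k ω') ∧
  (∀ ω ω', X i ω = X i ω' → X k ω = X k ω' → X j ω = X j ω') ∧
  (∀ ω ω', X j ω = X j ω' → X k ω = X k ω' → X i ω = X i ω')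

/-- all combinations of the values of `X i`, `X j`, `X k` occur -/
def Full (X : Fin 7 → Ω → S) (i j k : Fin 7) : Prop :=
  ∀ ω₁ ω₂ ω₃, ∃ ω, X i ω = X i ω₁ ∧ X j ω = X j ω₂ ∧ X k ω = X k ω₃

theorem nonfano_even {X : Fin 7 → Ω → S} (ω₀ : Ω) (l1 : Line X 0 1 3) (l2 : Line X 1 2 4)
    (l3 : Line X 0 2 5) (l4 : Line X 0 4 6) (l5 : Line X 1 5 6) (l6 : Line X 2 3 6)
    (f1 : Full X 0 1 2) (f2 : Full X 6 1 2) (f3 : Full X 6 0 2) (f4 : Full X 6 0 1)
    (hdef : ∀ ω ω', X 3 ω = X 3 ω' → X 4 ω = X 4 ω' → X 5 ω = X 5 ω' → X 0 ω = X 0 ω')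
    (hfin : Finite (Set.range (X 6))) (hcard : 2 ∣ Nat.card (Set.range (X 6))) : False := by
  classical
  -- functional dependencies
  have dg : ∀ ω ω', X 0 ω = X 0 ω' → X 1 ω = X 1 ω' → X 2 ω = X 2 ω' → X 6 ω = X 6 ω' :=
    fun ω ω' h0 h1 h2 => l4.1 ω ω' h0 (l2.1 ω ω' h1 h2)
  have da : ∀ ω ω', X 6 ω = X 6 ω' → X 1 ω = X 1 ω' → X 2 ω = X 2 ω' → X 0 ω = X 0 ω' :=
    fun ω ω' h6 h1 h2 => l4.2.2 ω ω' (l2.1 ω ω' h1 h2) h6
  have db : ∀ ω ω', X 6 ω = X 6 ω' → X 0 ω = X 0 ω' → X 2 ω = X 2 ω' → X 1 ω = X 1 ω' :=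
    fun ω ω' h6 h0 h2 => l5.2.2 ω ω' (l3.1 ω ω' h0 h2) h6
  have dc : ∀ ω ω', X 6 ω = X 6 ω' → X 0 ω = X 0 ω' → X 1 ω = X 1 ω' → X 2 ω = X 2 ω' :=
    fun ω ω' h6 h0 h1 => l6.2.2 ω ω' (l1.1 ω ω' h0 h1) h6
  have ha : ∀ u : Set.range (X 6), ∃ ω, X 6 ω = u.1 ∧ X 1 ω = X 1 ω₀ ∧ X 2 ω = X 2 ω₀ := by
    rintro ⟨_, ω, rfl⟩
    exact f2 ω ω₀ ω₀
  have hb : ∀ u : Set.range (X 6), ∃ ω, X 6 ω = u.1 ∧ X 0 ω = X 0 ω₀ ∧ X 2 ω = X 2 ω₀ := by
    rintro ⟨_, ω, rfl⟩
    exact f3 ω ω₀ ω₀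
  have hc : ∀ u : Set.range (X 6), ∃ ω, X 6 ω = u.1 ∧ X 0 ω = X 0 ω₀ ∧ X 1 ω = X 1 ω₀ := by
    rintro ⟨_, ω, rfl⟩
    exact f4 ω ω₀ ω₀
  choose pa pa6 pa1 pa2 using ha
  choose pb pb6 pb0 pb2 using hb
  choose pc pc6 pc0 pc1 using hc
  have htri : ∀ u v w : Set.range (X 6), ∃ ω, X 0 ω = X 0 (pa u) ∧ X 1 ω = X 1 (pb v) ∧
      X 2 ω = X 2 (pc w) := fun u v w => f1 (pa u) (pb v) (pc w)
  choose tri t0 t1 t2 using htri
  let o : Set.range (X 6) := ⟨X 6 ω₀, ω₀, rfl⟩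
  let G : Set.range (X 6) → Set.range (X 6) → Set.range (X 6) → Set.range (X 6) :=
    fun u v w => ⟨X 6 (tri u v w), _, rfl⟩
  have a0 : X 0 (pa o) = X 0 ω₀ := da _ _ (pa6 o) (pa1 o) (pa2 o)
  have b0 : X 1 (pb o) = X 1 ω₀ := db _ _ (pb6 o) (pb0 o) (pb2 o)
  have c0 : X 2 (pc o) = X 2 ω₀ := dc _ _ (pc6 o) (pc0 o) (pc1 o)
  have Gu : ∀ u, G u o o = u := by
    intro u
    apply Subtype.ext
    show X 6 (tri u o o) = u.1
    rw [← pa6 u]
    exact dg _ _ (t0 u o o) ((t1 u o o).trans (b0.trans (pa1 u).symm))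
      ((t2 u o o).trans (c0.trans (pa2 u).symm))
  have Gv : ∀ v, G o v o = v := by
    intro v
    apply Subtype.ext
    show X 6 (tri o v o) = v.1
    rw [← pb6 v]
    exact dg _ _ ((t0 o v o).trans (a0.trans (pb0 v).symm)) (t1 o v o)
      ((t2 o v o).trans (c0.trans (pb2 v).symm))
  have Gw : ∀ w, G o o w = w := by
    intro w
    apply Subtype.ext
    show X 6 (tri o o w) = w.1
    rw [← pc6 w]
    exact dg _ _ ((t0 o o w).trans (a0.trans (pc0 w).symm))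
      ((t1 o o w).trans (b0.trans (pc1 w).symm)) (t2 o o w)
  have G6 : ∀ {u v w u' v' w'}, G u v w = G u' v' w' → X 6 (tri u v w) = X 6 (tri u' v' w') :=
    fun h => congrArg Subtype.val h
  have k3 : ∀ {u v w u' v'}, G u v w = G u' v' w → X 3 (tri u v w) = X 3 (tri u' v' w) := by
    intro u v w u' v' h
    exact l6.2.1 _ _ ((t2 u v w).trans (t2 u' v' w).symm) (G6 h)
  have k3' : ∀ u v w w', X 3 (tri u v w) = X 3 (tri u v w') := by
    intro u v w w'
    exact l1.1 _ _ ((t0 u v w).trans (t0 u v w').symm) ((t1 u v w).trans (t1 u v w').symm)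
  have k4 : ∀ {u v w v' w'}, G u v w = G u v' w' → X 4 (tri u v w) = X 4 (tri u v' w') := by
    intro u v w v' w' h
    exact l4.2.1 _ _ ((t0 u v w).trans (t0 u v' w').symm) (G6 h)
  have k4' : ∀ u u' v w, X 4 (tri u v w) = X 4 (tri u' v w) := by
    intro u u' v w
    exact l2.1 _ _ ((t1 u v w).trans (t1 u' v w).symm) ((t2 u v w).trans (t2 u' v w).symm)
  have k5 : ∀ {u v w u' w'}, G u v w = G u' v w' → X 5 (tri u v w) = X 5 (tri u' v w') := by
    intro u v w u' w' h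
    exact l5.2.1 _ _ ((t1 u v w).trans (t1 u' v w').symm) (G6 h)
  have k5' : ∀ u v v' w, X 5 (tri u v w) = X 5 (tri u v' w) := by
    intro u v v' w
    exact l3.1 _ _ ((t0 u v w).trans (t0 u v' w).symm) ((t2 u v w).trans (t2 u v' w).symm)
  have P1 : ∀ {u v w u' v'} (w'), G u v w = G u' v' w → G u v w' = G u' v' w' := by
    intro u v w u' v' w' h
    apply Subtype.ext
    exact l6.1 _ _ ((t2 u v w').trans (t2 u' v' w').symm)
      ((k3' u v w' w).trans ((k3 h).trans (k3' u' v' w w')))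
  have P2 : ∀ {u v w v' w'} (u'), G u v w = G u v' w' → G u' v w = G u' v' w' := by
    intro u v w v' w' u' h
    apply Subtype.ext
    exact l4.1 _ _ ((t0 u' v w).trans (t0 u' v' w').symm)
      ((k4' u' u v w).trans ((k4 h).trans (k4' u u' v' w')))
  have P3 : ∀ {u v w u' w'} (v'), G u v w = G u' v w' → G u v' w = G u' v' w' := by
    intro u v w u' w' v' h
    apply Subtype.ext
    exact l5.1 _ _ ((t1 u v' w).trans (t1 u' v' w').symm)
      ((k5' u v' v w).trans ((k5 h).trans (k5' u' v v' w')))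
  have ea : ∀ u v w, G u v w = G (G u v o) o w := fun u v w => P1 w (Gu (G u v o)).symm
  have eb : ∀ u v w, G u v w = G u (G o v w) o := fun u v w => P2 u (Gv (G o v w)).symm
  have ec : ∀ u v w, G u v w = G (G u o w) v o := fun u v w => P3 v (Gu (G u o w)).symm
  have s1 : ∀ v w, G o v w = G w v o := by
    intro v w
    rw [ec o v w, Gw]
  have s2 : ∀ v w, G v o w = G w v o := by
    intro v w
    have h := ea o v w
    rw [Gv] at h
    rw [← h, s1]
  have star : ∀ u v w, G w (G u v o) o = G u (G w v o) o := by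
    intro u v w
    have h1 := ea u v w
    rw [s2] at h1
    have h2 := eb u v w
    rw [s1] at h2
    rw [← h1, h2]
  have comm : ∀ u w, G w u o = G u w o := by
    intro u w
    have h := star u o w
    rwa [Gu, Gu] at h
  have assoc : ∀ u v w, G (G u v o) w o = G u (G v w o) o := by
    intro u v w
    rw [comm w (G u v o), star u v w, comm v w]
  have canc : ∀ u u' v, G u v o = G u' v o → u = u' := by
    intro u u' v h
    have h0 : X 0 (tri u v o) = X 0 (tri u' v o) :=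
      da _ _ (G6 h) ((t1 u v o).trans (t1 u' v o).symm) ((t2 u v o).trans (t2 u' v o).symm)
    rw [t0, t0] at h0
    apply Subtype.ext
    rw [← pa6 u, ← pa6 u']
    exact dg _ _ h0 ((pa1 u).trans (pa1 u').symm) ((pa2 u).trans (pa2 u').symm)
  have hinv : ∀ v, ∃ u, G u v o = o := by
    intro v
    have h1 : Function.Injective fun u => G u v o := fun u u' h => canc u u' v h
    exact Finite.injective_iff_surjective.1 h1 o
  choose inv hinv using hinv
  letI : Mul (Set.range (X 6)) := ⟨fun u v => G u v o⟩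
  letI : One (Set.range (X 6)) := ⟨o⟩
  letI : Inv (Set.range (X 6)) := ⟨inv⟩
  letI : Group (Set.range (X 6)) := Group.ofLeftAxioms (fun u v w => assoc u v w)
    (fun u => Gv u) (fun u => hinv u)
  haveI : Fact (Nat.Prime 2) := ⟨Nat.prime_two⟩
  obtain ⟨t, ht⟩ := exists_prime_orderOf_dvd_card' (G := Set.range (X 6)) 2 hcard
  have ht2 : t * t = 1 := by
    have := pow_orderOf_eq_one t
    rwa [ht, pow_two] at this
  have ht1 : t ≠ 1 := by
    intro h
    rw [h, orderOf_one] at ht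
    norm_num at ht
  have htt : G t t o = o := ht2
  have goo : G o o o = o := Gu o
  have e3 : X 3 (tri t t t) = X 3 (tri o o o) :=
    (k3' t t t o).trans (k3 (htt.trans goo.symm))
  have e4 : X 4 (tri t t t) = X 4 (tri o o o) :=
    (k4' t o t t).trans (k4 (((s1 t t).trans htt).trans goo.symm))
  have e5 : X 5 (tri t t t) = X 5 (tri o o o) :=
    (k5' t t o t).trans (k5 (((s2 t t).trans htt).trans goo.symm))
  have e0 := hdef _ _ e3 e4 e5
  rw [t0, t0, a0] at e0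
  apply ht1
  apply Subtype.ext
  show t.1 = X 6 ω₀
  rw [← pa6 t]
  exact dg _ _ e0 (pa1 t) (pa2 t)

end Pool.Agent.Run7.h133.Cf
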