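import Pool.Agent.Run7.h133.CfEntC
import Pool.Agent.Run7.h133.CfGrp

set_option autoImplicit false

/-!
# No even number is in the p-characteristic set of the non-Fano matroid (countable alphabets)
-/

namespace Pool.Agent.Run7.h133.CfC

open Pool.Agent.Run7.h133.Cf (Line Full nonfano_even)

section pair

variable {Ω N S : Type} {p : Ω → ℝ} {X : N → Ω → S}

/-- the terms of the entropy of `X_A` -/
noncomputable def tm (p : Ω → ℝ) (X : N → Ω → S) (A : Set N) (ω : Ω) : ℝ :=
  p ω * (-Real.log (prob p X A ω))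

/-- two independent variables -/
theorem pair_full (hp : ∀ ω, 0 ≤ p ω) (hp1 : HasSum p 1) {i j : N} {a b : ℝ}
    (hi : HasSum (tm p X {i}) a) (hj : HasSum (tm p X {j}) b)
    (h : HasSum (tm p X {i, j}) (a + b)) (ω₁ ω₂ : Ω) (h1 : 0 < p ω₁)
    (h2 : 0 < p ω₂) : ∃ ω, 0 < p ω ∧ X i ω = X i ω₁ ∧ X j ω = X j ω₂ := by
  have hu : ({i} : Set N) ∪ {j} = {i, j} := by ext x; simp [or_comm]
  rw [← hu] at h
  obtain ⟨ω, hω, h3, h4⟩ := (indep_of_entropy hp hp1 hi hj h).2 ω₁ ω₂ h1 h2
  exact ⟨ω, hω, h3 i rfl, h4 j rfl⟩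

theorem pair_prob (hp : ∀ ω, 0 ≤ p ω) (hp1 : HasSum p 1) {i j : N} {a b : ℝ}
    (hi : HasSum (tm p X {i}) a) (hj : HasSum (tm p X {j}) b)
    (h : HasSum (tm p X {i, j}) (a + b)) (ω : Ω) (h1 : 0 < p ω) :
    prob p X {i, j} ω = prob p X {i} ω * prob p X {j} ω := by
  have hu : ({i} : Set N) ∪ {j} = {i, j} := by ext x; simp [or_comm]
  rw [← hu] at h ⊢
  exact (indep_of_entropy hp hp1 hi hj h).1 ω h1

/-- the variables of a line have the same uniform distribution -/
theorem line_prob (hp : ∀ ω, 0 ≤ p ω) (hp1 : HasSum p 1) {i j k : N} {a : ℝ}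
    (hi : HasSum (tm p X {i}) a) (hj : HasSum (tm p X {j}) a) (hk : HasSum (tm p X {k}) a)
    (hij : HasSum (tm p X {i, j}) (a + a)) (hik : HasSum (tm p X {i, k}) (a + a))
    (hjk : HasSum (tm p X {j, k}) (a + a)) (h3 : HasSum (tm p X {i, j, k}) (a + a))
    (ω₁ ω₂ : Ω) (h1 : 0 < p ω₁) (h2 : 0 < p ω₂) : prob p X {i} ω₁ = prob p X {j} ω₂ := by
  obtain ⟨ω, hω, h4, h5⟩ := pair_full hp hp1 hi hj hij ω₁ ω₂ h1 h2
  have s1 : ({i, j} : Set N) ⊆ {i, j, k} := by intro x; simp; tauto
  have s2 : ({i, k} : Set N) ⊆ {i, j, k} := by intro x; simp; tauto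
  have s3 : ({j, k} : Set N) ⊆ {i, j, k} := by intro x; simp; tauto
  have a1 := prob_eq_of_entropy hp hp1 s1 hij h3 hω
  have a2 := prob_eq_of_entropy hp hp1 s2 hik h3 hω
  have a3 := prob_eq_of_entropy hp hp1 s3 hjk h3 hω
  rw [pair_prob hp hp1 hi hj hij ω hω] at a1
  rw [pair_prob hp hp1 hi hk hik ω hω] at a2
  rw [pair_prob hp hp1 hj hk hjk ω hω] at a3
  have pi := prob_pos (X := X) hp hp1 {i} hω
  have pj := prob_pos (X := X) hp hp1 {j} hω
  have pk := prob_pos (X := X) hp hp1 {k} hω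
  have b1 : prob p X {j} ω = prob p X {k} ω := by
    have : prob p X {i} ω * prob p X {j} ω = prob p X {i} ω * prob p X {k} ω := by
      rw [← a1, a2]
    exact mul_left_cancel₀ pi.ne' this
  have b2 : prob p X {i} ω = prob p X {k} ω := by
    have : prob p X {j} ω * prob p X {i} ω = prob p X {j} ω * prob p X {k} ω := by
      rw [mul_comm, ← a1, a3]
    exact mul_left_cancel₀ pj.ne' this
  have c1 : prob p X {i} ω₁ = prob p X {i} ω := by
    apply prob_congr
    rintro x rfl
    exact h4.symm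
  have c2 : prob p X {j} ω₂ = prob p X {j} ω := by
    apply prob_congr
    rintro x rfl
    exact h5.symm
  rw [c1, c2, b2, b1]

end pair

theorem no_even {Ω S : Type} {p : Ω → ℝ} {X : Fin 7 → Ω → S}
    (hp : ∀ ω, 0 ≤ p ω) (hp1 : HasSum p 1) {v : ℕ} (hv : 2 ≤ v) (hv2 : 2 ∣ v)
    (ρ : Set (Fin 7) → ℕ) (hH : ∀ A, HasSum (tm p X A) (Real.log v * ρ A))
    (r1 : ∀ i, ρ {i} = 1) (r2 : ∀ i j, i ≠ j → ρ {i, j} = 2)
    (k1 : ρ {0, 1, 3} = 2) (k2 : ρ {1, 2, 4} = 2) (k3 : ρ {0, 2, 5} = 2) (k4 : ρ {0, 4, 6} = 2)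
    (k5 : ρ {1, 5, 6} = 2) (k6 : ρ {2, 3, 6} = 2)
    (b1 : ρ {0, 1, 2} = 3) (b2 : ρ {6, 1, 2} = 3) (b3 : ρ {6, 0, 2} = 3) (b4 : ρ {6, 0, 1} = 3)
    (b5 : ρ {3, 4, 5} = 3) (b6 : ρ {3, 4, 5, 0} = 3) : False := by
  classical
  set L := Real.log v with hL
  have g1 : ∀ i, HasSum (tm p X {i}) L := by
    intro i
    have h := hH {i}
    rw [r1] at h
    simpa using h
  have g2 : ∀ i j, i ≠ j → HasSum (tm p X {i, j}) (L + L) := by
    intro i j hij
    have h := hH {i, j}
    rw [r2 i j hij] at h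
    have e : L * ((2 : ℕ) : ℝ) = L + L := by push_cast; ring
    rwa [e] at h
  have g3 : ∀ i j k, ρ {i, j, k} = 2 → HasSum (tm p X {i, j, k}) (L + L) := by
    intro i j k hr
    have h := hH {i, j, k}
    rw [hr] at h
    have e : L * ((2 : ℕ) : ℝ) = L + L := by push_cast; ring
    rwa [e] at h
  let Ω' := {ω : Ω // 0 < p ω}
  let Y : Fin 7 → Ω' → S := fun i ω => X i ω.1
  have hline : ∀ i j k : Fin 7, i ≠ j → i ≠ k → j ≠ k → ρ {i, j, k} = 2 → Line Y i j k := by
    intro i j k hij hik hjk hr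
    have s1 : ({i, j} : Set (Fin 7)) ⊆ {i, j, k} := by intro x; simp; tauto
    have s2 : ({i, k} : Set (Fin 7)) ⊆ {i, j, k} := by intro x; simp; tauto
    have s3 : ({j, k} : Set (Fin 7)) ⊆ {i, j, k} := by intro x; simp; tauto
    refine ⟨?_, ?_, ?_⟩
    · intro ω ω' h1 h2
      refine dep_of_entropy hp hp1 s1 (g2 i j hij) (g3 i j k hr) ω'.2 ω.2 ?_ k (by simp)
      intro x hx
      rcases hx with rfl | rfl
      · exact h1
      · exact h2
    · intro ω ω' h1 h2
      refine dep_of_entropy hp hp1 s2 (g2 i k hik) (g3 i j k hr) ω'.2 ω.2 ?_ j (by simp)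
      intro x hx
      rcases hx with rfl | rfl
      · exact h1
      · exact h2
    · intro ω ω' h1 h2
      refine dep_of_entropy hp hp1 s3 (g2 j k hjk) (g3 i j k hr) ω'.2 ω.2 ?_ i (by simp)
      intro x hx
      rcases hx with rfl | rfl
      · exact h1
      · exact h2
  have hfull : ∀ i j k : Fin 7, i ≠ j → ρ {i, j, k} = 3 → Full Y i j k := by
    intro i j k hij hr ω₁ ω₂ ω₃
    obtain ⟨ω, hω, h1, h2⟩ := pair_full hp hp1 (g1 i) (g1 j) (g2 i j hij) ω₁.1 ω₂.1 ω₁.2 ω₂.2
    have hu : ({i, j} : Set (Fin 7)) ∪ {k} = {i, j, k} := by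
      ext x; simp; tauto
    have h3 : HasSum (tm p X ({i, j} ∪ {k})) ((L + L) + L) := by
      have h := hH {i, j, k}
      rw [hr] at h
      rw [hu]
      have e : L * ((3 : ℕ) : ℝ) = (L + L) + L := by push_cast; ring
      rwa [e] at h
    obtain ⟨ω', hω', h4, h5⟩ := (indep_of_entropy hp hp1 (g2 i j hij) (g1 k) h3).2 ω ω₃.1 hω ω₃.2
    exact ⟨⟨ω', hω'⟩, (h4 i (by simp)).trans h1, (h4 j (by simp)).trans h2, h5 k rfl⟩
  -- an outcome of positive probability
  have hne : ∃ ω, 0 < p ω := by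
    by_contra hno
    push Not at hno
    have h0 : p = fun _ => 0 := by
      funext ω
      exact le_antisymm (hno ω) (hp ω)
    rw [h0] at hp1
    have := hp1.unique hasSum_zero
    exact one_ne_zero this
  obtain ⟨ω₀, hω₀⟩ := hne
  -- the distribution of `X 6` is uniform
  have hlp : ∀ ω, 0 < p ω → prob p X {6} ω = prob p X {0} ω₀ := by
    intro ω hω
    have hset : ({6, 0, 4} : Set (Fin 7)) = {0, 4, 6} := by ext x; simp; tauto
    refine line_prob hp hp1 (k := 4) (g1 6) (g1 0) (g1 4) (g2 6 0 (by decide))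
      (g2 6 4 (by decide)) (g2 0 4 (by decide)) ?_ ω ω₀ hω hω₀
    rw [hset]
    exact g3 0 4 6 k4
  set c := prob p X {0} ω₀ with hc
  have hcpos : 0 < c := prob_pos hp hp1 _ hω₀
  have hlogc : -Real.log c = Real.log v := by
    have h1 := g1 6
    have h2 : tm p X {6} = fun ω => p ω * (-Real.log c) := by
      funext ω
      unfold tm
      rcases (hp ω).eq_or_lt with h0 | h0
      · rw [← h0]; simp
      · rw [hlp ω h0]
    rw [h2] at h1
    have h3 := (hp1.mul_right (-Real.log c)).unique h1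
    rw [one_mul] at h3
    exact h3
  have hvpos : (0 : ℝ) < v := by
    have : 0 < v := by omega
    exact_mod_cast this
  have hcv : c * v = 1 := by
    have h1 : Real.log (c * v) = 0 := by
      rw [Real.log_mul hcpos.ne' hvpos.ne', ← hlogc]; ring
    have h2 : 0 < c * v := mul_pos hcpos hvpos
    exact Real.eq_one_of_pos_of_log_eq_zero h2 h1
  -- the sum over a finite set of values
  have hval : ∀ F : Finset S, (F : Set S) ⊆ Set.range (Y 6) →
      HasSum (fun ω => if X 6 ω ∈ F then p ω else 0) (F.card * c) := by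
    intro F hF
    have h1 : ∀ s ∈ F, HasSum (fun ω => if X 6 ω = s then p ω else 0) c := by
      intro s hs
      obtain ⟨ω₁, hω₁⟩ := hF (Finset.mem_coe.2 hs)
      have h2 := hlp ω₁.1 ω₁.2
      rw [← h2]
      unfold prob
      have h3 : (fun ω => if X 6 ω = s then p ω else 0) =
          fun ω => if ∀ i ∈ ({6} : Set (Fin 7)), X i ω = X i ω₁.1 then p ω else 0 := by
        funext ω
        have h4 : (∀ i ∈ ({6} : Set (Fin 7)), X i ω = X i ω₁.1) ↔ X 6 ω = s := by
          rw [← hω₁]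
          constructor
          · intro h; exact h 6 rfl
          · rintro h i rfl; exact h
        by_cases h5 : X 6 ω = s
        · rw [if_pos h5, if_pos (h4.2 h5)]
        · rw [if_neg h5, if_neg fun h => h5 (h4.1 h)]
      rw [h3]
      convert (ind_summable hp hp1
        fun ω => ∀ i ∈ ({6} : Set (Fin 7)), X i ω = X i ω₁.1).hasSum
    have h6 := hasSum_sum h1
    rw [Finset.sum_const, nsmul_eq_mul] at h6
    have h7 : (fun ω => ∑ s ∈ F, if X 6 ω = s then p ω else 0) =
        fun ω => if X 6 ω ∈ F then p ω else 0 := by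
      funext ω
      rw [Finset.sum_ite_eq]
    rwa [h7] at h6
  have hle : ∀ F : Finset S, (F : Set S) ⊆ Set.range (Y 6) → F.card ≤ v := by
    intro F hF
    have h1 : (F.card : ℝ) * c ≤ 1 := by
      refine hasSum_le (fun ω => ?_) (hval F hF) hp1
      show (if X 6 ω ∈ F then p ω else 0) ≤ p ω
      split_ifs
      · exact le_refl _
      · exact hp ω
    have h2 : (F.card : ℝ) ≤ v := by
      have h3 : (F.card : ℝ) * c * v ≤ 1 * v := mul_le_mul_of_nonneg_right h1 hvpos.le
      rw [mul_assoc, hcv, mul_one, one_mul] at h3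
      exact h3
    exact_mod_cast h2
  have hfin : (Set.range (Y 6)).Finite := by
    by_contra hinf
    obtain ⟨F, hF, hFc⟩ := Set.Infinite.exists_subset_card_eq hinf (v + 1)
    have := hle F hF
    omega
  have hcard : hfin.toFinset.card = v := by
    have h1 := hval hfin.toFinset (by rw [Set.Finite.coe_toFinset])
    have h2 : (fun ω => if X 6 ω ∈ hfin.toFinset then p ω else 0) = p := by
      funext ω
      split_ifs with h
      · rfl
      · rcases (hp ω).eq_or_lt with h0 | h0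
        · exact h0
        · exfalso
          apply h
          rw [Set.Finite.mem_toFinset]
          exact ⟨⟨ω, h0⟩, rfl⟩
    rw [h2] at h1
    have h3 := h1.unique hp1
    have h4 : (hfin.toFinset.card : ℝ) = v := by
      have h5 : (hfin.toFinset.card : ℝ) * c = v * c := by
        rw [h3, mul_comm, hcv]
      exact mul_right_cancel₀ hcpos.ne' h5
    exact_mod_cast h4
  refine nonfano_even (X := Y) ⟨ω₀, hω₀⟩ (hline 0 1 3 (by decide) (by decide) (by decide) k1)
    (hline 1 2 4 (by decide) (by decide) (by decide) k2)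
    (hline 0 2 5 (by decide) (by decide) (by decide) k3)
    (hline 0 4 6 (by decide) (by decide) (by decide) k4)
    (hline 1 5 6 (by decide) (by decide) (by decide) k5)
    (hline 2 3 6 (by decide) (by decide) (by decide) k6)
    (hfull 0 1 2 (by decide) b1) (hfull 6 1 2 (by decide) b2) (hfull 6 0 2 (by decide) b3)
    (hfull 6 0 1 (by decide) b4) ?_ hfin ?_
  · intro ω ω' h3 h4 h5
    have s1 : ({3, 4, 5} : Set (Fin 7)) ⊆ {3, 4, 5, 0} := by intro x; simp; tauto
    have q1 := hH {3, 4, 5}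
    have q2 := hH {3, 4, 5, 0}
    rw [b5] at q1
    rw [b6] at q2
    refine dep_of_entropy hp hp1 s1 q1 q2 ω'.2 ω.2 ?_ 0 (by simp)
    intro x hx
    rcases hx with rfl | rfl | rfl
    · exact h3
    · exact h4
    · exact h5
  · rw [Nat.card_coe_set_eq, Set.ncard_eq_toFinset_card _ hfin, hcard]
    exact hv2

end Pool.Agent.Run7.h133.CfC
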