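import Pool.Agent.Run7.h133.CfEnt
import Pool.Agent.Run7.h133.CfGrp

set_option autoImplicit false

/-!
# No even number is in the p-characteristic set of the non-Fano matroid
-/

namespace Pool.Agent.Run7.h133.Cf

section pair

variable {Ω N S : Type} [Fintype Ω] {p : Ω → ℝ} {X : N → Ω → S}

/-- two independent variables -/
theorem pair_full (hp : ∀ ω, 0 ≤ p ω) (hp1 : ∑ ω, p ω = 1) {i j : N}
    (h : entropy p X {i, j} = entropy p X {i} + entropy p X {j}) (ω₁ ω₂ : Ω) (h1 : 0 < p ω₁)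
    (h2 : 0 < p ω₂) : ∃ ω, 0 < p ω ∧ X i ω = X i ω₁ ∧ X j ω = X j ω₂ := by
  have hu : ({i} : Set N) ∪ {j} = {i, j} := by ext x; simp [or_comm]
  rw [← hu] at h
  obtain ⟨ω, hω, h3, h4⟩ := (indep_of_entropy hp hp1 h).2 ω₁ ω₂ h1 h2
  exact ⟨ω, hω, h3 i rfl, h4 j rfl⟩

theorem pair_prob (hp : ∀ ω, 0 ≤ p ω) (hp1 : ∑ ω, p ω = 1) {i j : N}
    (h : entropy p X {i, j} = entropy p X {i} + entropy p X {j}) (ω : Ω) (h1 : 0 < p ω) :
    prob p X {i, j} ω = prob p X {i} ω * prob p X {j} ω := by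
  have hu : ({i} : Set N) ∪ {j} = {i, j} := by ext x; simp [or_comm]
  rw [← hu] at h ⊢
  exact (indep_of_entropy hp hp1 h).1 ω h1

/-- the variables of a line have the same uniform distribution -/
theorem line_prob (hp : ∀ ω, 0 ≤ p ω) (hp1 : ∑ ω, p ω = 1) {i j k : N}
    (hij : entropy p X {i, j} = entropy p X {i} + entropy p X {j})
    (hik : entropy p X {i, k} = entropy p X {i} + entropy p X {k})
    (hjk : entropy p X {j, k} = entropy p X {j} + entropy p X {k})
    (e1 : entropy p X {i, j, k} = entropy p X {i, j})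
    (e2 : entropy p X {i, j, k} = entropy p X {i, k})
    (e3 : entropy p X {i, j, k} = entropy p X {j, k}) (ω₁ ω₂ : Ω) (h1 : 0 < p ω₁)
    (h2 : 0 < p ω₂) : prob p X {i} ω₁ = prob p X {j} ω₂ := by
  obtain ⟨ω, hω, h3, h4⟩ := pair_full hp hp1 hij ω₁ ω₂ h1 h2
  have s1 : ({i, j} : Set N) ⊆ {i, j, k} := by intro x; simp; tauto
  have s2 : ({i, k} : Set N) ⊆ {i, j, k} := by intro x; simp; tauto
  have s3 : ({j, k} : Set N) ⊆ {i, j, k} := by intro x; simp; tauto
  have a1 := prob_eq_of_entropy hp s1 e1 hω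
  have a2 := prob_eq_of_entropy hp s2 e2 hω
  have a3 := prob_eq_of_entropy hp s3 e3 hω
  rw [pair_prob hp hp1 hij ω hω] at a1
  rw [pair_prob hp hp1 hik ω hω] at a2
  rw [pair_prob hp hp1 hjk ω hω] at a3
  have pi := prob_pos (X := X) hp {i} hω
  have pj := prob_pos (X := X) hp {j} hω
  have pk := prob_pos (X := X) hp {k} hω
  have b1 : prob p X {j} ω = prob p X {k} ω := by
    have : prob p X {i} ω * prob p X {j} ω = prob p X {i} ω * prob p X {k} ω := by
      rw [← a1, a2]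
    exact mul_left_cancel₀ pi.ne' this
  have b2 : prob p X {i} ω = prob p X {k} ω := by
    have : prob p X {j} ω * prob p X {i} ω = prob p X {j} ω * prob p X {k} ω := by
      rw [mul_comm, ← a1, a3]
    exact mul_left_cancel₀ pj.ne' this
  have c1 : prob p X {i} ω₁ = prob p X {i} ω := by
    apply prob_congr
    rintro x rfl
    exact h3.symm
  have c2 : prob p X {j} ω₂ = prob p X {j} ω := by
    apply prob_congr
    rintro x rfl
    exact h4.symm
  rw [c1, c2, b2, b1]

end pair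

theorem no_even {Ω S : Type} [Fintype Ω] {p : Ω → ℝ} {X : Fin 7 → Ω → S}
    (hp : ∀ ω, 0 ≤ p ω) (hp1 : ∑ ω, p ω = 1) {v : ℕ} (hv : 2 ≤ v) (hv2 : 2 ∣ v)
    (ρ : Set (Fin 7) → ℕ) (hH : ∀ A, entropy p X A = Real.log v * ρ A)
    (r1 : ∀ i, ρ {i} = 1) (r2 : ∀ i j, i ≠ j → ρ {i, j} = 2)
    (k1 : ρ {0, 1, 3} = 2) (k2 : ρ {1, 2, 4} = 2) (k3 : ρ {0, 2, 5} = 2) (k4 : ρ {0, 4, 6} = 2)
    (k5 : ρ {1, 5, 6} = 2) (k6 : ρ {2, 3, 6} = 2)
    (b1 : ρ {0, 1, 2} = 3) (b2 : ρ {6, 1, 2} = 3) (b3 : ρ {6, 0, 2} = 3) (b4 : ρ {6, 0, 1} = 3)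
    (b5 : ρ {3, 4, 5} = 3) (b6 : ρ {3, 4, 5, 0} = 3) : False := by
  classical
  have hpair : ∀ i j, i ≠ j → entropy p X {i, j} = entropy p X {i} + entropy p X {j} := by
    intro i j hij
    rw [hH, hH, hH, r1, r1, r2 i j hij]; push_cast; ring
  let Ω' := {ω : Ω // 0 < p ω}
  let Y : Fin 7 → Ω' → S := fun i ω => X i ω.1
  have hline : ∀ i j k : Fin 7, i ≠ j → i ≠ k → j ≠ k → ρ {i, j, k} = 2 → Line Y i j k := by
    intro i j k hij hik hjk hr
    have s1 : ({i, j} : Set (Fin 7)) ⊆ {i, j, k} := by intro x; simp; tauto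
    have s2 : ({i, k} : Set (Fin 7)) ⊆ {i, j, k} := by intro x; simp; tauto
    have s3 : ({j, k} : Set (Fin 7)) ⊆ {i, j, k} := by intro x; simp; tauto
    refine ⟨?_, ?_, ?_⟩
    · intro ω ω' h1 h2
      refine dep_of_entropy hp s1 (by rw [hH, hH, hr, r2 i j hij]) ω'.2 ω.2 ?_ k (by simp)
      intro x hx
      rcases hx with rfl | rfl
      · exact h1
      · exact h2
    · intro ω ω' h1 h2
      refine dep_of_entropy hp s2 (by rw [hH, hH, hr, r2 i k hik]) ω'.2 ω.2 ?_ j (by simp)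
      intro x hx
      rcases hx with rfl | rfl
      · exact h1
      · exact h2
    · intro ω ω' h1 h2
      refine dep_of_entropy hp s3 (by rw [hH, hH, hr, r2 j k hjk]) ω'.2 ω.2 ?_ i (by simp)
      intro x hx
      rcases hx with rfl | rfl
      · exact h1
      · exact h2
  have hfull : ∀ i j k : Fin 7, i ≠ j → ρ {i, j, k} = 3 → Full Y i j k := by
    intro i j k hij hr ω₁ ω₂ ω₃
    obtain ⟨ω, hω, h1, h2⟩ := pair_full hp hp1 (hpair i j hij) ω₁.1 ω₂.1 ω₁.2 ω₂.2
    have hu : ({i, j} : Set (Fin 7)) ∪ {k} = {i, j, k} := by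
      ext x; simp; tauto
    have h3 : entropy p X ({i, j} ∪ {k}) = entropy p X {i, j} + entropy p X {k} := by
      rw [hu, hH, hH, hH, r1, hr, r2 i j hij]; push_cast; ring
    obtain ⟨ω', hω', h4, h5⟩ := (indep_of_entropy hp hp1 h3).2 ω ω₃.1 hω ω₃.2
    exact ⟨⟨ω', hω'⟩, (h4 i (by simp)).trans h1, (h4 j (by simp)).trans h2, h5 k rfl⟩
  -- an outcome of positive probability
  have hne : ∃ ω, 0 < p ω := by
    by_contra hno
    push Not at hno
    have : ∑ ω, p ω ≤ 0 := Finset.sum_nonpos fun ω _ => hno ω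
    rw [hp1] at this
    linarith
  obtain ⟨ω₀, hω₀⟩ := hne
  -- the distribution of `X 6` is uniform
  have hlp : ∀ ω, 0 < p ω → prob p X {6} ω = prob p X {0} ω₀ := by
    intro ω hω
    have hset : ({6, 0, 4} : Set (Fin 7)) = {0, 4, 6} := by ext x; simp; tauto
    refine line_prob hp hp1 (k := 4) (hpair 6 0 (by decide)) (hpair 6 4 (by decide))
      (hpair 0 4 (by decide)) ?_ ?_ ?_ ω ω₀ hω hω₀
    · rw [hset, hH, hH, k4, r2 6 0 (by decide)]
    · rw [hset, hH, hH, k4, r2 6 4 (by decide)]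
    · rw [hset, hH, hH, k4, r2 0 4 (by decide)]
  set c := prob p X {0} ω₀ with hc
  have hcpos : 0 < c := prob_pos hp _ hω₀
  have hlogc : -Real.log c = Real.log v := by
    have h1 := hH {6}
    rw [r1] at h1
    unfold entropy at h1
    have h2 : ∀ ω, p ω * (-Real.log (prob p X {6} ω)) = p ω * (-Real.log c) := by
      intro ω
      rcases (hp ω).eq_or_lt with h0 | h0
      · rw [← h0]; simp
      · rw [hlp ω h0]
    simp_rw [h2] at h1
    rw [← Finset.sum_mul, hp1] at h1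
    simpa using h1
  have hvpos : (0 : ℝ) < v := by
    have : 0 < v := by omega
    exact_mod_cast this
  have hcv : c * v = 1 := by
    have h1 : Real.log (c * v) = 0 := by
      rw [Real.log_mul hcpos.ne' hvpos.ne', ← hlogc]; ring
    have h2 : 0 < c * v := mul_pos hcpos hvpos
    exact Real.eq_one_of_pos_of_log_eq_zero h2 h1
  -- the number of the values of `X 6`
  have hrange : Set.range (Y 6) =
      (((Finset.univ.filter fun ω => 0 < p ω).image (X 6) : Finset S) : Set S) := by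
    ext s
    simp only [Set.mem_range, Finset.coe_image, Finset.coe_filter, Finset.mem_univ, true_and,
      Set.mem_image, Set.mem_ofPred_eq]
    constructor
    · rintro ⟨ω, rfl⟩
      exact ⟨ω.1, ω.2, rfl⟩
    · rintro ⟨ω, hω, rfl⟩
      exact ⟨⟨ω, hω⟩, rfl⟩
  have hcardT : ((Finset.univ.filter fun ω => 0 < p ω).image (X 6)).card = v := by
    have h1 : ∑ s ∈ (Finset.univ.filter fun ω => 0 < p ω).image (X 6),
        ∑ ω ∈ (Finset.univ.filter fun ω => 0 < p ω) with X 6 ω = s, p ω =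
        ∑ ω ∈ Finset.univ.filter fun ω => 0 < p ω, p ω :=
      Finset.sum_fiberwise_of_maps_to (fun ω hω => Finset.mem_image_of_mem _ hω) _
    have h2 : ∑ ω ∈ Finset.univ.filter fun ω => 0 < p ω, p ω = 1 := by
      rw [← hp1, Finset.sum_filter]
      refine Finset.sum_congr rfl fun ω _ => ?_
      split_ifs with h
      · rfl
      · exact le_antisymm (hp ω) (not_lt.1 h)
    have h3 : ∀ s ∈ (Finset.univ.filter fun ω => 0 < p ω).image (X 6),
        ∑ ω ∈ (Finset.univ.filter fun ω => 0 < p ω) with X 6 ω = s, p ω = c := by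
      intro s hs
      obtain ⟨ω₁, hω₁, rfl⟩ := Finset.mem_image.1 hs
      rw [Finset.mem_filter] at hω₁
      rw [← hlp ω₁ hω₁.2]
      unfold prob
      rw [Finset.filter_filter, Finset.sum_filter]
      refine Finset.sum_congr rfl fun ω _ => ?_
      have h4 : (∀ i ∈ ({6} : Set (Fin 7)), X i ω = X i ω₁) ↔ X 6 ω = X 6 ω₁ := by
        constructor
        · intro h; exact h 6 rfl
        · rintro h i rfl; exact h
      by_cases h5 : X 6 ω = X 6 ω₁
      · rw [if_pos (h4.2 h5)]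
        by_cases h6 : 0 < p ω
        · rw [if_pos ⟨h6, h5⟩]
        · rw [if_neg fun h => h6 h.1]
          exact le_antisymm (hp ω) (not_lt.1 h6)
      · rw [if_neg fun h => h5 (h4.1 h), if_neg fun h => h5 h.2]
    rw [Finset.sum_congr rfl h3, Finset.sum_const, nsmul_eq_mul, h2] at h1
    have h4 : ((((Finset.univ.filter fun ω => 0 < p ω).image (X 6)).card : ℕ) : ℝ) = v := by
      have h5 : ((((Finset.univ.filter fun ω => 0 < p ω).image (X 6)).card : ℕ) : ℝ) * c = v * c := by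
        rw [h1, mul_comm, hcv]
      exact mul_right_cancel₀ hcpos.ne' h5
    exact_mod_cast h4
  refine nonfano_even (X := Y) ⟨ω₀, hω₀⟩ (hline 0 1 3 (by decide) (by decide) (by decide) k1)
    (hline 1 2 4 (by decide) (by decide) (by decide) k2)
    (hline 0 2 5 (by decide) (by decide) (by decide) k3)
    (hline 0 4 6 (by decide) (by decide) (by decide) k4)
    (hline 1 5 6 (by decide) (by decide) (by decide) k5)
    (hline 2 3 6 (by decide) (by decide) (by decide) k6)
    (hfull 0 1 2 (by decide) b1) (hfull 6 1 2 (by decide) b2) (hfull 6 0 2 (by decide) b3)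
    (hfull 6 0 1 (by decide) b4) ?_ ?_ ?_
  · intro ω ω' h3 h4 h5
    have s1 : ({3, 4, 5} : Set (Fin 7)) ⊆ {3, 4, 5, 0} := by intro x; simp; tauto
    refine dep_of_entropy hp s1 (by rw [hH, hH, b5, b6]) ω'.2 ω.2 ?_ 0 (by simp)
    intro x hx
    rcases hx with rfl | rfl | rfl
    · exact h3
    · exact h4
    · exact h5
  · rw [hrange]
    exact Finset.finite_toSet _
  · rw [hrange]
    rw [Nat.card_coe_set_eq, Set.ncard_coe_finset, hcardT]
    exact hv2

end Pool.Agent.Run7.h133.Cf
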