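import Mathlib

set_option autoImplicit false

/-!
# Entropy of finite random vectors: the equality cases
-/

namespace Pool.Agent.Run7.h133.Cf

variable {Ω N S : Type} [Fintype Ω]

open Classical in
/-- The probability that `X_A` has the same value as at the outcome `ω`. -/
noncomputable def prob (p : Ω → ℝ) (X : N → Ω → S) (A : Set N) (ω : Ω) : ℝ :=
  ∑ ω' : Ω, if ∀ i ∈ A, X i ω' = X i ω then p ω' else 0

/-- The Shannon entropy of `X_A`: the expected value of `-log P(X_A = X_A(ω))`. -/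
noncomputable def entropy (p : Ω → ℝ) (X : N → Ω → S) (A : Set N) : ℝ :=
  ∑ ω : Ω, p ω * (-Real.log (prob p X A ω))

variable {p : Ω → ℝ} {X : N → Ω → S}

theorem prob_ge (hp : ∀ ω, 0 ≤ p ω) (A : Set N) (ω : Ω) : p ω ≤ prob p X A ω := by
  classical
  unfold prob
  have h := Finset.single_le_sum (f := fun ω' => if ∀ i ∈ A, X i ω' = X i ω then p ω' else 0)
    (fun ω' _ => by
      show (0 : ℝ) ≤ if _ then _ else _
      split_ifs
      · exact hp ω'
      · exact le_refl _) (Finset.mem_univ ω)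
  simp only [implies_true, if_true] at h
  exact h

theorem prob_pos (hp : ∀ ω, 0 ≤ p ω) (A : Set N) {ω : Ω} (h : 0 < p ω) : 0 < prob p X A ω :=
  lt_of_lt_of_le h (prob_ge hp A ω)

theorem prob_mono (hp : ∀ ω, 0 ≤ p ω) {A B : Set N} (hAB : A ⊆ B) (ω : Ω) :
    prob p X B ω ≤ prob p X A ω := by
  classical
  unfold prob
  refine Finset.sum_le_sum fun ω' _ => ?_
  by_cases h : ∀ i ∈ B, X i ω' = X i ω
  · rw [if_pos h, if_pos fun i hi => h i (hAB hi)]
  · rw [if_neg h]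
    split_ifs
    · exact hp ω'
    · exact le_refl _

theorem prob_congr (A : Set N) {ω ω' : Ω} (h : ∀ i ∈ A, X i ω = X i ω') :
    prob p X A ω = prob p X A ω' := by
  classical
  unfold prob
  refine Finset.sum_congr rfl fun ω'' _ => ?_
  by_cases h1 : ∀ i ∈ A, X i ω'' = X i ω
  · rw [if_pos h1, if_pos fun i hi => (h1 i hi).trans (h i hi)]
  · rw [if_neg h1, if_neg]
    intro h2
    exact h1 fun i hi => (h2 i hi).trans (h i hi).symm

/-- If adding variables does not change the entropy, then they are functions of the others. -/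
theorem prob_eq_of_entropy (hp : ∀ ω, 0 ≤ p ω) {A B : Set N} (hAB : A ⊆ B)
    (h : entropy p X B = entropy p X A) {ω : Ω} (hω : 0 < p ω) :
    prob p X B ω = prob p X A ω := by
  unfold entropy at h
  have h1 := (Finset.sum_eq_sum_iff_of_le (s := Finset.univ)
    (f := fun ω => p ω * (-Real.log (prob p X A ω)))
    (g := fun ω => p ω * (-Real.log (prob p X B ω))) (fun ω _ => by
      rcases (hp ω).eq_or_lt with h0 | h0
      · simp [← h0]
      · apply mul_le_mul_of_nonneg_left _ h0.le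
        rw [neg_le_neg_iff]
        exact Real.log_le_log (prob_pos hp B h0) (prob_mono hp hAB ω))).1 h.symm ω
    (Finset.mem_univ ω)
  have h2 : Real.log (prob p X A ω) = Real.log (prob p X B ω) := by
    have := mul_left_cancel₀ hω.ne' h1
    linarith
  exact (Real.log_injOn_pos (prob_pos hp A hω) (prob_pos hp B hω) h2).symm

theorem dep_of_entropy (hp : ∀ ω, 0 ≤ p ω) {A B : Set N} (hAB : A ⊆ B)
    (h : entropy p X B = entropy p X A) {ω ω' : Ω} (hω : 0 < p ω) (hω' : 0 < p ω')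
    (hag : ∀ i ∈ A, X i ω' = X i ω) : ∀ i ∈ B, X i ω' = X i ω := by
  classical
  have h1 := prob_eq_of_entropy hp hAB h hω
  unfold prob at h1
  have h2 := (Finset.sum_eq_sum_iff_of_le (s := Finset.univ)
    (f := fun ω' => if ∀ i ∈ B, X i ω' = X i ω then p ω' else 0)
    (g := fun ω' => if ∀ i ∈ A, X i ω' = X i ω then p ω' else 0) (fun ω' _ => by
      show (if _ then _ else _) ≤ (if _ then _ else _)
      by_cases h : ∀ i ∈ B, X i ω' = X i ω
      · rw [if_pos h, if_pos fun i hi => h i (hAB hi)]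
      · rw [if_neg h]
        split_ifs
        · exact hp ω'
        · exact le_refl _)).1 h1 ω' (Finset.mem_univ ω')
  by_contra hnot
  rw [if_neg hnot, if_pos hag] at h2
  exact hω'.ne h2

/-- If the entropy is additive, then the two parts are independent. -/
theorem indep_of_entropy (hp : ∀ ω, 0 ≤ p ω) (hp1 : ∑ ω, p ω = 1) {A B : Set N}
    (h : entropy p X (A ∪ B) = entropy p X A + entropy p X B) :
    (∀ ω, 0 < p ω → prob p X (A ∪ B) ω = prob p X A ω * prob p X B ω) ∧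
    ∀ ω₁ ω₂, 0 < p ω₁ → 0 < p ω₂ → ∃ ω, 0 < p ω ∧ (∀ i ∈ A, X i ω = X i ω₁) ∧
      ∀ i ∈ B, X i ω = X i ω₂ := by
  classical
  set qA := prob p X A with hqA
  set qB := prob p X B with hqB
  set q := prob p X (A ∪ B) with hq
  have hApos : ∀ ω, 0 < p ω → 0 < qA ω := fun ω hω => prob_pos hp A hω
  have hBpos : ∀ ω, 0 < p ω → 0 < qB ω := fun ω hω => prob_pos hp B hω
  have hpos : ∀ ω, 0 < p ω → 0 < q ω := fun ω hω => prob_pos hp _ hω
  -- the numbers c
  set c : Ω → Ω → ℝ := fun ω₁ ω₂ => ∑ ω, if (∀ i ∈ A, X i ω = X i ω₁) ∧ ∀ i ∈ B, X i ω = X i ω₂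
    then p ω / q ω else 0 with hc
  have hcval : ∀ ω₁ ω₂, (∃ ω, 0 < p ω ∧ (∀ i ∈ A, X i ω = X i ω₁) ∧ ∀ i ∈ B, X i ω = X i ω₂) →
      c ω₁ ω₂ = 1 := by
    rintro ω₁ ω₂ ⟨ω₀, h0, hA0, hB0⟩
    have h1 : ∀ ω, ((∀ i ∈ A, X i ω = X i ω₁) ∧ ∀ i ∈ B, X i ω = X i ω₂) ↔
        ∀ i ∈ A ∪ B, X i ω = X i ω₀ := by
      intro ω
      constructor
      · rintro ⟨h2, h3⟩ i (hi | hi)
        · rw [h2 i hi, hA0 i hi]
        · rw [h3 i hi, hB0 i hi]
      · intro h2
        exact ⟨fun i hi => (h2 i (Or.inl hi)).trans (hA0 i hi),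
          fun i hi => (h2 i (Or.inr hi)).trans (hB0 i hi)⟩
    simp only [hc]
    simp_rw [h1]
    have h2 : ∀ ω, (if ∀ i ∈ A ∪ B, X i ω = X i ω₀ then p ω / q ω else 0) =
        (if ∀ i ∈ A ∪ B, X i ω = X i ω₀ then p ω else 0) / q ω₀ := by
      intro ω
      split_ifs with h3
      · rw [hq, prob_congr (A ∪ B) h3]
      · rw [zero_div]
    simp_rw [h2]
    rw [← Finset.sum_div]
    exact div_self (hpos ω₀ h0).ne'
  have hczero : ∀ ω₁ ω₂, (¬ ∃ ω, 0 < p ω ∧ (∀ i ∈ A, X i ω = X i ω₁) ∧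
      ∀ i ∈ B, X i ω = X i ω₂) → c ω₁ ω₂ = 0 := by
    intro ω₁ ω₂ hne
    simp only [hc]
    apply Finset.sum_eq_zero
    intro ω _
    split_ifs with h1
    · rcases (hp ω).eq_or_lt with h0 | h0
      · rw [← h0, zero_div]
      · exact absurd ⟨ω, h0, h1⟩ hne
    · rfl
  have hcle : ∀ ω₁ ω₂, c ω₁ ω₂ ≤ 1 := by
    intro ω₁ ω₂
    by_cases h1 : ∃ ω, 0 < p ω ∧ (∀ i ∈ A, X i ω = X i ω₁) ∧ ∀ i ∈ B, X i ω = X i ω₂
    · exact (hcval _ _ h1).le
    · rw [hczero _ _ h1]; exact zero_le_one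
  -- the expected value of t
  have hE : ∑ ω, p ω * (qA ω * qB ω / q ω) = ∑ ω₁, ∑ ω₂, p ω₁ * p ω₂ * c ω₁ ω₂ := by
    have h1 : ∀ ω, p ω * (qA ω * qB ω / q ω) = ∑ ω₁, ∑ ω₂, p ω₁ * p ω₂ *
        (if (∀ i ∈ A, X i ω = X i ω₁) ∧ ∀ i ∈ B, X i ω = X i ω₂ then p ω / q ω else 0) := by
      intro ω
      have h2 : p ω * (qA ω * qB ω / q ω) = qA ω * qB ω * (p ω / q ω) := by ring
      rw [h2]
      simp only [hqA, hqB, prob]
      rw [Finset.sum_mul_sum, Finset.sum_mul]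
      refine Finset.sum_congr rfl fun ω₁ _ => ?_
      rw [Finset.sum_mul]
      refine Finset.sum_congr rfl fun ω₂ _ => ?_
      have e1 : (∀ i ∈ A, X i ω₁ = X i ω) ↔ (∀ i ∈ A, X i ω = X i ω₁) :=
        ⟨fun h i hi => (h i hi).symm, fun h i hi => (h i hi).symm⟩
      have e2 : (∀ i ∈ B, X i ω₂ = X i ω) ↔ (∀ i ∈ B, X i ω = X i ω₂) :=
        ⟨fun h i hi => (h i hi).symm, fun h i hi => (h i hi).symm⟩
      by_cases a1 : ∀ i ∈ A, X i ω = X i ω₁
      · by_cases a2 : ∀ i ∈ B, X i ω = X i ω₂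
        · rw [if_pos (e1.2 a1), if_pos (e2.2 a2), if_pos ⟨a1, a2⟩]
        · have n2 : ¬ ∀ i ∈ B, X i ω₂ = X i ω := fun h => a2 (e2.1 h)
          have n3 : ¬ ((∀ i ∈ A, X i ω = X i ω₁) ∧ ∀ i ∈ B, X i ω = X i ω₂) := fun h => a2 h.2
          rw [if_neg n2, if_neg n3, mul_zero, zero_mul, mul_zero]
      · have n2 : ¬ ∀ i ∈ A, X i ω₁ = X i ω := fun h => a1 (e1.1 h)
        have n3 : ¬ ((∀ i ∈ A, X i ω = X i ω₁) ∧ ∀ i ∈ B, X i ω = X i ω₂) := fun h => a1 h.1
        rw [if_neg n2, if_neg n3, zero_mul, zero_mul, mul_zero]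
    simp_rw [h1]
    rw [Finset.sum_comm]
    refine Finset.sum_congr rfl fun ω₁ _ => ?_
    rw [Finset.sum_comm]
    refine Finset.sum_congr rfl fun ω₂ _ => ?_
    rw [Finset.mul_sum]
  have hone : ∑ ω₁, ∑ ω₂, p ω₁ * p ω₂ = 1 := by
    rw [← Finset.sum_mul_sum, hp1, one_mul]
  have hEle : ∑ ω, p ω * (qA ω * qB ω / q ω) ≤ 1 := by
    rw [hE, ← hone]
    refine Finset.sum_le_sum fun ω₁ _ => Finset.sum_le_sum fun ω₂ _ => ?_
    exact mul_le_of_le_one_right (mul_nonneg (hp _) (hp _)) (hcle _ _)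
  -- the expected value of log t
  have hlog : ∑ ω, p ω * Real.log (qA ω * qB ω / q ω) = 0 := by
    have h1 : ∀ ω, p ω * Real.log (qA ω * qB ω / q ω) =
        p ω * (-Real.log (q ω)) - p ω * (-Real.log (qA ω)) - p ω * (-Real.log (qB ω)) := by
      intro ω
      rcases (hp ω).eq_or_lt with h0 | h0
      · rw [← h0]; ring
      · rw [Real.log_div (mul_pos (hApos ω h0) (hBpos ω h0)).ne' (hpos ω h0).ne',
          Real.log_mul (hApos ω h0).ne' (hBpos ω h0).ne']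
        ring
    simp_rw [h1]
    rw [Finset.sum_sub_distrib, Finset.sum_sub_distrib]
    unfold entropy at h
    rw [← hq, ← hqA, ← hqB] at h
    linarith
  have hterm : ∀ ω, 0 ≤ p ω * (qA ω * qB ω / q ω - 1 - Real.log (qA ω * qB ω / q ω)) := by
    intro ω
    rcases (hp ω).eq_or_lt with h0 | h0
    · rw [← h0]; simp
    · apply mul_nonneg h0.le
      have := Real.log_le_sub_one_of_pos (div_pos (mul_pos (hApos ω h0) (hBpos ω h0)) (hpos ω h0))
      linarith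
  have hsum : ∑ ω, p ω * (qA ω * qB ω / q ω - 1 - Real.log (qA ω * qB ω / q ω)) =
      ∑ ω, p ω * (qA ω * qB ω / q ω) - 1 := by
    have h1 : ∀ ω, p ω * (qA ω * qB ω / q ω - 1 - Real.log (qA ω * qB ω / q ω)) =
        p ω * (qA ω * qB ω / q ω) - p ω - p ω * Real.log (qA ω * qB ω / q ω) := by
      intro ω; ring
    simp_rw [h1]
    rw [Finset.sum_sub_distrib, Finset.sum_sub_distrib, hp1, hlog]
    ring
  have hnn := Finset.sum_nonneg fun ω (_ : ω ∈ Finset.univ) => hterm ω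
  rw [hsum] at hnn
  have hEeq : ∑ ω, p ω * (qA ω * qB ω / q ω) = 1 := by linarith
  have hzero : ∑ ω, p ω * (qA ω * qB ω / q ω - 1 - Real.log (qA ω * qB ω / q ω)) = 0 := by
    rw [hsum, hEeq]; ring
  have hz := (Finset.sum_eq_zero_iff_of_nonneg fun ω _ => hterm ω).1 hzero
  refine ⟨?_, ?_⟩
  · intro ω hω
    have h1 := hz ω (Finset.mem_univ ω)
    have h2 : qA ω * qB ω / q ω - 1 - Real.log (qA ω * qB ω / q ω) = 0 := by
      rcases mul_eq_zero.1 h1 with h3 | h3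
      · exact absurd h3 hω.ne'
      · exact h3
    have h3 : qA ω * qB ω / q ω = 1 := by
      by_contra hne
      have := Real.log_lt_sub_one_of_pos
        (div_pos (mul_pos (hApos ω hω) (hBpos ω hω)) (hpos ω hω)) hne
      linarith
    rw [div_eq_one_iff_eq (hpos ω hω).ne'] at h3
    exact h3.symm
  · intro ω₁ ω₂ h1 h2
    by_contra hne
    have h3 : ∑ ω₁, ∑ ω₂, p ω₁ * p ω₂ * c ω₁ ω₂ < ∑ ω₁, ∑ ω₂, p ω₁ * p ω₂ := by
      refine Finset.sum_lt_sum (fun ω₁ _ => Finset.sum_le_sum fun ω₂ _ =>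
        mul_le_of_le_one_right (mul_nonneg (hp _) (hp _)) (hcle _ _)) ⟨ω₁, Finset.mem_univ _, ?_⟩
      refine Finset.sum_lt_sum (fun ω₂ _ =>
        mul_le_of_le_one_right (mul_nonneg (hp _) (hp _)) (hcle _ _)) ⟨ω₂, Finset.mem_univ _, ?_⟩
      rw [hczero _ _ hne, mul_zero]
      exact mul_pos h1 h2
    rw [← hE, hEeq, hone] at h3
    exact lt_irrefl _ h3

end Pool.Agent.Run7.h133.Cf
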