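import Mathlib

set_option autoImplicit false

/-!
# Entropy of discrete random vectors (countable alphabets): the equality cases
-/

namespace Pool.Agent.Run7.h133.CfC

open scoped ENNReal

variable {Ω N S : Type}

open Classical in
/-- The probability that `X_A` has the same value as at the outcome `ω`. -/
noncomputable def prob (p : Ω → ℝ) (X : N → Ω → S) (A : Set N) (ω : Ω) : ℝ :=
  ∑' ω' : Ω, if ∀ i ∈ A, X i ω' = X i ω then p ω' else 0

/-- The Shannon entropy of `X_A`: the expected value of `-log P(X_A = X_A(ω))`, a number in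
`[0, ∞]`. -/
noncomputable def entropy (p : Ω → ℝ) (X : N → Ω → S) (A : Set N) : ℝ≥0∞ :=
  ∑' ω : Ω, ENNReal.ofReal (p ω * (-Real.log (prob p X A ω)))

variable {p : Ω → ℝ} {X : N → Ω → S}

/-- restriction of `p` to a set of outcomes -/
theorem ind_summable (hp : ∀ ω, 0 ≤ p ω) (hp1 : HasSum p 1) (P : Ω → Prop) [DecidablePred P] :
    Summable fun ω => if P ω then p ω else 0 := by
  refine Summable.of_nonneg_of_le (fun ω => ?_) (fun ω => ?_) hp1.summable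
  · split_ifs
    · exact hp ω
    · exact le_refl _
  · split_ifs
    · exact le_refl _
    · exact hp ω

theorem ind_nonneg (hp : ∀ ω, 0 ≤ p ω) (P : Ω → Prop) [DecidablePred P] (ω : Ω) :
    0 ≤ if P ω then p ω else 0 := by
  split_ifs
  · exact hp ω
  · exact le_refl _

theorem prob_ge (hp : ∀ ω, 0 ≤ p ω) (hp1 : HasSum p 1) (A : Set N) (ω : Ω) :
    p ω ≤ prob p X A ω := by
  classical
  unfold prob
  have h := (ind_summable hp hp1 fun ω' => ∀ i ∈ A, X i ω' = X i ω).le_tsum ω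
    fun ω' _ => ind_nonneg hp (fun ω' => ∀ i ∈ A, X i ω' = X i ω) ω'
  simp only [implies_true, if_true] at h
  exact h

theorem prob_pos (hp : ∀ ω, 0 ≤ p ω) (hp1 : HasSum p 1) (A : Set N) {ω : Ω} (h : 0 < p ω) :
    0 < prob p X A ω :=
  lt_of_lt_of_le h (prob_ge hp hp1 A ω)

theorem prob_nonneg (hp : ∀ ω, 0 ≤ p ω) (A : Set N) (ω : Ω) : 0 ≤ prob p X A ω := by
  classical
  unfold prob
  exact tsum_nonneg fun ω' => ind_nonneg hp (fun ω' => ∀ i ∈ A, X i ω' = X i ω) ω'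

theorem ind_mono (hp : ∀ ω, 0 ≤ p ω) {A B : Set N} (hAB : A ⊆ B) (ω ω' : Ω)
    [Decidable (∀ i ∈ A, X i ω' = X i ω)] [Decidable (∀ i ∈ B, X i ω' = X i ω)] :
    (if ∀ i ∈ B, X i ω' = X i ω then p ω' else 0) ≤
      if ∀ i ∈ A, X i ω' = X i ω then p ω' else 0 := by
  by_cases h : ∀ i ∈ B, X i ω' = X i ω
  · rw [if_pos h, if_pos fun i hi => h i (hAB hi)]
  · rw [if_neg h]
    split_ifs
    · exact hp ω'
    · exact le_refl _

theorem prob_mono (hp : ∀ ω, 0 ≤ p ω) (hp1 : HasSum p 1) {A B : Set N} (hAB : A ⊆ B) (ω : Ω) :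
    prob p X B ω ≤ prob p X A ω := by
  classical
  unfold prob
  exact (ind_summable hp hp1 _).tsum_le_tsum (fun ω' => ind_mono hp hAB ω ω')
    (ind_summable hp hp1 _)

theorem prob_le_one (hp : ∀ ω, 0 ≤ p ω) (hp1 : HasSum p 1) (A : Set N) (ω : Ω) :
    prob p X A ω ≤ 1 := by
  classical
  rw [← hp1.tsum_eq]
  unfold prob
  refine (ind_summable hp hp1 _).tsum_le_tsum (fun ω' => ?_) hp1.summable
  split_ifs
  · exact le_refl _
  · exact hp ω'

theorem prob_congr (A : Set N) {ω ω' : Ω} (h : ∀ i ∈ A, X i ω = X i ω') :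
    prob p X A ω = prob p X A ω' := by
  classical
  unfold prob
  refine tsum_congr fun ω'' => ?_
  by_cases h1 : ∀ i ∈ A, X i ω'' = X i ω
  · rw [if_pos h1, if_pos fun i hi => (h1 i hi).trans (h i hi)]
  · rw [if_neg h1, if_neg]
    intro h2
    exact h1 fun i hi => (h2 i hi).trans (h i hi).symm

theorem term_nonneg (hp : ∀ ω, 0 ≤ p ω) (hp1 : HasSum p 1) (A : Set N) (ω : Ω) :
    0 ≤ p ω * (-Real.log (prob p X A ω)) := by
  apply mul_nonneg (hp ω)
  rw [neg_nonneg]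
  exact Real.log_nonpos (prob_nonneg hp A ω) (prob_le_one hp hp1 A ω)

/-- a nonnegative function with finite sum in `[0, ∞]` -/
theorem hasSum_of_ofReal {f : Ω → ℝ} (hf : ∀ ω, 0 ≤ f ω) {c : ℝ} (hc : 0 ≤ c)
    (h : ∑' ω, ENNReal.ofReal (f ω) = ENNReal.ofReal c) : HasSum f c := by
  have h1 : ∑' ω, ENNReal.ofReal (f ω) ≠ ∞ := by rw [h]; exact ENNReal.ofReal_ne_top
  have h2 := ENNReal.hasSum_toReal h1
  rw [← ENNReal.tsum_toReal_eq (fun ω => ENNReal.ofReal_ne_top), h, ENNReal.toReal_ofReal hc] at h2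
  convert h2 using 1
  funext ω
  rw [ENNReal.toReal_ofReal (hf ω)]

theorem hasSum_entropy (hp : ∀ ω, 0 ≤ p ω) (hp1 : HasSum p 1) {A : Set N} {c : ℝ} (hc : 0 ≤ c)
    (h : entropy p X A = ENNReal.ofReal c) :
    HasSum (fun ω => p ω * (-Real.log (prob p X A ω))) c :=
  hasSum_of_ofReal (term_nonneg hp hp1 A) hc h

theorem eq_of_hasSum {f g : Ω → ℝ} {c : ℝ} (hf : HasSum f c) (hg : HasSum g c)
    (hfg : ∀ ω, f ω ≤ g ω) : ∀ ω, f ω = g ω := by
  have h1 : HasSum (fun ω => g ω - f ω) 0 := by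
    have := hg.sub hf
    rwa [sub_self] at this
  have h2 := (hasSum_zero_iff_of_nonneg (fun ω => sub_nonneg.2 (hfg ω))).1 h1
  intro ω
  have := congrFun h2 ω
  simp only [Pi.zero_apply] at this
  linarith

/-- If adding variables does not change the entropy, then they are functions of the others. -/
theorem prob_eq_of_entropy (hp : ∀ ω, 0 ≤ p ω) (hp1 : HasSum p 1) {A B : Set N} (hAB : A ⊆ B)
    {c : ℝ} (hA : HasSum (fun ω => p ω * (-Real.log (prob p X A ω))) c)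
    (hB : HasSum (fun ω => p ω * (-Real.log (prob p X B ω))) c) {ω : Ω} (hω : 0 < p ω) :
    prob p X B ω = prob p X A ω := by
  have h1 := eq_of_hasSum hA hB (fun ω => by
      rcases (hp ω).eq_or_lt with h0 | h0
      · simp [← h0]
      · apply mul_le_mul_of_nonneg_left _ h0.le
        rw [neg_le_neg_iff]
        exact Real.log_le_log (prob_pos hp hp1 B h0) (prob_mono hp hp1 hAB ω)) ω
  have h2 : Real.log (prob p X A ω) = Real.log (prob p X B ω) := by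
    have := mul_left_cancel₀ hω.ne' h1
    linarith
  exact (Real.log_injOn_pos (prob_pos hp hp1 A hω) (prob_pos hp hp1 B hω) h2).symm

theorem dep_of_entropy (hp : ∀ ω, 0 ≤ p ω) (hp1 : HasSum p 1) {A B : Set N} (hAB : A ⊆ B)
    {c : ℝ} (hA : HasSum (fun ω => p ω * (-Real.log (prob p X A ω))) c)
    (hB : HasSum (fun ω => p ω * (-Real.log (prob p X B ω))) c) {ω ω' : Ω} (hω : 0 < p ω)
    (hω' : 0 < p ω') (hag : ∀ i ∈ A, X i ω' = X i ω) : ∀ i ∈ B, X i ω' = X i ω := by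
  classical
  have h1 := prob_eq_of_entropy hp hp1 hAB hA hB hω
  unfold prob at h1
  have h3 : HasSum (fun ω' => if ∀ i ∈ B, X i ω' = X i ω then p ω' else 0)
      (∑' ω' : Ω, if ∀ i ∈ A, X i ω' = X i ω then p ω' else 0) := by
    rw [← h1]
    exact (ind_summable hp hp1 _).hasSum
  have h2 := eq_of_hasSum h3 (ind_summable hp hp1 fun ω' => ∀ i ∈ A, X i ω' = X i ω).hasSum
    (fun ω' => ind_mono hp hAB ω ω') ω'
  by_contra hnot
  rw [if_neg hnot, if_pos hag] at h2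
  exact hω'.ne h2

/-- If the entropy is additive, then the two parts are independent. -/
theorem indep_of_entropy (hp : ∀ ω, 0 ≤ p ω) (hp1 : HasSum p 1) {A B : Set N} {a b : ℝ}
    (hA : HasSum (fun ω => p ω * (-Real.log (prob p X A ω))) a)
    (hB : HasSum (fun ω => p ω * (-Real.log (prob p X B ω))) b)
    (hAB : HasSum (fun ω => p ω * (-Real.log (prob p X (A ∪ B) ω))) (a + b)) :
    (∀ ω, 0 < p ω → prob p X (A ∪ B) ω = prob p X A ω * prob p X B ω) ∧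
    ∀ ω₁ ω₂, 0 < p ω₁ → 0 < p ω₂ → ∃ ω, 0 < p ω ∧ (∀ i ∈ A, X i ω = X i ω₁) ∧
      ∀ i ∈ B, X i ω = X i ω₂ := by
  classical
  set qA := prob p X A with hqA
  set qB := prob p X B with hqB
  set q := prob p X (A ∪ B) with hq
  have hApos : ∀ ω, 0 < p ω → 0 < qA ω := fun ω hω => prob_pos hp hp1 A hω
  have hBpos : ∀ ω, 0 < p ω → 0 < qB ω := fun ω hω => prob_pos hp hp1 B hω
  have hpos : ∀ ω, 0 < p ω → 0 < q ω := fun ω hω => prob_pos hp hp1 _ hω
  have hAnn : ∀ ω, 0 ≤ qA ω := fun ω => prob_nonneg hp A ω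
  have hBnn : ∀ ω, 0 ≤ qB ω := fun ω => prob_nonneg hp B ω
  have hnn : ∀ ω, 0 ≤ q ω := fun ω => prob_nonneg hp _ ω
  -- the numbers c
  set c : Ω → Ω → ℝ≥0∞ := fun ω₁ ω₂ =>
    ∑' ω, if (∀ i ∈ A, X i ω = X i ω₁) ∧ ∀ i ∈ B, X i ω = X i ω₂
    then ENNReal.ofReal (p ω / q ω) else 0 with hc
  have hofq : ∀ ω, ENNReal.ofReal (q ω) =
      ∑' ω', if ∀ i ∈ A ∪ B, X i ω' = X i ω then ENNReal.ofReal (p ω') else 0 := by
    intro ω
    rw [hq]
    unfold prob
    rw [ENNReal.ofReal_tsum_of_nonneg (fun ω' => ind_nonneg hp _ ω') (ind_summable hp hp1 _)]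
    refine tsum_congr fun ω' => ?_
    split_ifs
    · rfl
    · exact ENNReal.ofReal_zero
  have hofA : ∀ ω, ENNReal.ofReal (qA ω) =
      ∑' ω', if ∀ i ∈ A, X i ω' = X i ω then ENNReal.ofReal (p ω') else 0 := by
    intro ω
    rw [hqA]
    unfold prob
    rw [ENNReal.ofReal_tsum_of_nonneg (fun ω' => ind_nonneg hp _ ω') (ind_summable hp hp1 _)]
    refine tsum_congr fun ω' => ?_
    split_ifs
    · rfl
    · exact ENNReal.ofReal_zero
  have hofB : ∀ ω, ENNReal.ofReal (qB ω) =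
      ∑' ω', if ∀ i ∈ B, X i ω' = X i ω then ENNReal.ofReal (p ω') else 0 := by
    intro ω
    rw [hqB]
    unfold prob
    rw [ENNReal.ofReal_tsum_of_nonneg (fun ω' => ind_nonneg hp _ ω') (ind_summable hp hp1 _)]
    refine tsum_congr fun ω' => ?_
    split_ifs
    · rfl
    · exact ENNReal.ofReal_zero
  have hcval : ∀ ω₁ ω₂, (∃ ω, 0 < p ω ∧ (∀ i ∈ A, X i ω = X i ω₁) ∧ ∀ i ∈ B, X i ω = X i ω₂) →
      c ω₁ ω₂ = 1 := by
    rintro ω₁ ω₂ ⟨ω₀, h0, hA0, hB0⟩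
    have h1 : ∀ ω, ((∀ i ∈ A, X i ω = X i ω₁) ∧ ∀ i ∈ B, X i ω = X i ω₂) ↔
        ∀ i ∈ A ∪ B, X i ω = X i ω₀ := by
      intro ω
      constructor
      · rintro ⟨h2, h3⟩ i (hi | hi)
        · rw [h2 i hi, hA0 i hi]
        · rw [h3 i hi, hB0 i hi]
      · intro h2
        exact ⟨fun i hi => (h2 i (Or.inl hi)).trans (hA0 i hi),
          fun i hi => (h2 i (Or.inr hi)).trans (hB0 i hi)⟩
    simp only [hc]
    simp_rw [h1]
    have h2 : ∀ ω, (if ∀ i ∈ A ∪ B, X i ω = X i ω₀ then ENNReal.ofReal (p ω / q ω) else 0) =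
        (if ∀ i ∈ A ∪ B, X i ω = X i ω₀ then ENNReal.ofReal (p ω) else 0) *
          (ENNReal.ofReal (q ω₀))⁻¹ := by
      intro ω
      split_ifs with h3
      · rw [hq, prob_congr (A ∪ B) h3, ← hq, ENNReal.ofReal_div_of_pos (hpos ω₀ h0)]
        rfl
      · rw [zero_mul]
    simp_rw [h2]
    rw [ENNReal.tsum_mul_right, ← hofq]
    exact ENNReal.mul_inv_cancel (by simpa using hpos ω₀ h0) ENNReal.ofReal_ne_top
  have hczero : ∀ ω₁ ω₂, (¬ ∃ ω, 0 < p ω ∧ (∀ i ∈ A, X i ω = X i ω₁) ∧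
      ∀ i ∈ B, X i ω = X i ω₂) → c ω₁ ω₂ = 0 := by
    intro ω₁ ω₂ hne
    simp only [hc]
    rw [ENNReal.tsum_eq_zero]
    intro ω
    split_ifs with h1
    · rcases (hp ω).eq_or_lt with h0 | h0
      · rw [← h0, zero_div, ENNReal.ofReal_zero]
      · exact absurd ⟨ω, h0, h1⟩ hne
    · rfl
  have hcle : ∀ ω₁ ω₂, c ω₁ ω₂ ≤ 1 := by
    intro ω₁ ω₂
    by_cases h1 : ∃ ω, 0 < p ω ∧ (∀ i ∈ A, X i ω = X i ω₁) ∧ ∀ i ∈ B, X i ω = X i ω₂
    · exact (hcval _ _ h1).le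
    · rw [hczero _ _ h1]; exact zero_le
  -- the expected value of t
  set P : Ω → ℝ≥0∞ := fun ω => ENNReal.ofReal (p ω) with hP
  have htnn : ∀ ω, 0 ≤ p ω * (qA ω * qB ω / q ω) := fun ω =>
    mul_nonneg (hp ω) (div_nonneg (mul_nonneg (hAnn ω) (hBnn ω)) (hnn ω))
  have hE : ∑' ω, ENNReal.ofReal (p ω * (qA ω * qB ω / q ω)) =
      ∑' ω₁, ∑' ω₂, P ω₁ * P ω₂ * c ω₁ ω₂ := by
    have h1 : ∀ ω, ENNReal.ofReal (p ω * (qA ω * qB ω / q ω)) = ∑' ω₁, ∑' ω₂, P ω₁ * P ω₂ *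
        (if (∀ i ∈ A, X i ω = X i ω₁) ∧ ∀ i ∈ B, X i ω = X i ω₂
          then ENNReal.ofReal (p ω / q ω) else 0) := by
      intro ω
      have h2 : p ω * (qA ω * qB ω / q ω) = qA ω * (qB ω * (p ω / q ω)) := by ring
      rw [h2, ENNReal.ofReal_mul (hAnn ω), ENNReal.ofReal_mul (hBnn ω), hofA, hofB,
        ← ENNReal.tsum_mul_right]
      refine tsum_congr fun ω₁ => ?_
      rw [← ENNReal.tsum_mul_right, ← ENNReal.tsum_mul_left]
      refine tsum_congr fun ω₂ => ?_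
      have e1 : (∀ i ∈ A, X i ω₁ = X i ω) ↔ (∀ i ∈ A, X i ω = X i ω₁) :=
        ⟨fun h i hi => (h i hi).symm, fun h i hi => (h i hi).symm⟩
      have e2 : (∀ i ∈ B, X i ω₂ = X i ω) ↔ (∀ i ∈ B, X i ω = X i ω₂) :=
        ⟨fun h i hi => (h i hi).symm, fun h i hi => (h i hi).symm⟩
      by_cases a1 : ∀ i ∈ A, X i ω = X i ω₁
      · by_cases a2 : ∀ i ∈ B, X i ω = X i ω₂
        · rw [if_pos (e1.2 a1), if_pos (e2.2 a2), if_pos ⟨a1, a2⟩, ← mul_assoc]
        · have n2 : ¬ ∀ i ∈ B, X i ω₂ = X i ω := fun h => a2 (e2.1 h)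
          have n3 : ¬ ((∀ i ∈ A, X i ω = X i ω₁) ∧ ∀ i ∈ B, X i ω = X i ω₂) := fun h => a2 h.2
          rw [if_neg n2, if_neg n3, zero_mul, mul_zero, mul_zero]
      · have n2 : ¬ ∀ i ∈ A, X i ω₁ = X i ω := fun h => a1 (e1.1 h)
        have n3 : ¬ ((∀ i ∈ A, X i ω = X i ω₁) ∧ ∀ i ∈ B, X i ω = X i ω₂) := fun h => a1 h.1
        rw [if_neg n2, if_neg n3, zero_mul, mul_zero]
    simp_rw [h1]
    rw [ENNReal.tsum_comm]
    refine tsum_congr fun ω₁ => ?_
    rw [ENNReal.tsum_comm]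
    refine tsum_congr fun ω₂ => ?_
    rw [ENNReal.tsum_mul_left]
  have hP1 : ∑' ω, P ω = 1 := by
    rw [hP, ← ENNReal.ofReal_tsum_of_nonneg hp hp1.summable, hp1.tsum_eq, ENNReal.ofReal_one]
  have hone : ∑' ω₁, ∑' ω₂, P ω₁ * P ω₂ = 1 := by
    have h1 : ∀ ω₁, ∑' ω₂, P ω₁ * P ω₂ = P ω₁ := by
      intro ω₁
      rw [ENNReal.tsum_mul_left, hP1, mul_one]
    simp_rw [h1]
    exact hP1
  have hEle : ∑' ω, ENNReal.ofReal (p ω * (qA ω * qB ω / q ω)) ≤ 1 := by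
    rw [hE, ← hone]
    refine ENNReal.tsum_le_tsum fun ω₁ => ENNReal.tsum_le_tsum fun ω₂ => ?_
    exact mul_le_of_le_one_right zero_le (hcle _ _)
  set E : ℝ := (∑' ω, ENNReal.ofReal (p ω * (qA ω * qB ω / q ω))).toReal with hEdef
  have hEfin : ∑' ω, ENNReal.ofReal (p ω * (qA ω * qB ω / q ω)) ≠ ∞ :=
    ne_top_of_le_ne_top ENNReal.one_ne_top hEle
  have hEsum : HasSum (fun ω => p ω * (qA ω * qB ω / q ω)) E :=
    hasSum_of_ofReal htnn ENNReal.toReal_nonneg (by rw [ENNReal.ofReal_toReal hEfin])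
  have hE1 : E ≤ 1 := by
    have := ENNReal.toReal_mono ENNReal.one_ne_top hEle
    simpa using this
  -- the expected value of log t
  have hlog : HasSum (fun ω => p ω * Real.log (qA ω * qB ω / q ω)) 0 := by
    have h1 : ∀ ω, p ω * Real.log (qA ω * qB ω / q ω) =
        p ω * (-Real.log (q ω)) - (p ω * (-Real.log (qA ω)) + p ω * (-Real.log (qB ω))) := by
      intro ω
      rcases (hp ω).eq_or_lt with h0 | h0
      · rw [← h0]; ring
      · rw [Real.log_div (mul_pos (hApos ω h0) (hBpos ω h0)).ne' (hpos ω h0).ne',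
          Real.log_mul (hApos ω h0).ne' (hBpos ω h0).ne']
        ring
    simp_rw [h1]
    have h2 := hAB.sub (hA.add hB)
    rwa [sub_self] at h2
  have hterm : ∀ ω, 0 ≤ p ω * (qA ω * qB ω / q ω - 1 - Real.log (qA ω * qB ω / q ω)) := by
    intro ω
    rcases (hp ω).eq_or_lt with h0 | h0
    · rw [← h0]; simp
    · apply mul_nonneg h0.le
      have := Real.log_le_sub_one_of_pos (div_pos (mul_pos (hApos ω h0) (hBpos ω h0)) (hpos ω h0))
      linarith
  have hsum : HasSum (fun ω => p ω * (qA ω * qB ω / q ω - 1 - Real.log (qA ω * qB ω / q ω)))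
      (E - 1) := by
    have h1 : ∀ ω, p ω * (qA ω * qB ω / q ω - 1 - Real.log (qA ω * qB ω / q ω)) =
        p ω * (qA ω * qB ω / q ω) - p ω - p ω * Real.log (qA ω * qB ω / q ω) := by
      intro ω; ring
    simp_rw [h1]
    have h2 := (hEsum.sub hp1).sub hlog
    rwa [sub_zero] at h2
  have hnn2 : 0 ≤ E - 1 := hsum.nonneg hterm
  have hEeq : E = 1 := by linarith
  have hzero : HasSum (fun ω => p ω * (qA ω * qB ω / q ω - 1 -
      Real.log (qA ω * qB ω / q ω))) 0 := by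
    rw [hEeq, sub_self] at hsum; exact hsum
  have hz := (hasSum_zero_iff_of_nonneg hterm).1 hzero
  refine ⟨?_, ?_⟩
  · intro ω hω
    have h1 := congrFun hz ω
    have h2 : qA ω * qB ω / q ω - 1 - Real.log (qA ω * qB ω / q ω) = 0 := by
      rcases mul_eq_zero.1 h1 with h3 | h3
      · exact absurd h3 hω.ne'
      · exact h3
    have h3 : qA ω * qB ω / q ω = 1 := by
      by_contra hne
      have := Real.log_lt_sub_one_of_pos
        (div_pos (mul_pos (hApos ω hω) (hBpos ω hω)) (hpos ω hω)) hne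
      linarith
    rw [div_eq_one_iff_eq (hpos ω hω).ne'] at h3
    exact h3.symm
  · intro ω₁ ω₂ h1 h2
    by_contra hne
    have hEE : ∑' ω₁, ∑' ω₂, P ω₁ * P ω₂ * c ω₁ ω₂ = 1 := by
      rw [← hE, ← ENNReal.ofReal_toReal hEfin, ← hEdef, hEeq, ENNReal.ofReal_one]
    have hrow : ∀ ω₁, ∑' ω₂, P ω₁ * P ω₂ * c ω₁ ω₂ ≤ ∑' ω₂, P ω₁ * P ω₂ := fun ω₁ =>
      ENNReal.tsum_le_tsum fun ω₂ => mul_le_of_le_one_right zero_le (hcle _ _)
    have h3 : ∑' ω₁, ∑' ω₂, P ω₁ * P ω₂ * c ω₁ ω₂ < ∑' ω₁, ∑' ω₂, P ω₁ * P ω₂ := by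
      refine ENNReal.tsum_lt_tsum (i := ω₁) (by rw [hEE]; exact ENNReal.one_ne_top) hrow ?_
      refine ENNReal.tsum_lt_tsum (i := ω₂) ?_
        (fun ω₂ => mul_le_of_le_one_right zero_le (hcle _ _)) ?_
      · have h4 : ∑' ω₂, P ω₁ * P ω₂ * c ω₁ ω₂ ≤ 1 := by
          refine (hrow ω₁).trans ?_
          rw [ENNReal.tsum_mul_left, hP1, mul_one, ← hP1]
          exact ENNReal.le_tsum ω₁
        exact ne_top_of_le_ne_top ENNReal.one_ne_top h4
      · rw [hczero _ _ hne, mul_zero]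
        apply ENNReal.mul_pos
        · simpa [hP] using h1
        · simpa [hP] using h2
    rw [hEE, hone] at h3
    exact lt_irrefl _ h3

end Pool.Agent.Run7.h133.CfC
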