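import Pool.Agent.Run7.h133.RayDefs
import Pool.Agent.Run7.h133.CfChi

set_option autoImplicit false

/-!
# The Fano and the non-Fano matroid
-/

namespace Pool.Agent.Run7.h133.Cf

open Matroid Pool.Agent.Run7.h133.Ray Pool.Agent.Helper998.VecMatroid

/-- the part `D` of the matrix `[I | D]` whose columns are `a, b, c, a + b, b + c, a + c` and
`a + b + c` -/
def fanoD (K : Type) [Field K] : Matrix (Fin 3) (Fin 4) K :=
  !![1, 0, 1, 1; 1, 1, 0, 1; 0, 1, 1, 1]

/-- The Fano matroid: the seven vectors `a, b, c, a + b, b + c, a + c, a + b + c` over `GF(2)`. -/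
def fano : Matroid (Fin (3 + 4)) := colMatroid (fanoD (ZMod 2))

/-- The non-Fano matroid: the seven vectors `a, b, c, a + b, b + c, a + c, a + b + c`
over `GF(3)`. -/
def nonFano : Matroid (Fin (3 + 4)) := colMatroid (fanoD (ZMod 3))

def fano_rows : List (List ℕ) := [[1, 0, 1, 1], [1, 1, 0, 1], [0, 1, 1, 1]]

def NF_R : List ℕ := [71, 71, 37, 103, 98, 37, 98, 103, 22, 87, 81, 55, 115, 116, 51, 118, 117,
  22, 81, 87, 51, 117, 118, 55, 116, 115, 11, 79, 76, 47, 110, 105, 46, 107, 109, 31, 93, 90,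
  63, 120, 127, 58, 125, 127, 29, 91, 94, 57, 126, 127, 60, 127, 123, 11, 76, 79, 46, 109, 107,
  47, 105, 110, 29, 94, 91, 60, 123, 127, 57, 127, 126, 31, 90, 93, 58, 127, 125, 63, 127, 120]

def NF_C : List ℕ := [11, 22, 37, 76, 81, 98, 29, 46, 51, 57, 58, 60, 71, 90, 105, 116, 120]

def NF_L : List ℕ := [7, 13, 14, 19, 21, 25, 26, 28, 35, 38, 41, 42, 44, 49, 50, 52, 56, 67, 69,
  70, 73, 74, 82, 84, 88, 97, 100, 104, 112]

def FF_R : List ℕ := [71, 37, 98, 22, 81, 51, 116, 11, 76, 46, 105, 29, 90, 56, 127]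

def FF_C : List ℕ := [11, 22, 37, 56, 76, 81, 98, 29, 46, 51, 71, 90, 105, 116]

def FF_L : List ℕ := [7, 13, 14, 19, 21, 25, 26, 28, 35, 38, 41, 42, 44, 49, 50, 52, 67, 69, 70,
  73, 74, 82, 84, 88, 97, 100, 104, 112]

/-- the codes for `ZMod 2` -/
def code2 : Code (ZMod 2) where
  q := 2
  dec := fun a => (a : ZMod 2)
  add := fun a b => Nat.mod (Nat.add a b) 2
  mul := fun a b => Nat.mod (Nat.mul a b) 2
  add_lt := by decide
  mul_lt := by decide
  dec_add := by decide
  dec_mul := by decide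
  dec_zero := by decide
  zero_of := by decide
  surj := by decide

theorem nonFano_hb : HasBases nonFano NF_L ∧ nonFano.eRank = (3 : ℕ) :=
  hasBases_of (r := 3) (k := 4) code3 (fanoD (ZMod 3)) fano_rows (by decide) (by decide +kernel)
    (by intro i j; fin_cases i <;> fin_cases j <;> rfl)
    (R := NF_R) (C := NF_C) (L := NF_L) (by decide +kernel) (by decide +kernel)
    (by decide +kernel)

theorem fano_hb : HasBases fano FF_L ∧ fano.eRank = (3 : ℕ) :=
  hasBases_of (r := 3) (k := 4) code2 (fanoD (ZMod 2)) fano_rows (by decide) (by decide +kernel)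
    (by intro i j; fin_cases i <;> fin_cases j <;> rfl)
    (R := FF_R) (C := FF_C) (L := FF_L) (by decide +kernel) (by decide +kernel)
    (by decide +kernel)

theorem nf_base {A : Finset (Fin 7)} (m : ℕ) (hm : m ∈ NF_L) (h : fs 7 m = A) :
    nonFano.IsBase (A : Set (Fin 7)) :=
  (nonFano_hb.1.iff A).2 ⟨m, hm, h⟩

theorem nf_pair : ∀ i j : Fin 7, ∃ m ∈ NF_L, i ∈ fs 7 m ∧ j ∈ fs 7 m := by decide +kernel

theorem nf_indep_pair (i j : Fin 7) : nonFano.Indep {i, j} := by
  obtain ⟨m, hm, hi, hj⟩ := nf_pair i j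
  have h := (nf_base m hm rfl).indep
  apply h.subset
  intro x hx
  rcases hx with rfl | rfl
  · exact Finset.mem_coe.2 hi
  · exact Finset.mem_coe.2 hj

theorem nf_rk1 (i : Fin 7) : (nonFano.eRk {i}).toNat = 1 := by
  have h := nf_indep_pair i i
  have h2 : ({i, i} : Set (Fin 7)) = {i} := by simp
  rw [h2] at h
  rw [h.eRk_eq_encard, Set.encard_singleton]
  rfl

theorem nf_rk2 (i j : Fin 7) (hij : i ≠ j) : (nonFano.eRk {i, j}).toNat = 2 := by
  rw [(nf_indep_pair i j).eRk_eq_encard, Set.encard_pair hij]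
  rfl

/-- the six lines of the non-Fano matroid -/
def nfLines : List (Finset (Fin 7)) :=
  [{0, 1, 3}, {1, 2, 4}, {0, 2, 5}, {0, 4, 6}, {1, 5, 6}, {2, 3, 6}]

theorem nf_lines_not : ∀ t ∈ nfLines, ¬ ∃ m ∈ NF_L, fs 7 m = t := by decide +kernel

theorem nf_line {t : Finset (Fin 7)} (ht : t ∈ nfLines) : ¬ nonFano.IsBase (t : Set (Fin 7)) := by
  intro h
  exact nf_lines_not t ht ((nonFano_hb.1.iff t).1 h)

theorem nf_rk_line {i j k : Fin 7} (hij : i ≠ j) (hik : i ≠ k) (hjk : j ≠ k)
    (ht : ({i, j, k} : Finset (Fin 7)) ∈ nfLines) : (nonFano.eRk {i, j, k}).toNat = 2 := by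
  have hc : ({i, j, k} : Set (Fin 7)).encard = 3 := by
    rw [Set.encard_eq_three]
    exact ⟨i, j, k, hij, hik, hjk, rfl⟩
  have hni : ¬ nonFano.Indep {i, j, k} := by
    intro hi
    obtain ⟨B, hB, hs⟩ := hi.exists_isBase_superset
    have h1 := hB.encard_eq_eRank
    rw [nonFano_hb.2] at h1
    have h2 : B.encard ≤ ({i, j, k} : Set (Fin 7)).encard := by
      rw [h1, hc]; rfl
    have h3 := (Set.toFinite ({i, j, k} : Set (Fin 7))).eq_of_subset_of_encard_le hs h2
    apply nf_line ht
    have h4 : ((({i, j, k} : Finset (Fin 7))) : Set (Fin 7)) = {i, j, k} := by simp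
    rw [h4, h3]
    exact hB
  have h1 : nonFano.eRk {i, j, k} < 3 := by
    rw [← hc]
    exact (Matroid.eRk_lt_encard_iff_dep_of_finite (Set.toFinite _)
      (Set.subset_univ _)).2 ⟨hni, Set.subset_univ _⟩
  have h2 : 2 ≤ nonFano.eRk {i, j, k} := by
    have h3 : nonFano.eRk {i, j} = 2 := by
      rw [(nf_indep_pair i j).eRk_eq_encard, Set.encard_pair hij]
    rw [← h3]
    apply nonFano.eRk_mono
    intro x; simp; tauto
  have hne : nonFano.eRk {i, j, k} ≠ ⊤ := ne_top_of_lt h1
  lift nonFano.eRk {i, j, k} to ℕ using hne with m hm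
  have h5 : m < 3 := by exact_mod_cast h1
  have h6 : 2 ≤ m := by exact_mod_cast h2
  show m = 2
  omega

theorem nf_rk_base {A : Set (Fin 7)} (B : Finset (Fin 7)) (m : ℕ) (hm : m ∈ NF_L)
    (h : fs 7 m = B) (hBA : (B : Set (Fin 7)) ⊆ A) : (nonFano.eRk A).toNat = 3 := by
  have h1 := nf_base m hm h
  have h2 : nonFano.eRk A = 3 := by
    apply le_antisymm
    · refine (nonFano.eRk_le_eRank A).trans ?_
      rw [nonFano_hb.2]; rfl
    · have h3 := h1.eRk_eq_eRank
      rw [nonFano_hb.2] at h3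
      refine le_trans ?_ (nonFano.eRk_mono hBA)
      rw [h3]; rfl
  rw [h2]; rfl

/-- No even number is in the p-characteristic set of the non-Fano matroid. -/
theorem nf_no_even {Ω S : Type} [Fintype Ω] {p : Ω → ℝ} {X : Fin 7 → Ω → S}
    (hp : ∀ ω, 0 ≤ p ω) (hp1 : ∑ ω, p ω = 1) {v : ℕ} (hv : 2 ≤ v) (hv2 : 2 ∣ v)
    (hH : ∀ A : Set (Fin 7), entropy p X A = Real.log v * (nonFano.eRk A).toNat) : False := by
  refine no_even hp hp1 hv hv2 (fun A => (nonFano.eRk A).toNat) hH nf_rk1 nf_rk2
    (nf_rk_line (by decide) (by decide) (by decide) (by decide))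
    (nf_rk_line (by decide) (by decide) (by decide) (by decide))
    (nf_rk_line (by decide) (by decide) (by decide) (by decide))
    (nf_rk_line (by decide) (by decide) (by decide) (by decide))
    (nf_rk_line (by decide) (by decide) (by decide) (by decide))
    (nf_rk_line (by decide) (by decide) (by decide) (by decide))
    (nf_rk_base {0, 1, 2} 7 (by decide) (by decide) (by simp))
    (nf_rk_base {6, 1, 2} 70 (by decide) (by decide) (by simp))
    (nf_rk_base {6, 0, 2} 69 (by decide) (by decide) (by simp))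
    (nf_rk_base {6, 0, 1} 67 (by decide) (by decide) (by simp))
    (nf_rk_base {3, 4, 5} 56 (by decide) (by decide) (by simp))
    (nf_rk_base {3, 4, 5} 56 (by decide) (by decide) ?_)
  intro x hx
  simp only [Finset.coe_insert, Finset.coe_singleton, Set.mem_insert_iff,
    Set.mem_singleton_iff] at hx ⊢
  tauto

section binary

variable {K : Type} [Field K] {V : Type} [AddCommGroup V] [Module K V] {α : Type} {u : α → V}

theorem pair_indep {x y : α} (hxy : x ≠ y) (h : LinearIndepOn K u {x, y}) {s t : K}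
    (h0 : s • u x + t • u y = 0) : s = 0 ∧ t = 0 := by
  rw [LinearIndepOn.pair_iff u hxy] at h
  exact h s t h0

theorem triple_indep {x y z : α} (hxy : x ≠ y) (hxz : x ≠ z) (hyz : y ≠ z)
    (h : LinearIndepOn K u {x, y, z}) {r s t : K}
    (h0 : r • u x + s • u y + t • u z = 0) : r = 0 ∧ s = 0 ∧ t = 0 := by
  classical
  have h2 := linearIndepOn_iff'.1 h
  have hf : (↑({x, y, z} : Finset α) : Set α) ⊆ ({x, y, z} : Set α) := by
    intro w hw; simpa using hw
  have h3 := h2 {x, y, z} (fun w => if w = x then r else if w = y then s else t) hf (by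
    rw [Finset.sum_insert (by simp [hxy, hxz]), Finset.sum_insert (by simp [hyz]),
      Finset.sum_singleton]
    simp only [if_true, if_neg hxy.symm, if_neg hxz.symm, if_neg hyz.symm]
    rw [← add_assoc]; exact h0)
  have hx := h3 x (by simp)
  have hy := h3 y (by simp)
  have hz := h3 z (by simp)
  simp only [if_true, if_neg hxy.symm, if_neg hxz.symm, if_neg hyz.symm] at hx hy hz
  exact ⟨hx, hy, hz⟩

theorem triple_dep {x y z : α} (hxy : x ≠ y) (hxz : x ≠ z) (hyz : y ≠ z)
    (h : ¬ LinearIndepOn K u {x, y, z}) :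
    ∃ r s t : K, r • u x + s • u y + t • u z = 0 ∧ (r ≠ 0 ∨ s ≠ 0 ∨ t ≠ 0) := by
  classical
  rw [linearIndepOn_iff'] at h
  push Not at h
  obtain ⟨S, g, hS, hsum, i, hi, hgi⟩ := h
  have hS' : S ⊆ ({x, y, z} : Finset α) := by
    intro w hw
    have := hS hw
    simpa using this
  set g' : α → K := fun w => if w ∈ S then g w else 0 with hg'
  have h1 : ∑ w ∈ ({x, y, z} : Finset α), g' w • u w = 0 := by
    rw [← Finset.sum_subset hS']
    · rw [← hsum]
      apply Finset.sum_congr rfl
      intro w hw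
      simp [hg', hw]
    · intro w _ hw
      simp [hg', hw]
  rw [Finset.sum_insert (by simp [hxy, hxz]), Finset.sum_insert (by simp [hyz]),
      Finset.sum_singleton, ← add_assoc] at h1
  refine ⟨g' x, g' y, g' z, h1, ?_⟩
  have hi' := hS' hi
  have hgi' : g' i ≠ 0 := by simp [hg', hi, hgi]
  simp only [Finset.mem_insert, Finset.mem_singleton] at hi'
  rcases hi' with rfl | rfl | rfl
  · exact Or.inl hgi'
  · exact Or.inr (Or.inl hgi')
  · exact Or.inr (Or.inr hgi')

end binary

theorem two_cases (x : ZMod 2) : x = 0 ∨ x = 1 := by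
  revert x; decide

theorem line_sum {V : Type} [AddCommGroup V] [Module (ZMod 2) V] {u : Fin 7 → V}
    (hu : ∀ I : Set (Fin 7), (nonFano.Indep I ↔ LinearIndepOn (ZMod 2) u I)) {i j k : Fin 7}
    (hij : i ≠ j) (hik : i ≠ k) (hjk : j ≠ k)
    (ht : ({i, j, k} : Finset (Fin 7)) ∈ nfLines) : u i + u j + u k = 0 := by
  have hdep : ¬ LinearIndepOn (ZMod 2) u {i, j, k} := by
    rw [← hu]
    intro hi
    have h1 := nf_rk_line hij hik hjk ht
    rw [hi.eRk_eq_encard] at h1
    have hc : ({i, j, k} : Set (Fin 7)).encard = 3 := by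
      rw [Set.encard_eq_three]
      exact ⟨i, j, k, hij, hik, hjk, rfl⟩
    rw [hc] at h1
    exact absurd h1 (by decide)
  obtain ⟨r, s, t, h0, hne⟩ := triple_dep hij hik hjk hdep
  have pij := (hu {i, j}).1 (nf_indep_pair i j)
  have pik := (hu {i, k}).1 (nf_indep_pair i k)
  have pjk := (hu {j, k}).1 (nf_indep_pair j k)
  rcases two_cases r with hr | hr
  · exfalso
    rw [hr, zero_smul, zero_add] at h0
    obtain ⟨h1, h2⟩ := pair_indep hjk pjk h0
    rcases hne with h | h | h
    · exact h hr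
    · exact h h1
    · exact h h2
  rcases two_cases s with hs | hs
  · exfalso
    rw [hs, zero_smul, add_zero] at h0
    obtain ⟨h1, h2⟩ := pair_indep hik pik h0
    rcases hne with h | h | h
    · exact h h1
    · exact h hs
    · exact h h2
  rcases two_cases t with ht' | ht'
  · exfalso
    rw [ht', zero_smul, add_zero] at h0
    obtain ⟨h1, h2⟩ := pair_indep hij pij h0
    rcases hne with h | h | h
    · exact h h1
    · exact h h2
    · exact h ht'
  rw [hr, hs, ht', one_smul, one_smul, one_smul] at h0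
  exact h0

/-- the non-Fano matroid is not binary -/
theorem nonFano_not_binary : ¬ RepOver (ZMod 2) nonFano := by
  rintro ⟨n, v, hv⟩
  have hu : ∀ I : Set (Fin 7), (nonFano.Indep I ↔ LinearIndepOn (ZMod 2) v I) :=
    fun I => hv I (Set.subset_univ _)
  have e1 := line_sum hu (i := 0) (j := 1) (k := 3) (by decide) (by decide) (by decide) (by decide)
  have e2 := line_sum hu (i := 1) (j := 2) (k := 4) (by decide) (by decide) (by decide) (by decide)
  have e3 := line_sum hu (i := 0) (j := 2) (k := 5) (by decide) (by decide) (by decide) (by decide)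
  have two : ∀ w : Fin n → ZMod 2, w + w = 0 := by
    intro w
    funext i
    show w i + w i = 0
    rcases two_cases (w i) with h | h <;> rw [h] <;> decide
  have e4 : v 3 + v 4 + v 5 = 0 := by
    have h1 : (v 0 + v 1 + v 3) + (v 1 + v 2 + v 4) + (v 0 + v 2 + v 5) = 0 := by
      rw [e1, e2, e3]; simp
    have h2 : (v 0 + v 1 + v 3) + (v 1 + v 2 + v 4) + (v 0 + v 2 + v 5) =
        (v 0 + v 0) + (v 1 + v 1) + (v 2 + v 2) + (v 3 + v 4 + v 5) := by abel
    rw [h2] at h1
    simp only [two, zero_add] at h1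
    exact h1
  have hi : nonFano.Indep ((({3, 4, 5} : Finset (Fin 7))) : Set (Fin 7)) :=
    (nf_base 56 (by decide) (by decide)).indep
  have h5 : ((({3, 4, 5} : Finset (Fin 7))) : Set (Fin 7)) = {3, 4, 5} := by simp
  rw [h5, hu] at hi
  have h6 := triple_indep (by decide) (by decide) (by decide) hi (r := 1) (s := 1) (t := 1)
    (by simpa using e4)
  exact absurd h6.1 (by decide)

end Pool.Agent.Run7.h133.Cf
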