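import Mathlib
import Pool.Agent.Helper160.R3Dual
import Pool.Agent.Helper214.PavDual
import Pool.Agent.Helper442.Minor

set_option autoImplicit false

/-!
# The weighted negative correlation inequality for minors of small rank or corank
-/

namespace Pool.Agent.Run7.h133.Ray

open Finset Pool.Agent.Helper214.PavMain Filter Topology Matroid

section limit

variable {α : Type*} [Fintype α] [DecidableEq α]

/-- the weights used for the limit -/
noncomputable def wt (z : α → ℝ) (X D : Finset α) (x : α) : ℝ := if x ∈ X ∪ D then 1 else z x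

open Classical in
/-- the weighted sum, rescaled, as a function of the parameter `s` -/
noncomputable def GG (P Q : Finset α → Prop) (z : α → ℝ) (X D : Finset α) (s : ℝ) : ℝ :=
  ∑ A : Finset α, if P A ∧ Q A then
    (∏ x ∈ A, wt z X D x) * s ^ ((X \ A).card + (A ∩ D).card) else 0

/-- the weights with parameter `s` -/
noncomputable def zs (z : α → ℝ) (X D : Finset α) (s : ℝ) (x : α) : ℝ :=
  wt z X D x * (if x ∈ X then s⁻¹ else 1) * (if x ∈ D then s else 1)

omit [Fintype α] in
theorem zs_pos {z : α → ℝ} (hz : ∀ x, 0 < z x) (X D : Finset α) {s : ℝ} (hs : 0 < s) (x : α) :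
    0 < zs z X D s x := by
  unfold zs wt
  have := hz x
  have h2 : 0 < s⁻¹ := inv_pos.2 hs
  split_ifs <;> positivity

open Classical in
theorem sum_zs (P Q : Finset α → Prop) (z : α → ℝ) (X D : Finset α) {s : ℝ} (hs : 0 < s) :
    (∑ A : Finset α, if P A ∧ Q A then ∏ x ∈ A, zs z X D s x else 0) * s ^ X.card =
      GG P Q z X D s := by
  unfold GG
  rw [Finset.sum_mul]
  refine Finset.sum_congr rfl fun A _ => ?_
  split_ifs with h
  · unfold zs
    rw [Finset.prod_mul_distrib, Finset.prod_mul_distrib]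
    have h1 : ∏ x ∈ A, (if x ∈ X then s⁻¹ else 1) = s⁻¹ ^ (A ∩ X).card := by
      rw [Finset.prod_ite, Finset.prod_const, Finset.prod_const_one, mul_one,
        Finset.filter_mem_eq_inter]
    have h2 : ∏ x ∈ A, (if x ∈ D then s else 1) = s ^ (A ∩ D).card := by
      rw [Finset.prod_ite, Finset.prod_const, Finset.prod_const_one, mul_one,
        Finset.filter_mem_eq_inter]
    rw [h1, h2]
    have h3 : X.card = (A ∩ X).card + (X \ A).card := by
      rw [Finset.inter_comm]
      exact (Finset.card_inter_add_card_sdiff X A).symm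
    rw [h3, pow_add, pow_add]
    have h4 : s⁻¹ ^ (A ∩ X).card * s ^ (A ∩ X).card = 1 := by
      rw [← mul_pow, inv_mul_cancel₀ hs.ne', one_pow]
    calc _ = (∏ x ∈ A, wt z X D x) * s ^ (A ∩ D).card * s ^ (X \ A).card *
          (s⁻¹ ^ (A ∩ X).card * s ^ (A ∩ X).card) := by ring
      _ = _ := by rw [h4]; ring
  · rw [zero_mul]

theorem GG_cont (P Q : Finset α → Prop) (z : α → ℝ) (X D : Finset α) :
    Continuous (GG P Q z X D) := by
  unfold GG
  refine continuous_finsetSum _ fun A _ => ?_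
  split_ifs
  · exact continuous_const.mul (continuous_pow _)
  · exact continuous_const

open Classical in
theorem GG_zero (P Q : Finset α → Prop) (z : α → ℝ) (X D : Finset α) (hXD : Disjoint X D)
    (hQ : ∀ A : Finset α, Disjoint A (X ∪ D) → (Q (A ∪ X) ↔ Q A)) :
    GG P Q z X D 0 =
      ∑ A : Finset α, if (Disjoint A (X ∪ D) ∧ P (A ∪ X)) ∧ Q A then ∏ x ∈ A, z x else 0 := by
  unfold GG
  rw [← Finset.sum_filter, ← Finset.sum_filter]
  rw [← Finset.sum_subset (s₁ := (univ.filter fun A : Finset α =>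
    (P A ∧ Q A) ∧ (X ⊆ A ∧ Disjoint A D)))]
  · refine Finset.sum_nbij' (fun A => A \ X) (fun A => A ∪ X) ?_ ?_ ?_ ?_ ?_
    · intro A hA
      simp only [Finset.mem_filter, Finset.mem_univ, true_and] at hA ⊢
      obtain ⟨⟨h1, h2⟩, h3, h4⟩ := hA
      have h5 : A \ X ∪ X = A := Finset.sdiff_union_of_subset h3
      have h6 : Disjoint (A \ X) (X ∪ D) := by
        rw [Finset.disjoint_union_right]
        exact ⟨Finset.sdiff_disjoint, h4.mono_left Finset.sdiff_subset⟩
      refine ⟨⟨h6, by rw [h5]; exact h1⟩, ?_⟩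
      rw [← hQ _ h6, h5]; exact h2
    · intro A hA
      simp only [Finset.mem_filter, Finset.mem_univ, true_and] at hA ⊢
      obtain ⟨⟨h1, h2⟩, h3⟩ := hA
      refine ⟨⟨h2, (hQ A h1).2 h3⟩, Finset.subset_union_right, ?_⟩
      rw [Finset.disjoint_union_left]
      rw [Finset.disjoint_union_right] at h1
      exact ⟨h1.2, hXD⟩
    · intro A hA
      simp only [Finset.mem_filter, Finset.mem_univ, true_and] at hA
      exact Finset.sdiff_union_of_subset hA.2.1
    · intro A hA
      simp only [Finset.mem_filter, Finset.mem_univ, true_and] at hA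
      have h1 := hA.1.1
      rw [Finset.disjoint_union_right] at h1
      exact Finset.union_sdiff_cancel_right h1.1
    · intro A hA
      simp only [Finset.mem_filter, Finset.mem_univ, true_and] at hA
      obtain ⟨⟨h1, h2⟩, h3, h4⟩ := hA
      have h5 : (X \ A).card + (A ∩ D).card = 0 := by
        rw [Finset.sdiff_eq_empty_iff_subset.2 h3, Finset.disjoint_iff_inter_eq_empty.1 h4]
        simp
      rw [h5, pow_zero, mul_one]
      conv_lhs => rw [← Finset.sdiff_union_of_subset h3]
      rw [Finset.prod_union Finset.sdiff_disjoint]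
      have h6 : ∏ x ∈ X, wt z X D x = 1 := by
        apply Finset.prod_eq_one
        intro x hx
        unfold wt
        rw [if_pos (Finset.mem_union_left _ hx)]
      rw [h6, mul_one]
      refine Finset.prod_congr rfl fun x hx => ?_
      unfold wt
      rw [if_neg]
      intro hx2
      rw [Finset.mem_sdiff] at hx
      rcases Finset.mem_union.1 hx2 with h7 | h7
      · exact hx.2 h7
      · exact (Finset.disjoint_left.1 h4) hx.1 h7
  · intro A hA
    simp only [Finset.mem_filter, Finset.mem_univ, true_and] at hA ⊢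
    exact hA.1
  · intro A hA hA2
    simp only [Finset.mem_filter, Finset.mem_univ, true_and, not_and] at hA hA2
    have h1 := hA2 hA
    have h2 : (X \ A).card + (A ∩ D).card ≠ 0 := by
      intro h0
      have h3 : (X \ A).card = 0 := by omega
      have h4 : (A ∩ D).card = 0 := by omega
      rw [Finset.card_eq_zero] at h3 h4
      exact h1 (Finset.sdiff_eq_empty_iff_subset.1 h3) (Finset.disjoint_iff_inter_eq_empty.2 h4)
    rw [zero_pow h2, mul_zero]

/-- The weighted negative correlation inequality passes to minors of the family of sets. -/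
theorem limit_negCorr {P : Finset α → Prop} (h : NegCorr P) (X D : Finset α)
    (hXD : Disjoint X D) :
    NegCorr (fun A : Finset α => Disjoint A (X ∪ D) ∧ P (A ∪ X)) := by
  classical
  intro z hz e f hef
  by_cases he : e ∈ X ∪ D
  · have h1 : ∀ A : Finset α, ¬ ((Disjoint A (X ∪ D) ∧ P (A ∪ X)) ∧ e ∈ A) := by
      rintro A ⟨⟨h2, _⟩, h3⟩
      exact (Finset.disjoint_left.1 h2) h3 he
    have h2 : ∀ A : Finset α, ¬ ((Disjoint A (X ∪ D) ∧ P (A ∪ X)) ∧ e ∈ A ∧ f ∈ A) :=
      fun A hA => h1 A ⟨hA.1, hA.2.1⟩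
    simp only [h1, h2, if_false, Finset.sum_const_zero, zero_mul, le_refl]
  by_cases hf : f ∈ X ∪ D
  · have h1 : ∀ A : Finset α, ¬ ((Disjoint A (X ∪ D) ∧ P (A ∪ X)) ∧ f ∈ A) := by
      rintro A ⟨⟨h2, _⟩, h3⟩
      exact (Finset.disjoint_left.1 h2) h3 hf
    have h2 : ∀ A : Finset α, ¬ ((Disjoint A (X ∪ D) ∧ P (A ∪ X)) ∧ e ∈ A ∧ f ∈ A) :=
      fun A hA => h1 A ⟨hA.1, hA.2.2⟩
    simp only [h1, h2, if_false, Finset.sum_const_zero, zero_mul, mul_zero, le_refl]
  have heX : e ∉ X := fun hh => he (Finset.mem_union_left _ hh)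
  have hfX : f ∉ X := fun hh => hf (Finset.mem_union_left _ hh)
  have key : ∀ s : ℝ, 0 < s →
      0 ≤ GG P (fun A => e ∈ A) z X D s * GG P (fun A => f ∈ A) z X D s -
        GG P (fun A => e ∈ A ∧ f ∈ A) z X D s * GG P (fun _ => True) z X D s := by
    intro s hs
    have h1 := h (zs z X D s) (zs_pos hz X D hs) e f hef
    rw [← sum_zs _ _ _ _ _ hs, ← sum_zs _ _ _ _ _ hs, ← sum_zs _ _ _ _ _ hs,
      ← sum_zs _ _ _ _ _ hs]
    simp only [and_true]
    have h2 : 0 < s ^ X.card := pow_pos hs _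
    have h3 := mul_le_mul_of_nonneg_right h1 (mul_pos h2 h2).le
    have h4 := sub_nonneg.2 h3
    refine le_of_le_of_eq h4 ?_
    ring
  have hc : Continuous fun s : ℝ =>
      GG P (fun A => e ∈ A) z X D s * GG P (fun A => f ∈ A) z X D s -
        GG P (fun A => e ∈ A ∧ f ∈ A) z X D s * GG P (fun _ => True) z X D s :=
    ((GG_cont _ _ _ _ _).mul (GG_cont _ _ _ _ _)).sub ((GG_cont _ _ _ _ _).mul (GG_cont _ _ _ _ _))
  have h0 : 0 ≤ GG P (fun A => e ∈ A) z X D 0 * GG P (fun A => f ∈ A) z X D 0 -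
        GG P (fun A => e ∈ A ∧ f ∈ A) z X D 0 * GG P (fun _ => True) z X D 0 := by
    have ht := (hc.tendsto 0).mono_left (nhdsWithin_le_nhds (s := Set.Ioi (0 : ℝ)))
    refine ge_of_tendsto ht ?_
    filter_upwards [self_mem_nhdsWithin] with s hs
    exact key s hs
  rw [GG_zero _ _ _ _ _ hXD, GG_zero _ _ _ _ _ hXD, GG_zero _ _ _ _ _ hXD,
    GG_zero _ _ _ _ _ hXD] at h0
  · simp only [and_true] at h0
    convert sub_nonneg.1 h0
  · intro A _; rfl
  · intro A _
    simp [heX, hfX]
  · intro A _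
    simp [hfX]
  · intro A _
    simp [heX]

end limit

section matroid

variable {α : Type*} [Fintype α] [DecidableEq α]

theorem negCorr_rank3 (M : Matroid α) (h : M.eRank = 3) :
    NegCorr fun A : Finset α => M.IsBase (A : Set α) := by
  classical
  apply base_of_spanning
  intro z hz e f hef
  have := Pool.Agent.Helper160.R3.rank3_spanning M h z hz e f hef
  convert this

theorem negCorr_corank3 (M : Matroid α) (h : M✶.eRank = 3) :
    NegCorr fun A : Finset α => M.IsBase (A : Set α) := by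
  classical
  apply base_of_indep
  intro z hz e f hef
  have := Pool.Agent.Helper160.R3.corank3_indep M h z hz e f hef
  convert this

theorem NegCorr.congr {P Q : Finset α → Prop} (h : NegCorr P) (hPQ : ∀ A, P A ↔ Q A) :
    NegCorr Q := by
  have : P = Q := by ext A; exact hPQ A
  rw [← this]; exact h

theorem low_rank (M : Matroid α) {r : ℕ} (hr : M.eRank = r) (X D : Finset α)
    (hXD : Disjoint X D) (hne : ∃ A : Finset α, Disjoint A (X ∪ D) ∧
      M.IsBase ((A ∪ X : Finset α) : Set α)) (hr3 : 3 ≤ r) (hX : r ≤ X.card + 3) :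
    NegCorr fun A : Finset α => Disjoint A (X ∪ D) ∧ M.IsBase ((A ∪ X : Finset α) : Set α) := by
  classical
  obtain ⟨A0, hA0, hB0⟩ := hne
  obtain ⟨X0, hX0, hc⟩ := Finset.exists_subset_card_eq (s := X) (n := r - 3) (by omega)
  have hi : M.Indep (X0 : Set α) := by
    apply hB0.indep.subset
    rw [Finset.coe_subset]
    exact hX0.trans Finset.subset_union_right
  have h3 : (M ／ (X0 : Set α)).eRank = 3 := by
    obtain ⟨B, hB⟩ := (M ／ (X0 : Set α)).exists_isBase
    rw [← hB.encard_eq_eRank]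
    rw [hi.contract_isBase_iff] at hB
    have h4 := hB.1.encard_eq_eRank
    rw [Set.encard_union_eq hB.2, hr, Set.encard_coe_eq_coe_finsetCard, hc] at h4
    have h5 : B.Finite := Set.toFinite _
    rw [← h5.cast_ncard_eq] at h4 ⊢
    norm_cast at h4 ⊢
    omega
  have h4 := limit_negCorr (negCorr_rank3 _ h3) (X \ X0) D
    (hXD.mono_left Finset.sdiff_subset)
  refine NegCorr.congr h4 fun A => ?_
  rw [hi.contract_isBase_iff]
  have h5 : ((A ∪ X \ X0 : Finset α) : Set α) ∪ (X0 : Set α) = ((A ∪ X : Finset α) : Set α) := by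
    rw [← Finset.coe_union, Finset.union_assoc, Finset.sdiff_union_of_subset hX0]
  rw [h5, Finset.disjoint_coe, Finset.disjoint_union_right, Finset.disjoint_union_right,
    Finset.disjoint_union_left]
  constructor
  · rintro ⟨⟨h6, h7⟩, h8, h9, h10⟩
    refine ⟨⟨?_, h7⟩, h8⟩
    rw [← Finset.sdiff_union_of_subset hX0, Finset.disjoint_union_right]
    exact ⟨h6, h9⟩
  · rintro ⟨⟨h6, h7⟩, h8⟩
    exact ⟨⟨h6.mono_right Finset.sdiff_subset, h7⟩, h8, h6.mono_right hX0, Finset.sdiff_disjoint⟩

omit [DecidableEq α] in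
theorem eRank_dual (M : Matroid α) (hE : M.E = Set.univ) {r : ℕ} (hr : M.eRank = r) :
    M✶.eRank = ((Fintype.card α - r : ℕ) : ℕ∞) := by
  classical
  obtain ⟨B, hB⟩ := M.exists_isBase
  have h1 := hB.compl_isBase_dual
  rw [hE] at h1
  rw [← h1.encard_eq_eRank]
  have h2 := hB.encard_eq_eRank
  rw [hr] at h2
  have h3 : (Set.univ \ B).encard + B.encard = (Set.univ : Set α).encard :=
    Set.encard_sdiff_add_encard_of_subset (Set.subset_univ B)
  rw [h2, Set.encard_univ, ENat.card_eq_coe_fintype_card] at h3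
  have h4 : (Set.univ \ B).Finite := Set.toFinite _
  rw [← h4.cast_ncard_eq] at h3 ⊢
  norm_cast at h3 ⊢
  omega

theorem low_corank (M : Matroid α) (hE : M.E = Set.univ) {r : ℕ} (hr : M.eRank = r)
    (X D : Finset α)
    (hXD : Disjoint X D) (hne : ∃ A : Finset α, Disjoint A (X ∪ D) ∧
      M.IsBase ((A ∪ X : Finset α) : Set α)) (hr3 : 3 + r ≤ Fintype.card α)
      (hD : Fintype.card α ≤ r + D.card + 3) :
    NegCorr fun A : Finset α => Disjoint A (X ∪ D) ∧ M.IsBase ((A ∪ X : Finset α) : Set α) := by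
  classical
  obtain ⟨A0, hA0, hB0⟩ := hne
  obtain ⟨D0, hD0, hc⟩ := Finset.exists_subset_card_eq (s := D) (n := Fintype.card α - r - 3)
    (by omega)
  have hco : M.Coindep (D0 : Set α) := by
    rw [Matroid.coindep_iff_exists]
    · refine ⟨_, hB0, ?_⟩
      rw [Finset.disjoint_union_right] at hA0
      rw [hE, Set.subset_sdiff]
      refine ⟨Set.subset_univ _, ?_⟩
      rw [Finset.disjoint_coe, Finset.disjoint_union_left]
      exact ⟨hA0.2.mono_right hD0, hXD.mono_right hD0⟩
  have hi : M✶.Indep (D0 : Set α) := hco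
  have h3 : (M ＼ (D0 : Set α))✶.eRank = 3 := by
    rw [Matroid.dual_delete]
    obtain ⟨B, hB⟩ := (M✶ ／ (D0 : Set α)).exists_isBase
    rw [← hB.encard_eq_eRank]
    rw [hi.contract_isBase_iff] at hB
    have h4 := hB.1.encard_eq_eRank
    rw [Set.encard_union_eq hB.2, eRank_dual M hE hr, Set.encard_coe_eq_coe_finsetCard, hc] at h4
    have h5 : B.Finite := Set.toFinite _
    rw [← h5.cast_ncard_eq] at h4 ⊢
    norm_cast at h4 ⊢
    omega
  have h4 := limit_negCorr (negCorr_corank3 _ h3) X D hXD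
  refine NegCorr.congr h4 fun A => ?_
  rw [hco.delete_isBase_iff]
  constructor
  · rintro ⟨h6, h8, h9⟩
    exact ⟨h6, h8⟩
  · rintro ⟨h6, h8⟩
    refine ⟨h6, h8, ?_⟩
    rw [Finset.disjoint_union_right] at h6
    rw [Finset.disjoint_coe, Finset.disjoint_union_left]
    exact ⟨h6.2.mono_right hD0, hXD.mono_right hD0⟩

/-- the bases of a minor -/
theorem minor_fam {M N : Matroid α} (hE : M.E = Set.univ) (h : N ≤m M) :
    ∃ X D : Finset α, Disjoint X D ∧ N.E = ((X ∪ D : Finset α) : Set α)ᶜ ∧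
      (∃ A : Finset α, Disjoint A (X ∪ D) ∧ M.IsBase ((A ∪ X : Finset α) : Set α)) ∧
      ∀ A : Finset α, N.IsBase (A : Set α) ↔ Disjoint A (X ∪ D) ∧
        M.IsBase ((A ∪ X : Finset α) : Set α) := by
  classical
  obtain ⟨X, hX, hB⟩ := Pool.Agent.Helper442.Vec.minor_bases h
  have hXc : ((X.toFinset : Finset α) : Set α) = X := Set.coe_toFinset X
  have hEe : N.E = ((X.toFinset ∪ (Set.univ \ (N.E ∪ X)).toFinset : Finset α) : Set α)ᶜ := by
    rw [Finset.coe_union, Set.coe_toFinset, Set.coe_toFinset]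
    ext x
    have h9 : x ∈ X → x ∉ N.E := fun h => Set.disjoint_left.1 hX h
    simp only [Set.mem_compl_iff, Set.mem_union, Set.mem_sdiff, Set.mem_univ, true_and]
    tauto
  have key : ∀ A : Finset α, N.IsBase (A : Set α) ↔
      Disjoint A (X.toFinset ∪ (Set.univ \ (N.E ∪ X)).toFinset) ∧
        M.IsBase ((A ∪ X.toFinset : Finset α) : Set α) := by
    intro A
    rw [hB, Finset.coe_union, hXc]
    refine and_congr_left fun _ => ?_
    rw [← Finset.disjoint_coe, ← Set.subset_compl_iff_disjoint_right, ← hEe]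
  refine ⟨X.toFinset, (Set.univ \ (N.E ∪ X)).toFinset, ?_, hEe, ?_, key⟩
  · rw [← Finset.disjoint_coe, Set.coe_toFinset, Set.coe_toFinset]
    rw [Set.disjoint_left]
    intro x hx hx2
    exact hx2.2 (Or.inr hx)
  · obtain ⟨B, hBb⟩ := N.exists_isBase
    refine ⟨B.toFinset, ?_⟩
    rw [← key, Set.coe_toFinset]
    exact hBb

end matroid

end Pool.Agent.Run7.h133.Ray
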