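import Pool.Agent.Run7.h133.RayVec

set_option autoImplicit false

/-!
# The list of the bases of the vector matroid of a matrix `[I | D]`
-/

namespace Pool.Agent.Run7.h133.Ray

open Finset Matroid Pool.Agent.Helper998.VecMatroid

/-- number of bits -/
def pc : ℕ → ℕ → ℕ
  | 0, _ => 0
  | n + 1, m => Nat.add (Nat.mod m 2) (pc n (Nat.div m 2))

theorem card_fs (n : ℕ) : ∀ m : ℕ, (fs n m).card = pc n m := by
  induction n with
  | zero => intro m; simp [fs, pc]
  | succ n ih =>
    intro m
    have h0 : pc (n + 1) m = m % 2 + pc n (m / 2) := rfl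
    rw [h0, ← ih]
    unfold fs
    rw [Finset.card_filter, Finset.card_filter, Fin.sum_univ_succ]
    congr 1
    · simp only [Fin.val_zero, Nat.testBit_zero, decide_eq_true_eq]
      split_ifs <;> omega
    · refine Finset.sum_congr rfl fun i _ => ?_
      rw [Fin.val_succ, Nat.testBit_succ]

/-- the test whether the mask `t` is contained in the mask `m` -/
def sub (t m : ℕ) : Bool := Nat.beq (Nat.land t m) t

theorem sub_fs {n t m : ℕ} (h : sub t m = true) : fs n t ⊆ fs n m := by
  intro i hi
  rw [mem_fs] at hi ⊢
  have h1 : Nat.land t m = t := Nat.eq_of_beq_eq_true h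
  rw [← h1] at hi
  have h2 : (t &&& m).testBit i = true := hi
  rw [Nat.testBit_and, Bool.and_eq_true] at h2
  exact h2.2

theorem sub_of_fs {n t m : ℕ} (ht : t < 2 ^ n) (h : fs n t ⊆ fs n m) : sub t m = true := by
  unfold sub
  have h1 : t &&& m = t := by
    apply Nat.eq_of_testBit_eq
    intro i
    rw [Nat.testBit_and]
    by_cases hi : i < n
    · cases h2 : t.testBit i
      · rfl
      · have h3 : (⟨i, hi⟩ : Fin n) ∈ fs n m := h (mem_fs.2 h2)
        rw [mem_fs] at h3
        simp only at h3
        rw [h3]; rfl
    · have h2 : t.testBit i = false :=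
        Nat.testBit_lt_two_pow (lt_of_lt_of_le ht (Nat.pow_le_pow_right (by norm_num) (by omega)))
      rw [h2]; rfl
  have h2 : Nat.land t m = t := h1
  rw [h2]
  exact Nat.beq_refl t

/-- the masks of size `r` which contain none of the masks in `C` -/
def baseList (n r : ℕ) (C : List ℕ) : List ℕ :=
  (List.range (2 ^ n)).filter fun m => Nat.beq (pc n m) r && C.all fun t => !(sub t m)

/-- the supports of all relations -/
def relList (q : ℕ) (add mul : ℕ → ℕ → ℕ) (k : ℕ) (rows : List (List ℕ)) : List ℕ :=
  ((allW q k).filter fun w => w.any fun a => !Nat.beq a 0).map (maskW add mul rows)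

/-- the check of the list `C` of the circuits -/
def circCheck (n : ℕ) (R C : List ℕ) : Bool :=
  (R.all fun s => C.any fun t => sub t s) && (C.all fun t => R.any fun s => sub s t) &&
    C.all fun t => Nat.blt t (2 ^ n)

section

variable {K : Type*} [Field K]

/-- the columns of the matrix `[I | D]` -/
def stdVec {r k : ℕ} (D : Matrix (Fin r) (Fin k) K) : Fin (r + k) → (Fin r → K) :=
  Fin.addCases (fun j => Pi.single j 1) (fun j i => D i j)

variable (c : Code K)

theorem hasBases_of {r k : ℕ} (D : Matrix (Fin r) (Fin k) K) (rows : List (List ℕ))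
    (hr : rows.length = r) (hk : ∀ row ∈ rows, row.length = k ∧ ∀ a ∈ row, a < c.q)
    (hD : ∀ (i : Fin r) (j : Fin k), D i j = c.dec ((rows.getD i []).getD j 0))
    {R C L : List ℕ} (hR : relList c.q c.add c.mul k rows = R)
    (hC : circCheck (r + k) R C = true) (hL : baseList (r + k) r C = L) :
    HasBases (vecMatroid K (stdVec D)) L ∧ (vecMatroid K (stdVec D)).eRank = r := by
  classical
  set A : Fin r → Fin (r + k) → K := fun i j => stdVec D j i with hA
  have hA1 : ∀ i j, A i (Fin.castAdd k j) = if i = j then 1 else 0 := by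
    intro i j
    simp only [hA, stdVec, Fin.addCases_left]
    rw [Pi.single_apply]
  have hA2 : ∀ (i : Fin r) (j : Fin k), A i (Fin.natAdd r j) =
      c.dec ((rows.getD i []).getD j 0) := by
    intro i j
    simp only [hA, stdVec, Fin.addCases_right]
    exact hD i j
  have hdep := dep_iff_mask c A rows hr hk hA1 hA2
  have hrank := vec_eRank A hA1
  have hM : (vecMatroid K fun j i => A i j) = vecMatroid K (stdVec D) := rfl
  rw [hM] at hdep hrank
  refine ⟨?_, hrank⟩
  unfold circCheck at hC
  rw [Bool.and_eq_true, Bool.and_eq_true, List.all_eq_true, List.all_eq_true,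
    List.all_eq_true] at hC
  obtain ⟨⟨hC1, hC2⟩, hC3⟩ := hC
  have hdep2 : ∀ B : Finset (Fin (r + k)), (vecMatroid K (stdVec D)).Dep (B : Set (Fin (r + k))) ↔
      ∃ t ∈ C, fs (r + k) t ⊆ B := by
    intro B
    rw [hdep]
    constructor
    · rintro ⟨w, hw, ⟨a, haw, ha0⟩, hs⟩
      have h1 : maskW c.add c.mul rows w ∈ R := by
        rw [← hR]
        unfold relList
        rw [List.mem_map]
        refine ⟨w, List.mem_filter.2 ⟨hw, ?_⟩, rfl⟩
        rw [List.any_eq_true]
        exact ⟨a, haw, (not_beq_zero a).2 ha0⟩
      have h2 := hC1 _ h1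
      rw [List.any_eq_true] at h2
      obtain ⟨t, ht, hts⟩ := h2
      refine ⟨t, ht, (sub_fs hts).trans ?_⟩
      intro j hj
      rw [mem_fs] at hj
      exact Finset.mem_coe.1 (hs j hj)
    · rintro ⟨t, ht, htB⟩
      have h2 := hC2 _ ht
      rw [List.any_eq_true] at h2
      obtain ⟨s, hs, hst⟩ := h2
      rw [← hR] at hs
      unfold relList at hs
      rw [List.mem_map] at hs
      obtain ⟨w, hw, rfl⟩ := hs
      rw [List.mem_filter, List.any_eq_true] at hw
      obtain ⟨hw1, a, haw, ha0⟩ := hw
      refine ⟨w, hw1, ⟨a, haw, (not_beq_zero a).1 ha0⟩, fun j hj => ?_⟩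
      exact Finset.mem_coe.2 (htB (sub_fs hst (mem_fs.2 hj)))
  have hbase : ∀ B : Finset (Fin (r + k)), (vecMatroid K (stdVec D)).IsBase
      (B : Set (Fin (r + k))) ↔ B.card = r ∧ ¬ ∃ t ∈ C, fs (r + k) t ⊆ B := by
    intro B
    rw [← hdep2]
    constructor
    · intro hB
      refine ⟨?_, hB.indep.not_dep⟩
      have h1 := hB.encard_eq_eRank
      rw [hrank, Set.encard_coe_eq_coe_finsetCard] at h1
      exact_mod_cast h1
    · rintro ⟨h1, h2⟩
      have hi : (vecMatroid K (stdVec D)).Indep (B : Set (Fin (r + k))) := by
        by_contra hnot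
        exact h2 ⟨hnot, Set.subset_univ _⟩
      obtain ⟨B', hB', hBB'⟩ := hi.exists_isBase_superset
      have h3 := hB'.encard_eq_eRank
      have h4 : B'.encard ≤ (B : Set (Fin (r + k))).encard := by
        rw [h3, hrank, Set.encard_coe_eq_coe_finsetCard, h1]
      have h5 := (Set.toFinite (B : Set (Fin (r + k)))).eq_of_subset_of_encard_le hBB' h4
      rw [h5]
      exact hB'
  rw [← hL]
  refine ⟨rfl, List.nodup_range.filter _, ?_, ?_⟩
  · intro m hm
    unfold baseList at hm
    rw [List.mem_filter, List.mem_range] at hm
    exact hm.1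
  · intro B
    rw [hbase]
    constructor
    · rintro ⟨h1, h2⟩
      obtain ⟨m, hm, rfl⟩ := exists_mask B
      refine ⟨m, ?_, rfl⟩
      unfold baseList
      rw [List.mem_filter, List.mem_range, Bool.and_eq_true]
      refine ⟨hm, ?_, ?_⟩
      · rw [← card_fs, h1]; exact Nat.beq_refl r
      · rw [List.all_eq_true]
        intro t ht
        rw [Bool.not_eq_true']
        rw [Bool.eq_false_iff]
        intro h3
        exact h2 ⟨t, ht, sub_fs h3⟩
    · rintro ⟨m, hm, rfl⟩
      unfold baseList at hm
      rw [List.mem_filter, List.mem_range, Bool.and_eq_true] at hm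
      obtain ⟨hm1, hm2, hm3⟩ := hm
      refine ⟨by rw [card_fs]; exact Nat.eq_of_beq_eq_true hm2, ?_⟩
      rintro ⟨t, ht, hts⟩
      rw [List.all_eq_true] at hm3
      have h3 := hm3 t ht
      have h4 : t < 2 ^ (r + k) := by
        have h5 : (Nat.blt _ _ = true) := hC3 t ht
        rw [Nat.blt_eq] at h5
        exact h5
      rw [sub_of_fs h4 hts] at h3
      exact Bool.false_ne_true h3

end

/-- the codes for `ZMod 3` -/
def code3 : Code (ZMod 3) where
  q := 3
  dec := fun a => (a : ZMod 3)
  add := fun a b => Nat.mod (Nat.add a b) 3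
  mul := fun a b => Nat.mod (Nat.mul a b) 3
  add_lt := by decide
  mul_lt := by decide
  dec_add := by decide
  dec_mul := by decide
  dec_zero := by decide
  zero_of := by decide
  surj := by decide

/-- addition of the codes for the field with four elements -/
def add4 (a b : ℕ) : ℕ := Nat.xor a b

/-- multiplication of the codes for the field with four elements -/
def mul4 (a b : ℕ) : ℕ := cond (Nat.beq a 0 || Nat.beq b 0) 0 (Nat.add (Nat.mod (Nat.sub (Nat.add a b) 2) 3) 1)

/-- the codes `0, 1, 2, 3` stand for `0, 1, ω, ω + 1` -/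
def dec4 {K : Type*} [Field K] (ω : K) : ℕ → K
  | 0 => 0
  | 1 => 1
  | 2 => ω
  | _ => ω + 1

theorem two_zero {K : Type*} [Field K] [Fintype K] (hc : Fintype.card K = 4) : (2 : K) = 0 := by
  have h1 : ((Fintype.card K : ℕ) : K) = 0 := Nat.cast_card_eq_zero K
  rw [hc] at h1
  have h2 : (2 : K) * 2 = 0 := by
    norm_num at h1 ⊢
    exact h1
  rcases mul_eq_zero.1 h2 with h3 | h3 <;> exact h3

/-- the codes for a field with four elements -/
def code4 {K : Type*} [Field K] [Fintype K] [DecidableEq K] (hc : Fintype.card K = 4) (ω : K)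
    (hω : ω ^ 2 = ω + 1) : Code K where
  q := 4
  dec := dec4 ω
  add := add4
  mul := mul4
  add_lt := by decide
  mul_lt := by decide
  dec_add := by
    have h2 := two_zero hc
    intro a ha b hb
    interval_cases a <;> interval_cases b
    · change dec4 ω 0 = dec4 ω 0 + dec4 ω 0
      first
        | (simp only [dec4]; done)
        | (simp only [dec4]; linear_combination (-(0 : K) - 0 * ω) * h2)
    · change dec4 ω 1 = dec4 ω 0 + dec4 ω 1
      first
        | (simp only [dec4]; done)
        | (simp only [dec4]; linear_combination (-(0 : K) - 0 * ω) * h2)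
    · change dec4 ω 2 = dec4 ω 0 + dec4 ω 2
      first
        | (simp only [dec4]; done)
        | (simp only [dec4]; linear_combination (-(0 : K) - 0 * ω) * h2)
    · change dec4 ω 3 = dec4 ω 0 + dec4 ω 3
      first
        | (simp only [dec4]; done)
        | (simp only [dec4]; linear_combination (-(0 : K) - 0 * ω) * h2)
    · change dec4 ω 1 = dec4 ω 1 + dec4 ω 0
      first
        | (simp only [dec4]; done)
        | (simp only [dec4]; linear_combination (-(0 : K) - 0 * ω) * h2)
    · change dec4 ω 0 = dec4 ω 1 + dec4 ω 1
      first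
        | (simp only [dec4]; done)
        | (simp only [dec4]; linear_combination (-(1 : K) - 0 * ω) * h2)
    · change dec4 ω 3 = dec4 ω 1 + dec4 ω 2
      first
        | (simp only [dec4]; done)
        | (simp only [dec4]; linear_combination (-(0 : K) - 0 * ω) * h2)
    · change dec4 ω 2 = dec4 ω 1 + dec4 ω 3
      first
        | (simp only [dec4]; done)
        | (simp only [dec4]; linear_combination (-(1 : K) - 0 * ω) * h2)
    · change dec4 ω 2 = dec4 ω 2 + dec4 ω 0
      first
        | (simp only [dec4]; done)
        | (simp only [dec4]; linear_combination (-(0 : K) - 0 * ω) * h2)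
    · change dec4 ω 3 = dec4 ω 2 + dec4 ω 1
      first
        | (simp only [dec4]; done)
        | (simp only [dec4]; linear_combination (-(0 : K) - 0 * ω) * h2)
    · change dec4 ω 0 = dec4 ω 2 + dec4 ω 2
      first
        | (simp only [dec4]; done)
        | (simp only [dec4]; linear_combination (-(0 : K) - 1 * ω) * h2)
    · change dec4 ω 1 = dec4 ω 2 + dec4 ω 3
      first
        | (simp only [dec4]; done)
        | (simp only [dec4]; linear_combination (-(0 : K) - 1 * ω) * h2)
    · change dec4 ω 3 = dec4 ω 3 + dec4 ω 0
      first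
        | (simp only [dec4]; done)
        | (simp only [dec4]; linear_combination (-(0 : K) - 0 * ω) * h2)
    · change dec4 ω 2 = dec4 ω 3 + dec4 ω 1
      first
        | (simp only [dec4]; done)
        | (simp only [dec4]; linear_combination (-(1 : K) - 0 * ω) * h2)
    · change dec4 ω 1 = dec4 ω 3 + dec4 ω 2
      first
        | (simp only [dec4]; done)
        | (simp only [dec4]; linear_combination (-(0 : K) - 1 * ω) * h2)
    · change dec4 ω 0 = dec4 ω 3 + dec4 ω 3
      first
        | (simp only [dec4]; done)
        | (simp only [dec4]; linear_combination (-(1 : K) - 1 * ω) * h2)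
  dec_mul := by
    have h2 := two_zero hc
    intro a ha b hb
    interval_cases a <;> interval_cases b
    · change dec4 ω 0 = dec4 ω 0 * dec4 ω 0
      first
        | (simp only [dec4]; done)
        | (simp only [dec4]; linear_combination (0 : K) * h2)
    · change dec4 ω 0 = dec4 ω 0 * dec4 ω 1
      first
        | (simp only [dec4]; done)
        | (simp only [dec4]; linear_combination (0 : K) * h2)
    · change dec4 ω 0 = dec4 ω 0 * dec4 ω 2
      first
        | (simp only [dec4]; done)
        | (simp only [dec4]; linear_combination (0 : K) * h2)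
    · change dec4 ω 0 = dec4 ω 0 * dec4 ω 3
      first
        | (simp only [dec4]; done)
        | (simp only [dec4]; linear_combination (0 : K) * h2)
    · change dec4 ω 0 = dec4 ω 1 * dec4 ω 0
      first
        | (simp only [dec4]; done)
        | (simp only [dec4]; linear_combination (0 : K) * h2)
    · change dec4 ω 1 = dec4 ω 1 * dec4 ω 1
      first
        | (simp only [dec4]; done)
        | (simp only [dec4]; linear_combination (0 : K) * h2)
    · change dec4 ω 2 = dec4 ω 1 * dec4 ω 2
      first
        | (simp only [dec4]; done)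
        | (simp only [dec4]; linear_combination (0 : K) * h2)
    · change dec4 ω 3 = dec4 ω 1 * dec4 ω 3
      first
        | (simp only [dec4]; done)
        | (simp only [dec4]; linear_combination (0 : K) * h2)
    · change dec4 ω 0 = dec4 ω 2 * dec4 ω 0
      first
        | (simp only [dec4]; done)
        | (simp only [dec4]; linear_combination (0 : K) * h2)
    · change dec4 ω 2 = dec4 ω 2 * dec4 ω 1
      first
        | (simp only [dec4]; done)
        | (simp only [dec4]; linear_combination (0 : K) * h2)
    · change dec4 ω 3 = dec4 ω 2 * dec4 ω 2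
      first
        | (simp only [dec4]; done)
        | (simp only [dec4]; linear_combination (-1 : K) * hω)
    · change dec4 ω 1 = dec4 ω 2 * dec4 ω 3
      first
        | (simp only [dec4]; done)
        | (simp only [dec4]; linear_combination (-1 : K) * hω - ω * h2)
    · change dec4 ω 0 = dec4 ω 3 * dec4 ω 0
      first
        | (simp only [dec4]; done)
        | (simp only [dec4]; linear_combination (0 : K) * h2)
    · change dec4 ω 3 = dec4 ω 3 * dec4 ω 1
      first
        | (simp only [dec4]; done)
        | (simp only [dec4]; linear_combination (0 : K) * h2)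
    · change dec4 ω 1 = dec4 ω 3 * dec4 ω 2
      first
        | (simp only [dec4]; done)
        | (simp only [dec4]; linear_combination (-1 : K) * hω - ω * h2)
    · change dec4 ω 2 = dec4 ω 3 * dec4 ω 3
      first
        | (simp only [dec4]; done)
        | (simp only [dec4]; linear_combination (-1 : K) * hω - (ω + 1) * h2)
  dec_zero := rfl
  zero_of := by
    have h2 := two_zero hc
    intro a ha h
    interval_cases a
    · rfl
    · exact absurd h one_ne_zero
    · exfalso
      have h3 : ω = 0 := h
      rw [h3] at hω
      norm_num at hω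
    · exfalso
      have h3 : ω + 1 = 0 := h
      have h4 : ω = 1 := by linear_combination h3 - h2
      rw [h4] at hω
      have : (1 : K) = 0 := by linear_combination hω + h2
      exact one_ne_zero this
  surj := by
    have h2 := two_zero hc
    have n0 : ω ≠ 0 := by
      intro h3
      rw [h3] at hω
      norm_num at hω
    have n1 : ω ≠ 1 := by
      intro h4
      rw [h4] at hω
      have : (1 : K) = 0 := by linear_combination hω + h2
      exact one_ne_zero this
    have n2 : ω + 1 ≠ 0 := by
      intro h3
      exact n1 (by linear_combination h3 - h2)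
    have hS : ({0, 1, ω, ω + 1} : Finset K) = Finset.univ := by
      apply Finset.eq_univ_of_card
      rw [hc, Finset.card_insert_of_notMem, Finset.card_insert_of_notMem,
        Finset.card_insert_of_notMem, Finset.card_singleton]
      · rw [Finset.mem_singleton]
        intro h3
        have : (1 : K) = 0 := by linear_combination -h3
        exact one_ne_zero this
      · rw [Finset.mem_insert, Finset.mem_singleton, not_or]
        refine ⟨fun h3 => n1 h3.symm, fun h3 => n0 (by linear_combination -h3)⟩
      · rw [Finset.mem_insert, Finset.mem_insert, Finset.mem_singleton, not_or, not_or]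
        exact ⟨fun h3 => one_ne_zero h3.symm, fun h3 => n0 h3.symm, fun h3 => n2 h3.symm⟩
    intro x
    have hx : x ∈ ({0, 1, ω, ω + 1} : Finset K) := by rw [hS]; exact Finset.mem_univ x
    simp only [Finset.mem_insert, Finset.mem_singleton] at hx
    rcases hx with rfl | rfl | rfl | rfl
    · exact ⟨0, by norm_num, rfl⟩
    · exact ⟨1, by norm_num, rfl⟩
    · exact ⟨2, by norm_num, rfl⟩
    · exact ⟨3, by norm_num, rfl⟩

/-- `M` is represented by vectors over the field `K`. -/
def RepOver (K : Type) [Field K] {α : Type} (M : Matroid α) : Prop :=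
  ∃ (n : ℕ) (v : α → Fin n → K), ∀ I ⊆ M.E, (M.Indep I ↔ LinearIndepOn K v I)

theorem RepOver.minor {K : Type} [Field K] {α : Type} {M N : Matroid α} (h : RepOver K M)
    (hN : N ≤m M) : RepOver K N := by
  obtain ⟨n, v, hv⟩ := h
  obtain ⟨C, D, hC, _, _, rfl⟩ := hN.exists_eq_contract_delete_disjoint
  have h1 := Pool.Agent.Helper236.Rep.minor (F := K) (v := v) hv C D hC
  let e := (Module.finBasis K ((Fin n → K) ⧸ Submodule.span K (v '' C))).equivFun
  exact ⟨_, _, Pool.Agent.Helper236.Rep.comp_injective h1 e.toLinearMap e.injective⟩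

theorem repOver_vec {K : Type} [Field K] {r k : ℕ} (D : Matrix (Fin r) (Fin k) K) :
    RepOver K (vecMatroid K (stdVec D)) :=
  ⟨r, stdVec D, fun _ _ => Iff.rfl⟩

end Pool.Agent.Run7.h133.Ray
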