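import Pool.Agent.Run7.h133.RayCode

set_option autoImplicit false

/-!
# Rayleigh matroids, representable matroids, isomorphism
-/

namespace Pool.Agent.Run7.h133.Ray

open Matroid Pool.Agent.Helper998.VecMatroid

open Classical in
/-- `B_U(M; y)`: the sum, over the bases of `M` which contain `U`, of the product of the weights
of the elements of the basis. -/
noncomputable def Bsum {α : Type} [Fintype α] (M : Matroid α) (y : α → ℝ) (U : Set α) : ℝ :=
  ∑ A : Finset α, if M.IsBase (A : Set α) ∧ U ⊆ (A : Set α) then ∏ x ∈ A, y x else 0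

/-- `M` is a Rayleigh matroid: `B_e B_f - B_ef B ≥ 0` for all positive weights and all distinct
elements `e`, `f`. -/
def Rayleigh {α : Type} [Fintype α] (M : Matroid α) : Prop :=
  ∀ y : α → ℝ, (∀ x, 0 < y x) → ∀ e ∈ M.E, ∀ f ∈ M.E, e ≠ f →
    0 ≤ Bsum M y {e} * Bsum M y {f} - Bsum M y {e, f} * Bsum M y ∅

/-- The matroid on the columns of the matrix `[I | D]` over the field `K`: its independent sets
are the linearly independent sets of columns. -/
def colMatroid {K : Type} [Field K] {r k : ℕ} (D : Matrix (Fin r) (Fin k) K) :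
    Matroid (Fin (r + k)) :=
  vecMatroid K (stdVec D)

/-- `M` (a matroid whose ground set is the whole type) is isomorphic to `N`. -/
def Iso {α β : Type} (M : Matroid α) (N : Matroid β) : Prop :=
  ∃ φ : α ≃ β, ∀ B : Set α, M.IsBase B ↔ N.IsBase (φ '' B)

theorem rayleigh_of {α : Type} [Fintype α] [DecidableEq α] {M : Matroid α}
    (h : Pool.Agent.Helper214.PavMain.NegCorr fun A : Finset α => M.IsBase (A : Set α)) :
    Rayleigh M := by
  classical
  intro y hy e _ f _ hef
  have h1 := h y hy e f hef
  rw [sub_nonneg]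
  unfold Bsum
  simp only [Set.insert_subset_iff, Set.singleton_subset_iff, Set.empty_subset, and_true,
    Finset.mem_coe]
  convert h1

theorem negCorr_of {α : Type} [Fintype α] [DecidableEq α] {M : Matroid α} (hE : M.E = Set.univ)
    (h : Rayleigh M) :
    Pool.Agent.Helper214.PavMain.NegCorr fun A : Finset α => M.IsBase (A : Set α) := by
  classical
  intro y hy e f hef
  have h1 := h y hy e (by rw [hE]; trivial) f (by rw [hE]; trivial) hef
  rw [sub_nonneg] at h1
  unfold Bsum at h1
  simp only [Set.insert_subset_iff, Set.singleton_subset_iff, Set.empty_subset, and_true,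
    Finset.mem_coe] at h1
  convert h1

/-- the strict minors of a matroid of rank four with eight elements are Rayleigh -/
theorem eight_minor {n : ℕ} {M N : Matroid (Fin n)} (hE : M.E = Set.univ) {r : ℕ}
    (hr : M.eRank = r) (hr3 : 3 ≤ r) (hn : 3 + r ≤ n) (h4 : r ≤ 4) (h5 : n ≤ r + 4)
    (hN : N <m M) : Rayleigh N := by
  classical
  apply rayleigh_of
  rcases strict_cases hE hr hr3 hn hN with h1 | ⟨X, D, hXD, hNE, hB, hne, hX, hD⟩
  · exact h1
  · exfalso
    have h6 : X.card = 0 := by omega
    have h7 : D.card = 0 := by omega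
    rw [Finset.card_eq_zero] at h6 h7
    rw [h6, h7] at hne
    simp at hne

theorem ncard_image_iff {α β : Type} (φ : α ≃ β) (P : Set α → Prop) (Q : Set β → Prop)
    (h : ∀ B, P B ↔ Q (φ '' B)) : Set.ncard {B | P B} = Set.ncard {B | Q B} := by
  have h1 : {B | Q B} = (fun B => φ '' B) '' {B | P B} := by
    ext B
    simp only [Set.mem_ofPred_eq, Set.mem_image]
    constructor
    · intro hB
      refine ⟨φ.symm '' B, ?_, ?_⟩
      · rw [h]; simpa using hB
      · simp
    · rintro ⟨A, hA, rfl⟩
      exact (h A).1 hA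
  rw [h1, Set.ncard_image_of_injective _ φ.injective.image_injective]

theorem Iso.ncard {α β : Type} {M : Matroid α} {N : Matroid β} (h : Iso M N) :
    Set.ncard {B | M.IsBase B} = Set.ncard {B | N.IsBase B} := by
  obtain ⟨φ, hφ⟩ := h
  exact ncard_image_iff φ _ _ hφ

theorem Iso.eRank {α β : Type} {M : Matroid α} {N : Matroid β} (h : Iso M N) :
    M.eRank = N.eRank := by
  obtain ⟨φ, hφ⟩ := h
  obtain ⟨B, hB⟩ := M.exists_isBase
  rw [← hB.encard_eq_eRank, ← ((hφ B).1 hB).encard_eq_eRank, φ.injective.encard_image]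

theorem HasBases.ncard {n : ℕ} {M : Matroid (Fin n)} {L : List ℕ} (h : HasBases M L) :
    Set.ncard {B | M.IsBase B} = L.length := by
  classical
  have h1 := ncard_sum fun B : Set (Fin n) => M.IsBase B
  have h2 := h.sum_eq (fun _ => True) (fun _ => true) (by simp) fun _ => (1 : ℝ)
  simp only [and_true] at h2
  have h3 : (Set.ncard {B : Set (Fin n) | M.IsBase B} : ℝ) = (L.length : ℝ) := by
    rw [h1, h2]
    simp
  exact_mod_cast h3

end Pool.Agent.Run7.h133.Ray
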