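import Pool.Agent.Run7.h133.RayDefs

set_option autoImplicit false

/-!
# Excluded minors for the Rayleigh matroids over a field
-/

namespace Pool.Agent.Run7.h133.Ray

open Matroid Pool.Agent.Helper998.VecMatroid

/-- `M` is an excluded minor for the class of the Rayleigh matroids which are representable over
`K`: it is not in this class but all its proper minors are. -/
def RayleighExcludedMinor (K : Type) [Field K] {α : Type} [Fintype α] (M : Matroid α) : Prop :=
  ¬ (RepOver K M ∧ Rayleigh M) ∧ ∀ N : Matroid α, N <m M → RepOver K N ∧ Rayleigh N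

/-- eight elements, rank four -/
theorem excluded_eight {K : Type} [Field K] {D : Matrix (Fin 4) (Fin 4) K} {L : List ℕ}
    (h : HasBases (colMatroid D) L ∧ (colMatroid D).eRank = (4 : ℕ)) {ys : List ℕ}
    (hys : ys.length = 8) (hpos : ys.all (fun y => Nat.blt 0 y) = true) {e f : Fin 8}
    (hef : e ≠ f) (hf : failB L ys e f = true) : RayleighExcludedMinor K (colMatroid D) := by
  classical
  refine ⟨?_, ?_⟩
  · rintro ⟨_, hR⟩
    exact h.1.fail (n := 8) hys hpos hef hf (negCorr_of h.1.ground hR)
  · intro N hN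
    refine ⟨(repOver_vec D).minor hN.isMinor, ?_⟩
    exact eight_minor (n := 8) h.1.ground h.2 (by norm_num) (by norm_num) (by norm_num)
      (by norm_num) hN

/-- the number of the elements which are in exactly `d` bases -/
noncomputable def numDeg {α : Type} (M : Matroid α) (d : ℕ) : ℕ :=
  Set.ncard {e : α | Set.ncard {B | M.IsBase B ∧ e ∈ B} = d}

theorem Iso.numDeg {α β : Type} {M : Matroid α} {N : Matroid β} (h : Iso M N) (d : ℕ) :
    numDeg M d = numDeg N d := by
  obtain ⟨φ, hφ⟩ := h
  unfold Ray.numDeg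
  have h1 : ∀ e : α, Set.ncard {B | M.IsBase B ∧ e ∈ B} = Set.ncard {B | N.IsBase B ∧ φ e ∈ B} := by
    intro e
    refine ncard_image_iff φ (fun B => M.IsBase B ∧ e ∈ B) (fun B => N.IsBase B ∧ φ e ∈ B) ?_
    intro B
    simp only [hφ B, Set.mem_image, EmbeddingLike.apply_eq_iff_eq, exists_eq_right]
  have h2 : {e : β | Set.ncard {B | N.IsBase B ∧ e ∈ B} = d} =
      φ '' {e : α | Set.ncard {B | M.IsBase B ∧ e ∈ B} = d} := by
    ext e
    simp only [Set.mem_ofPred_eq, Set.mem_image]
    constructor
    · intro he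
      refine ⟨φ.symm e, ?_, by simp⟩
      rw [h1]; simpa using he
    · rintro ⟨a, ha, rfl⟩
      rw [← h1]; exact ha
  rw [h2, Set.ncard_image_of_injective _ φ.injective]

theorem HasBases.numDeg {n : ℕ} {M : Matroid (Fin n)} {L : List ℕ} (h : HasBases M L) (d : ℕ) :
    numDeg M d = (Finset.univ.filter fun e : Fin n => (keep (e : ℕ) L).length = d).card := by
  classical
  unfold Ray.numDeg
  have h1 : ∀ e : Fin n, Set.ncard {B | M.IsBase B ∧ e ∈ B} = (keep (e : ℕ) L).length := by
    intro e
    have h1 := ncard_sum fun B : Set (Fin n) => M.IsBase B ∧ e ∈ B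
    have h2 := h.sum_eq (fun A => e ∈ A) (fun m => tb m e) (by simp [mem_fs, tb_eq])
      fun _ => (1 : ℝ)
    have h5 : ((L.filter fun m => tb m e).map fun _ => (1 : ℝ)).sum =
        ((keep (e : ℕ) L).length : ℝ) := by simp [keep]
    have h3 : (Set.ncard {B : Set (Fin n) | M.IsBase B ∧ e ∈ B} : ℝ) =
        ((keep (e : ℕ) L).length : ℝ) := by
      rw [h1, ← h5, ← h2]
      refine Finset.sum_congr rfl fun A _ => ?_
      by_cases hA : M.IsBase (A : Set (Fin n)) ∧ e ∈ A
      · rw [if_pos hA, if_pos]; simpa using hA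
      · rw [if_neg hA, if_neg]; simpa using hA
    exact_mod_cast h3
  simp only [h1]
  rw [Set.ncard_eq_toFinset_card', Set.toFinset_ofPred]

end Pool.Agent.Run7.h133.Ray
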