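import Pool.Agent.Run7.h133.RayBase

set_option autoImplicit false

/-!
# Matroids on `Fin n` whose bases are given by a list of bit masks
-/

namespace Pool.Agent.Run7.h133.Ray

open Finset Pool.Agent.Helper214.PavMain Matroid

/-- the set with the bit mask `m` -/
def fs (n m : ℕ) : Finset (Fin n) := univ.filter fun i => m.testBit i = true

theorem mem_fs {n m : ℕ} {i : Fin n} : i ∈ fs n m ↔ m.testBit i = true := by
  simp [fs]

theorem fs_inj {n a b : ℕ} (ha : a < 2 ^ n) (hb : b < 2 ^ n) (h : fs n a = fs n b) : a = b := by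
  apply Nat.eq_of_testBit_eq
  intro i
  by_cases hi : i < n
  · have h1 : (⟨i, hi⟩ : Fin n) ∈ fs n a ↔ (⟨i, hi⟩ : Fin n) ∈ fs n b := by rw [h]
    rw [mem_fs, mem_fs] at h1
    simp only at h1
    cases h2 : a.testBit i <;> cases h3 : b.testBit i <;> simp_all
  · have hpow : 2 ^ n ≤ 2 ^ i := Nat.pow_le_pow_right (by norm_num) (by omega)
    rw [Nat.testBit_lt_two_pow (lt_of_lt_of_le ha hpow),
      Nat.testBit_lt_two_pow (lt_of_lt_of_le hb hpow)]

theorem exists_mask {n : ℕ} (A : Finset (Fin n)) : ∃ m < 2 ^ n, fs n m = A := by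
  refine ⟨Nat.ofBits (fun i : Fin n => decide (i ∈ A)), Nat.ofBits_lt_two_pow _, ?_⟩
  ext i
  rw [mem_fs, Nat.testBit_ofBits_lt _ _ i.2]
  simp

/-- the bases of `M` have the masks in the list `L` -/
structure HasBases {n : ℕ} (M : Matroid (Fin n)) (L : List ℕ) : Prop where
  ground : M.E = Set.univ
  nodup : L.Nodup
  lt : ∀ m ∈ L, m < 2 ^ n
  iff : ∀ A : Finset (Fin n), M.IsBase (A : Set (Fin n)) ↔ ∃ m ∈ L, fs n m = A

open Classical in
theorem HasBases.sum_eq {n : ℕ} {M : Matroid (Fin n)} {L : List ℕ} (h : HasBases M L)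
    (Q : Finset (Fin n) → Prop) (q : ℕ → Bool) (hq : ∀ m ∈ L, q m = true ↔ Q (fs n m))
    (g : Finset (Fin n) → ℝ) :
    (∑ A : Finset (Fin n), if M.IsBase (A : Set (Fin n)) ∧ Q A then g A else 0) =
      ((L.filter q).map fun m => g (fs n m)).sum := by
  have h1 : ∀ A : Finset (Fin n), (M.IsBase (A : Set (Fin n)) ∧ Q A) ↔
      A ∈ ((L.filter q).map (fs n)).toFinset := by
    intro A
    rw [h.iff, List.mem_toFinset, List.mem_map]
    constructor
    · rintro ⟨⟨m, hm, rfl⟩, hQ⟩
      exact ⟨m, List.mem_filter.2 ⟨hm, (hq m hm).2 hQ⟩, rfl⟩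
    · rintro ⟨m, hm, rfl⟩
      rw [List.mem_filter] at hm
      exact ⟨⟨m, hm.1, rfl⟩, (hq m hm.1).1 hm.2⟩
  have h2 : ((L.filter q).map (fs n)).Nodup := by
    refine (h.nodup.filter q).map_on ?_
    intro a ha b hb hab
    exact fs_inj (h.lt a (List.mem_filter.1 ha).1) (h.lt b (List.mem_filter.1 hb).1) hab
  simp_rw [h1]
  rw [← Finset.sum_filter]
  have h3 : (univ.filter fun A : Finset (Fin n) => A ∈ ((L.filter q).map (fs n)).toFinset) =
      ((L.filter q).map (fs n)).toFinset := by
    ext A; simp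
  rw [h3, List.sum_toFinset _ h2, List.map_map]
  rfl

/-- a fast test of a bit -/
def tb (m x : ℕ) : Bool := Nat.beq (Nat.land (Nat.shiftRight m x) 1) 1

theorem tb_eq (m x : ℕ) : tb m x = m.testBit x := by
  unfold tb
  rw [Bool.eq_iff_iff]
  show (Nat.beq _ _ = true) ↔ _
  rw [Nat.beq_eq]
  rw [Nat.testBit_eq_decide_div_mod_eq, decide_eq_true_eq]
  show (m >>> x) &&& 1 = 1 ↔ _
  rw [Nat.and_one_is_mod, Nat.shiftRight_eq_div_pow]

/-- the sets of the list which contain `x` -/
def keep (x : ℕ) (L : List ℕ) : List ℕ := L.filter fun m => tb m x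

/-- the sets of the list which do not contain `x` -/
def dropp (x : ℕ) (L : List ℕ) : List ℕ := L.filter fun m => !(tb m x)

/-- Check the counting inequality for all minors with at most `c` contracted and at most `d`
deleted elements among `xs`. -/
def chk : List ℕ → Bool → ℕ → ℕ → List ℕ → List ℕ → List ℕ → List ℕ → Bool
  | [], fl, _, _, L0, L1, L2, L3 =>
    !fl || Nat.ble (Nat.mul L3.length L0.length) (Nat.mul L1.length L2.length)
  | x :: xs, fl, c, d, L0, L1, L2, L3 =>
    chk xs fl c d L0 L1 L2 L3 &&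
    ((Nat.beq c 0 || chk xs true (c - 1) d (keep x L0) (keep x L1) (keep x L2) (keep x L3)) &&
     (Nat.beq d 0 || chk xs true c (d - 1) (dropp x L0) (dropp x L1) (dropp x L2) (dropp x L3)))

/-- the filter of a minor -/
def pf (C D : Finset ℕ) (m : ℕ) : Bool :=
  decide (∀ x ∈ C, m.testBit x = true) && decide (∀ x ∈ D, m.testBit x = false)

theorem filter_keep (x : ℕ) (C D : Finset ℕ) (hx : x ∈ C) (L : List ℕ) :
    (L.filter (pf C D)).length = ((keep x L).filter (pf (C.erase x) D)).length := by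
  unfold keep
  rw [List.filter_filter]
  congr 1
  apply List.filter_congr
  intro m _
  rw [Bool.eq_iff_iff]
  simp only [pf, tb_eq, Bool.and_eq_true, decide_eq_true_eq]
  constructor
  · rintro ⟨h1, h2⟩
    exact ⟨⟨fun y hy => h1 y (Finset.mem_of_mem_erase hy), h2⟩, h1 x hx⟩
  · rintro ⟨⟨h1, h2⟩, h3⟩
    refine ⟨fun y hy => ?_, h2⟩
    by_cases hyx : y = x
    · rw [hyx]; exact h3
    · exact h1 y (Finset.mem_erase.2 ⟨hyx, hy⟩)

theorem filter_dropp (x : ℕ) (C D : Finset ℕ) (hx : x ∈ D) (L : List ℕ) :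
    (L.filter (pf C D)).length = ((dropp x L).filter (pf C (D.erase x))).length := by
  unfold dropp
  rw [List.filter_filter]
  congr 1
  apply List.filter_congr
  intro m _
  rw [Bool.eq_iff_iff]
  simp only [pf, tb_eq, Bool.and_eq_true, decide_eq_true_eq, Bool.not_eq_true']
  constructor
  · rintro ⟨h1, h2⟩
    exact ⟨⟨h1, fun y hy => h2 y (Finset.mem_of_mem_erase hy)⟩, h2 x hx⟩
  · rintro ⟨⟨h1, h2⟩, h3⟩
    refine ⟨h1, fun y hy => ?_⟩
    by_cases hyx : y = x
    · rw [hyx]; exact h3
    · exact h2 y (Finset.mem_erase.2 ⟨hyx, hy⟩)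

theorem chk_sound (xs : List ℕ) : ∀ (fl : Bool) (c d : ℕ) (L0 L1 L2 L3 : List ℕ),
    xs.Nodup → chk xs fl c d L0 L1 L2 L3 = true → ∀ C D : Finset ℕ, C ⊆ xs.toFinset →
      D ⊆ xs.toFinset → Disjoint C D → C.card ≤ c → D.card ≤ d →
      (fl = true ∨ (C ∪ D).Nonempty) →
      (L3.filter (pf C D)).length * (L0.filter (pf C D)).length ≤
        (L1.filter (pf C D)).length * (L2.filter (pf C D)).length := by
  induction xs with
  | nil =>
    intro fl c d L0 L1 L2 L3 _ h C D hC hD _ _ _ hfl
    have hC0 : C = ∅ := by simpa using hC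
    have hD0 : D = ∅ := by simpa using hD
    subst hC0 hD0
    have hfl' : fl = true := by
      rcases hfl with h1 | h1
      · exact h1
      · simp at h1
    subst hfl'
    unfold chk at h
    simp only [Bool.not_true, Bool.false_or] at h
    have h2 := Nat.le_of_ble_eq_true h
    have h3 : ∀ L : List ℕ, L.filter (pf ∅ ∅) = L := by
      intro L
      apply List.filter_eq_self.2
      intro a _
      simp [pf]
    rw [h3, h3, h3, h3]
    exact h2
  | cons x xs ih =>
    intro fl c d L0 L1 L2 L3 hnd h C D hC hD hCD hc hd hfl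
    rw [List.nodup_cons] at hnd
    unfold chk at h
    rw [Bool.and_eq_true, Bool.and_eq_true] at h
    obtain ⟨h1, h2, h3⟩ := h
    have hsub : ∀ S : Finset ℕ, S ⊆ (x :: xs).toFinset → x ∉ S → S ⊆ xs.toFinset := by
      intro S hS hx y hy
      have := hS hy
      rw [List.mem_toFinset, List.mem_cons] at this
      rw [List.mem_toFinset]
      rcases this with h4 | h4
      · exact absurd (h4 ▸ hy) hx
      · exact h4
    have hsub2 : ∀ S : Finset ℕ, S ⊆ (x :: xs).toFinset → S.erase x ⊆ xs.toFinset := by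
      intro S hS
      apply hsub _ ((Finset.erase_subset _ _).trans hS)
      simp
    by_cases hxC : x ∈ C
    · have hxD : x ∉ D := Finset.disjoint_left.1 hCD hxC
      rw [filter_keep x C D hxC, filter_keep x C D hxC, filter_keep x C D hxC,
        filter_keep x C D hxC]
      have hcpos : 0 < C.card := Finset.card_pos.2 ⟨x, hxC⟩
      have hc0 : c ≠ 0 := by omega
      have h4 : Nat.beq c 0 = false := by
        rw [Bool.eq_false_iff]
        intro h5
        exact hc0 (Nat.eq_of_beq_eq_true h5)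
      rw [h4, Bool.false_or] at h2
      refine ih true (c - 1) d _ _ _ _ hnd.2 h2 (C.erase x) D (hsub2 C hC) (hsub D hD hxD)
        (hCD.mono_left (Finset.erase_subset _ _)) ?_ hd (Or.inl rfl)
      rw [Finset.card_erase_of_mem hxC]
      omega
    · by_cases hxD : x ∈ D
      · rw [filter_dropp x C D hxD, filter_dropp x C D hxD, filter_dropp x C D hxD,
          filter_dropp x C D hxD]
        have hdpos : 0 < D.card := Finset.card_pos.2 ⟨x, hxD⟩
        have hd0 : d ≠ 0 := by omega
        have h4 : Nat.beq d 0 = false := by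
          rw [Bool.eq_false_iff]
          intro h5
          exact hd0 (Nat.eq_of_beq_eq_true h5)
        rw [h4, Bool.false_or] at h3
        refine ih true c (d - 1) _ _ _ _ hnd.2 h3 C (D.erase x) (hsub C hC hxC) (hsub2 D hD)
          (hCD.mono_right (Finset.erase_subset _ _)) hc ?_ (Or.inl rfl)
        rw [Finset.card_erase_of_mem hxD]
        omega
      · exact ih fl c d _ _ _ _ hnd.2 h1 C D (hsub C hC hxC) (hsub D hD hxD) hCD hc hd hfl

/-- the check for the pair `e, f` -/
def chkPair (n c d : ℕ) (L : List ℕ) (e f : ℕ) : Bool :=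
  chk ((List.range n).filter fun x => !(Nat.beq x e || Nat.beq x f)) false c d
    (dropp e (dropp f L)) (keep e (dropp f L)) (dropp e (keep f L)) (keep e (keep f L))

/-- the check for all pairs -/
def chkAll (n c d : ℕ) (L : List ℕ) : Bool :=
  (List.range n).all fun f => (List.range f).all fun e => chkPair n c d L e f

/-- number of members with and without `e`, `f` -/
def num (L : List ℕ) (C D : Finset ℕ) (q : ℕ → Bool) : ℕ :=
  ((L.filter q).filter (pf C D)).length

theorem chkPair_sound {n c d : ℕ} {L : List ℕ} {e f : ℕ} (h : chkPair n c d L e f = true)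
    {C D : Finset ℕ} (hC : ∀ x ∈ C, x < n) (hD : ∀ x ∈ D, x < n) (heC : e ∉ C) (hfC : f ∉ C)
    (heD : e ∉ D) (hfD : f ∉ D) (hCD : Disjoint C D) (hc : C.card ≤ c) (hd : D.card ≤ d)
    (hne : (C ∪ D).Nonempty) :
    num L C D (fun m => m.testBit e && m.testBit f) *
      num L C D (fun m => !(m.testBit e) && !(m.testBit f)) ≤
    num L C D (fun m => m.testBit e && !(m.testBit f)) *
      num L C D (fun m => !(m.testBit e) && m.testBit f) := by
  unfold chkPair at h
  have hnd : ((List.range n).filter fun x => !(Nat.beq x e || Nat.beq x f)).Nodup :=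
    List.nodup_range.filter _
  have hsub : ∀ S : Finset ℕ, (∀ x ∈ S, x < n) → e ∉ S → f ∉ S →
      S ⊆ ((List.range n).filter fun x => !(Nat.beq x e || Nat.beq x f)).toFinset := by
    intro S hS he hf x hx
    rw [List.mem_toFinset, List.mem_filter, List.mem_range]
    refine ⟨hS x hx, ?_⟩
    have h1 : Nat.beq x e = false := by
      rw [Bool.eq_false_iff]; intro h2
      exact he (Nat.eq_of_beq_eq_true h2 ▸ hx)
    have h2 : Nat.beq x f = false := by
      rw [Bool.eq_false_iff]; intro h2
      exact hf (Nat.eq_of_beq_eq_true h2 ▸ hx)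
    rw [h1, h2]; rfl
  have := chk_sound _ false c d _ _ _ _ hnd h C D (hsub C hC heC hfC) (hsub D hD heD hfD) hCD hc hd
    (Or.inr hne)
  unfold keep dropp at this
  simp only [List.filter_filter, tb_eq] at this
  unfold num
  simp only [List.filter_filter]
  convert this using 2

end Pool.Agent.Run7.h133.Ray
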