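import Pool.Agent.Run7.h133.RayList

set_option autoImplicit false

/-!
# Strict minors of matroids on `Fin n` given by a list of bit masks
-/

namespace Pool.Agent.Run7.h133.Ray

open Finset Pool.Agent.Helper214.PavMain Matroid

section counts

variable {α : Type*} [Fintype α] [DecidableEq α]

open Classical in
theorem ncard_sum (R : Set α → Prop) :
    (Set.ncard {B : Set α | R B} : ℝ) = ∑ A : Finset α, if R (A : Set α) then (1 : ℝ) else 0 := by
  have h1 : {B : Set α | R B} = (fun A : Finset α => (A : Set α)) ''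
      ((univ.filter fun A : Finset α => R (A : Set α) : Finset (Finset α)) : Set (Finset α)) := by
    ext B
    simp only [Set.mem_setOf_eq, Set.mem_image, Finset.coe_filter, Finset.mem_univ, true_and]
    constructor
    · intro hB
      exact ⟨B.toFinset, by rw [Set.coe_toFinset]; exact hB, Set.coe_toFinset B⟩
    · rintro ⟨A, hA, rfl⟩
      exact hA
  rw [h1, Set.ncard_image_of_injective _ Finset.coe_injective, Set.ncard_coe_finset,
    Finset.sum_boole]

/-- the counting inequality follows from the weighted inequality -/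
theorem counts_of_negCorr {N : Matroid α}
    (h : NegCorr fun A : Finset α => N.IsBase (A : Set α)) (e f : α) (hef : e ≠ f) :
    Set.ncard {B : Set α | N.IsBase B ∧ e ∈ B ∧ f ∈ B} * Set.ncard {B : Set α | N.IsBase B} ≤
      Set.ncard {B : Set α | N.IsBase B ∧ e ∈ B} * Set.ncard {B : Set α | N.IsBase B ∧ f ∈ B} := by
  classical
  have h1 := h (fun _ => 1) (fun _ => one_pos) e f hef
  have h2 : ((Set.ncard {B : Set α | N.IsBase B ∧ e ∈ B ∧ f ∈ B} *
      Set.ncard {B : Set α | N.IsBase B} : ℕ) : ℝ) ≤
      ((Set.ncard {B : Set α | N.IsBase B ∧ e ∈ B} *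
        Set.ncard {B : Set α | N.IsBase B ∧ f ∈ B} : ℕ) : ℝ) := by
    push_cast
    rw [ncard_sum, ncard_sum, ncard_sum, ncard_sum]
    simp only [Finset.prod_const_one] at h1
    simp only [Finset.mem_coe]
    convert h1 using 2
  exact_mod_cast h2

end counts

theorem length_split (L : List ℕ) (g : ℕ → Bool) :
    L.length = (L.filter g).length + (L.filter fun m => !(g m)).length := by
  induction L with
  | nil => rfl
  | cons a L ih =>
    cases hg : g a
    · simp [hg, ih]; omega
    · simp [hg, ih]; omega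

theorem num_split (L : List ℕ) (C D : Finset ℕ) (q g : ℕ → Bool) :
    num L C D q = num L C D (fun m => q m && g m) + num L C D (fun m => q m && !(g m)) := by
  unfold num
  rw [length_split ((L.filter q).filter (pf C D)) g]
  simp only [List.filter_filter]
  congr 2
  · apply List.filter_congr
    intro m _
    cases q m <;> cases g m <;> cases pf C D m <;> rfl
  · apply List.filter_congr
    intro m _
    cases q m <;> cases g m <;> cases pf C D m <;> rfl

theorem num_congr (L : List ℕ) (C D : Finset ℕ) {q g : ℕ → Bool} (h : ∀ m, q m = g m) :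
    num L C D q = num L C D g := by
  have : q = g := funext h
  rw [this]

/-- the inequality between the four sums -/
theorem four_ineq {a b c d : ℕ} (h : a * d ≤ b * c) :
    a * (a + b + (c + d)) ≤ (a + b) * (a + c) := by
  nlinarith

theorem pair_ineq {L : List ℕ} {C D : Finset ℕ} {e f : ℕ}
    (h : num L C D (fun m => m.testBit e && m.testBit f) *
      num L C D (fun m => !(m.testBit e) && !(m.testBit f)) ≤
    num L C D (fun m => m.testBit e && !(m.testBit f)) *
      num L C D (fun m => !(m.testBit e) && m.testBit f)) :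
    num L C D (fun m => m.testBit e && m.testBit f) * num L C D (fun _ => true) ≤
      num L C D (fun m => m.testBit e) * num L C D (fun m => m.testBit f) := by
  have h1 : num L C D (fun m => m.testBit e) =
      num L C D (fun m => m.testBit e && m.testBit f) +
      num L C D (fun m => m.testBit e && !(m.testBit f)) :=
    num_split L C D (fun m => m.testBit e) (fun m => m.testBit f)
  have h2 : num L C D (fun m => m.testBit f) =
      num L C D (fun m => m.testBit e && m.testBit f) +
      num L C D (fun m => !(m.testBit e) && m.testBit f) := by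
    rw [num_split L C D (fun m => m.testBit f) (fun m => m.testBit e)]
    congr 1
    · exact num_congr L C D fun m => Bool.and_comm _ _
    · exact num_congr L C D fun m => Bool.and_comm _ _
  have h3 : num L C D (fun _ => true) =
      num L C D (fun m => m.testBit e) + (num L C D (fun m => !(m.testBit e) && m.testBit f) +
        num L C D (fun m => !(m.testBit e) && !(m.testBit f))) := by
    rw [num_split L C D (fun _ => true) (fun m => m.testBit e)]
    congr 1
    rw [num_split L C D (fun m => true && !(m.testBit e)) (fun m => m.testBit f)]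
    congr 1
  rw [h3, h1, h2]
  exact four_ineq h

open Classical in
theorem sum_if_list (L : List ℕ) (p : ℕ → Bool) :
    (L.map fun m => if p m = true then (1 : ℝ) else 0).sum = ((L.filter p).length : ℝ) := by
  induction L with
  | nil => simp
  | cons a L ih =>
    rw [List.map_cons, List.sum_cons, ih]
    cases hp : p a
    · simp [hp]
    · simp [hp]; ring

open Classical in
/-- the number of the bases of a minor, in terms of the list of masks -/
theorem HasBases.minor_sum {n : ℕ} {M : Matroid (Fin n)} {L : List ℕ} (h : HasBases M L)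
    (X D : Finset (Fin n)) (hXD : Disjoint X D) (Q : Finset (Fin n) → Prop) (q : ℕ → Bool)
    (hq : ∀ m ∈ L, q m = true ↔ Q (fs n m))
    (hQ : ∀ A : Finset (Fin n), Disjoint A (X ∪ D) → (Q (A ∪ X) ↔ Q A)) :
    (∑ A : Finset (Fin n), if (Disjoint A (X ∪ D) ∧ M.IsBase ((A ∪ X : Finset (Fin n)) :
      Set (Fin n))) ∧ Q A then (1 : ℝ) else 0) =
      (num L (X.map Fin.valEmbedding) (D.map Fin.valEmbedding) q : ℝ) := by
  have h1 := GG_zero (fun A : Finset (Fin n) => M.IsBase (A : Set (Fin n))) Q (fun _ => 1) X D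
    hXD hQ
  simp only [Finset.prod_const_one] at h1
  have h2 : (∑ A : Finset (Fin n), if (Disjoint A (X ∪ D) ∧ M.IsBase ((A ∪ X : Finset (Fin n)) :
      Set (Fin n))) ∧ Q A then (1 : ℝ) else 0) = GG (fun A : Finset (Fin n) =>
        M.IsBase (A : Set (Fin n))) Q (fun _ => 1) X D 0 := by
    rw [h1]
  rw [h2]
  unfold GG
  have hg : ∀ A : Finset (Fin n), (∏ x ∈ A, wt (fun _ : Fin n => (1 : ℝ)) X D x) = 1 := by
    intro A
    apply Finset.prod_eq_one
    intro x _
    unfold wt
    split_ifs <;> rfl
  simp only [hg, one_mul]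
  rw [h.sum_eq Q q hq fun A => (0 : ℝ) ^ ((X \ A).card + (A ∩ D).card)]
  unfold num
  rw [← sum_if_list]
  congr 1
  apply List.map_congr_left
  intro m _
  have h3 : pf (X.map Fin.valEmbedding) (D.map Fin.valEmbedding) m = true ↔
      (X \ fs n m).card + (fs n m ∩ D).card = 0 := by
    rw [Nat.add_eq_zero_iff, Finset.card_eq_zero, Finset.card_eq_zero,
      Finset.sdiff_eq_empty_iff_subset, ← Finset.disjoint_iff_inter_eq_empty]
    unfold pf
    simp only [Bool.and_eq_true, decide_eq_true_eq, Finset.mem_map, Fin.valEmbedding_apply,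
      forall_exists_index, and_imp, forall_apply_eq_imp_iff₂]
    constructor
    · rintro ⟨h4, h5⟩
      refine ⟨fun x hx => mem_fs.2 (h4 x hx), ?_⟩
      rw [Finset.disjoint_left]
      intro x hx hx2
      rw [mem_fs, h5 x hx2] at hx
      exact Bool.false_ne_true hx
    · rintro ⟨h4, h5⟩
      refine ⟨fun x hx => mem_fs.1 (h4 hx), fun x hx => ?_⟩
      rw [Finset.disjoint_left] at h5
      rw [Bool.eq_false_iff]
      intro h6
      exact h5 (mem_fs.2 h6) hx
  by_cases h4 : pf (X.map Fin.valEmbedding) (D.map Fin.valEmbedding) m = true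
  · rw [if_pos h4, h3.1 h4, pow_zero]
  · rw [if_neg h4, zero_pow (fun h5 => h4 (h3.2 h5))]

/-- a strict minor has small rank, or small corank, or few elements have been removed -/
theorem strict_cases {n : ℕ} {M N : Matroid (Fin n)} (hE : M.E = Set.univ) {r : ℕ}
    (hr : M.eRank = r) (hr3 : 3 ≤ r) (hn : 3 + r ≤ n) (hN : N <m M) :
    (NegCorr fun A : Finset (Fin n) => N.IsBase (A : Set (Fin n))) ∨
    ∃ X D : Finset (Fin n), Disjoint X D ∧ N.E = ((X ∪ D : Finset (Fin n)) : Set (Fin n))ᶜ ∧
      (∀ A : Finset (Fin n), N.IsBase (A : Set (Fin n)) ↔ Disjoint A (X ∪ D) ∧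
        M.IsBase ((A ∪ X : Finset (Fin n)) : Set (Fin n))) ∧ (X ∪ D).Nonempty ∧
      X.card + 4 ≤ r ∧ r + D.card + 4 ≤ n := by
  classical
  obtain ⟨X, D, hXD, hNE, hne, hB⟩ := minor_fam hE hN.isMinor
  by_cases h1 : r ≤ X.card + 3
  · left
    exact NegCorr.congr (low_rank M hr X D hXD hne hr3 h1) fun A => (hB A).symm
  by_cases h2 : n ≤ r + D.card + 3
  · left
    refine NegCorr.congr (low_corank M hE hr X D hXD hne ?_ ?_) fun A => (hB A).symm
    · rw [Fintype.card_fin]; exact hn
    · rw [Fintype.card_fin]; exact h2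
  right
  refine ⟨X, D, hXD, hNE, hB, ?_, by omega, by omega⟩
  rw [Finset.nonempty_iff_ne_empty]
  intro h3
  rw [h3] at hNE
  have h4 := hN.ssubset
  rw [hNE, hE] at h4
  simp at h4

theorem minor_counts {n : ℕ} {M N : Matroid (Fin n)} {L : List ℕ} (h : HasBases M L) {r : ℕ}
    (hr : M.eRank = r) (hr3 : 3 ≤ r) (hn : 3 + r ≤ n) {c d : ℕ} (hc : r ≤ c + 4)
    (hd : n ≤ r + d + 4) (hchk : chkAll n c d L = true) (hN : N <m M) (e f : Fin n)
    (he : e ∈ N.E) (hf : f ∈ N.E) (hef : e ≠ f) :
    Set.ncard {B : Set (Fin n) | N.IsBase B ∧ e ∈ B ∧ f ∈ B} *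
      Set.ncard {B : Set (Fin n) | N.IsBase B} ≤
      Set.ncard {B : Set (Fin n) | N.IsBase B ∧ e ∈ B} *
        Set.ncard {B : Set (Fin n) | N.IsBase B ∧ f ∈ B} := by
  classical
  rcases strict_cases h.ground hr hr3 hn hN with h1 | ⟨X, D, hXD, hNE, hB, hne, hX, hD⟩
  · exact counts_of_negCorr h1 e f hef
  have hall : ∀ a b : ℕ, a < b → b < n → chkPair n c d L a b = true := by
    intro a b hab hb
    unfold chkAll at hchk
    rw [List.all_eq_true] at hchk
    have h2 := hchk b (List.mem_range.2 hb)
    rw [List.all_eq_true] at h2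
    exact h2 a (List.mem_range.2 hab)
  have heX : e ∉ X ∪ D := by
    intro h2; rw [hNE] at he; exact he (Finset.mem_coe.2 h2)
  have hfX : f ∉ X ∪ D := by
    intro h2; rw [hNE] at hf; exact hf (Finset.mem_coe.2 h2)
  rw [Finset.mem_union, not_or] at heX hfX
  set C' := X.map Fin.valEmbedding with hC'
  set D' := D.map Fin.valEmbedding with hD'
  have hmem : ∀ (S : Finset (Fin n)) (x : Fin n), (x : ℕ) ∈ S.map Fin.valEmbedding ↔ x ∈ S := by
    intro S x
    simp only [Finset.mem_map, Fin.valEmbedding_apply]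
    constructor
    · rintro ⟨y, hy, hyx⟩
      rw [← Fin.ext hyx]; exact hy
    · intro hx
      exact ⟨x, hx, rfl⟩
  have hlt : ∀ (S : Finset (Fin n)), ∀ x ∈ S.map Fin.valEmbedding, x < n := by
    intro S x hx
    simp only [Finset.mem_map, Fin.valEmbedding_apply] at hx
    obtain ⟨y, _, rfl⟩ := hx
    exact y.2
  have hCD' : Disjoint C' D' := by
    rw [hC', hD', Finset.disjoint_map]; exact hXD
  have hne' : (C' ∪ D').Nonempty := by
    rw [hC', hD', ← Finset.map_union, Finset.map_nonempty]; exact hne
  have hcc : C'.card ≤ c := by rw [hC', Finset.card_map]; omega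
  have hdd : D'.card ≤ d := by rw [hD', Finset.card_map]; omega
  have hpair : ∀ a b : Fin n, a < b → a ∉ X → b ∉ X → a ∉ D → b ∉ D →
      num L C' D' (fun m => m.testBit a && m.testBit b) * num L C' D' (fun _ => true) ≤
        num L C' D' (fun m => m.testBit a) * num L C' D' (fun m => m.testBit b) := by
    intro a b hab ha hb ha2 hb2
    apply pair_ineq
    exact chkPair_sound (hall a b hab b.2) (hlt X) (hlt D) (fun h => ha ((hmem _ _).1 h))
      (fun h => hb ((hmem _ _).1 h)) (fun h => ha2 ((hmem _ _).1 h))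
      (fun h => hb2 ((hmem _ _).1 h)) hCD' hcc hdd hne'
  have key : num L C' D' (fun m => m.testBit e && m.testBit f) * num L C' D' (fun _ => true) ≤
        num L C' D' (fun m => m.testBit e) * num L C' D' (fun m => m.testBit f) := by
    rcases lt_or_gt_of_ne hef with h2 | h2
    · exact hpair e f h2 heX.1 hfX.1 heX.2 hfX.2
    · have h3 := hpair f e h2 hfX.1 heX.1 hfX.2 heX.2
      rw [num_congr L C' D' (g := fun m => m.testBit f && m.testBit e)
        (fun m => Bool.and_comm _ _), mul_comm (num L C' D' fun m => m.testBit e)]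
      exact h3
  have hcount : ∀ (Q : Finset (Fin n) → Prop) (q : ℕ → Bool)
      (_ : ∀ m ∈ L, q m = true ↔ Q (fs n m))
      (_ : ∀ A : Finset (Fin n), Disjoint A (X ∪ D) → (Q (A ∪ X) ↔ Q A)) (R : Set (Fin n) → Prop)
      (_ : ∀ A : Finset (Fin n), R (A : Set (Fin n)) ↔ Q A),
      Set.ncard {B : Set (Fin n) | N.IsBase B ∧ R B} = num L C' D' q := by
    intro Q q hq hQ R hR
    have h2 := ncard_sum fun B : Set (Fin n) => N.IsBase B ∧ R B
    have h3 := h.minor_sum X D hXD Q q hq hQ
    rw [← hC', ← hD'] at h3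
    have h4 : (Set.ncard {B : Set (Fin n) | N.IsBase B ∧ R B} : ℝ) = (num L C' D' q : ℝ) := by
      rw [h2, ← h3]
      refine Finset.sum_congr rfl fun A _ => ?_
      have h5 : (N.IsBase (A : Set (Fin n)) ∧ R (A : Set (Fin n))) ↔
          ((Disjoint A (X ∪ D) ∧ M.IsBase ((A ∪ X : Finset (Fin n)) : Set (Fin n))) ∧ Q A) := by
        rw [hB A, hR A]
      by_cases h6 : N.IsBase (A : Set (Fin n)) ∧ R (A : Set (Fin n))
      · rw [if_pos h6, if_pos (h5.1 h6)]
      · rw [if_neg h6, if_neg fun h7 => h6 (h5.2 h7)]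
    exact_mod_cast h4
  have c1 := hcount (fun A => e ∈ A ∧ f ∈ A) (fun m => m.testBit e && m.testBit f)
    (by intro m _; simp [mem_fs]) (by intro A _; simp [heX.1, hfX.1])
    (fun B => e ∈ B ∧ f ∈ B) (by intro A; simp)
  have c2 := hcount (fun A => e ∈ A) (fun m => m.testBit e)
    (by intro m _; simp [mem_fs]) (by intro A _; simp [heX.1])
    (fun B => e ∈ B) (by intro A; simp)
  have c3 := hcount (fun A => f ∈ A) (fun m => m.testBit f)
    (by intro m _; simp [mem_fs]) (by intro A _; simp [hfX.1])
    (fun B => f ∈ B) (by intro A; simp)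
  have c4 := hcount (fun _ => True) (fun _ => true)
    (by intro m _; simp) (by intro A _; simp)
    (fun _ => True) (by intro A; simp)
  simp only [and_true] at c4
  rw [c1, c2, c3, c4]
  exact key

/-- product of the weights of the elements of a mask -/
def wpl : List ℕ → ℕ → ℕ
  | [], _ => 1
  | y :: ys, m => Nat.mul (cond (tb m 0) y 1) (wpl ys (Nat.div m 2))

theorem wpl_eq (ys : List ℕ) : ∀ (n m : ℕ), ys.length = n →
    wpl ys m = ∏ i ∈ fs n m, ys.getD i 1 := by
  induction ys with
  | nil =>
    intro n m hn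
    simp only [List.length_nil] at hn
    subst hn
    simp [wpl, fs]
  | cons y ys ih =>
    intro n m hn
    rw [List.length_cons] at hn
    subst hn
    have h0 : wpl (y :: ys) m = cond (tb m 0) y 1 * wpl ys (Nat.div m 2) := rfl
    rw [h0, ih ys.length (Nat.div m 2) rfl]
    unfold fs
    rw [Finset.prod_filter, Finset.prod_filter, Fin.prod_univ_succ]
    congr 1
    · simp only [tb_eq, Fin.val_zero, List.getD_cons_zero]
      cases m.testBit 0 <;> simp
    · refine Finset.prod_congr rfl fun i _ => ?_
      have h1 : (Nat.div m 2).testBit i = m.testBit (i.succ : Fin (ys.length + 1)) := by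
        rw [Fin.val_succ, Nat.testBit_succ]
        rfl
      rw [h1]
      simp

/-- the numerical check that the weighted inequality fails -/
def failB (L : List ℕ) (ys : List ℕ) (e f : ℕ) : Bool :=
  Nat.blt
    (Nat.mul ((keep e L).map (wpl ys)).sum ((keep f L).map (wpl ys)).sum)
    (Nat.mul ((keep e (keep f L)).map (wpl ys)).sum (L.map (wpl ys)).sum)

theorem HasBases.fail {n : ℕ} {M : Matroid (Fin n)} {L : List ℕ} (h : HasBases M L)
    {ys : List ℕ} (hys : ys.length = n) (hpos : ys.all (fun y => Nat.blt 0 y) = true) {e f : Fin n}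
    (hef : e ≠ f) (hf : failB L ys e f = true) :
    ¬ NegCorr fun A : Finset (Fin n) => M.IsBase (A : Set (Fin n)) := by
  classical
  intro hN
  have h1 := hN (fun i => (ys.getD i 1 : ℝ)) (by
    intro i
    rw [List.all_eq_true] at hpos
    have h2 : ys.getD i 1 = ys[(i : ℕ)]'(by rw [hys]; exact i.2) := by
      rw [List.getD_eq_getElem]
    rw [h2]
    have h3 := hpos (ys[(i : ℕ)]'(by rw [hys]; exact i.2)) (List.getElem_mem _)
    have h4 : (Nat.blt _ _ = true) := h3
    rw [Nat.blt_eq] at h4
    exact_mod_cast h4) e f hef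
  have hw : ∀ m : ℕ, ∏ x ∈ fs n m, ((ys.getD x 1 : ℕ) : ℝ) = ((wpl ys m : ℕ) : ℝ) := by
    intro m
    rw [wpl_eq ys n m hys]
    push_cast
    rfl
  have hs : ∀ (Q : Finset (Fin n) → Prop) (q : ℕ → Bool)
      (_ : ∀ m ∈ L, q m = true ↔ Q (fs n m)),
      (∑ A : Finset (Fin n), if M.IsBase (A : Set (Fin n)) ∧ Q A then
        ∏ x ∈ A, ((ys.getD x 1 : ℕ) : ℝ) else 0) = ((((L.filter q).map (wpl ys)).sum : ℕ) : ℝ) := by
    intro Q q hq
    rw [h.sum_eq Q q hq]
    simp only [hw]
    rw [Nat.cast_list_sum, List.map_map]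
    rfl
  have s1 := hs (fun A => e ∈ A ∧ f ∈ A) (fun m => tb m e && tb m f)
    (by intro m _; simp [mem_fs, tb_eq])
  have s2 := hs (fun A => e ∈ A) (fun m => tb m e) (by intro m _; simp [mem_fs, tb_eq])
  have s3 := hs (fun A => f ∈ A) (fun m => tb m f) (by intro m _; simp [mem_fs, tb_eq])
  have s4 := hs (fun _ => True) (fun _ => true) (by intro m _; simp)
  simp only [and_true] at s4
  have h5 : (((((L.filter fun m => tb m e && tb m f).map (wpl ys)).sum : ℕ) : ℝ) *
      ((((L.filter fun _ => true).map (wpl ys)).sum : ℕ) : ℝ)) ≤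
      ((((L.filter fun m => tb m e).map (wpl ys)).sum : ℕ) : ℝ) *
      ((((L.filter fun m => tb m f).map (wpl ys)).sum : ℕ) : ℝ) := by
    rw [← s1, ← s2, ← s3, ← s4]
    convert h1
  have h6 : ((L.filter fun m => tb m e && tb m f).map (wpl ys)).sum *
      ((L.filter fun _ => true).map (wpl ys)).sum ≤
      ((L.filter fun m => tb m e).map (wpl ys)).sum *
      ((L.filter fun m => tb m f).map (wpl ys)).sum := by exact_mod_cast h5
  unfold failB keep at hf
  rw [List.filter_filter] at hf
  rw [List.filter_true] at h6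
  have h7 : (Nat.blt _ _ = true) := hf
  rw [Nat.blt_eq] at h7
  exact absurd h6 (not_le.2 h7)

end Pool.Agent.Run7.h133.Ray
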