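import Pool.Agent.Run7.h133.RayCode

set_option autoImplicit false

namespace Pool.Agent.Run7.h133.Ray

theorem chkAll_of_pairs {n c d : ℕ} {L : List ℕ}
    (h : ∀ f < n, ∀ e < f, chkPair n c d L e f = true) : chkAll n c d L = true := by
  unfold chkAll
  rw [List.all_eq_true]
  intro f hf
  rw [List.all_eq_true]
  intro e he
  exact h f (List.mem_range.1 hf) e (List.mem_range.1 he)

end Pool.Agent.Run7.h133.Ray
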