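import Pool.Agent.Run7.h133.RayMinor
import Pool.Agent.Helper998.VecMatroid
import Pool.Agent.Helper236.Lin

set_option autoImplicit false

/-!
# Vector matroids over a finite field given by lists of codes
-/

namespace Pool.Agent.Run7.h133.Ray

open Finset Matroid Pool.Agent.Helper998.VecMatroid

/-- codes `0, ..., q - 1` for the elements of a finite field -/
structure Code (K : Type*) [Field K] where
  q : ℕ
  dec : ℕ → K
  add : ℕ → ℕ → ℕ
  mul : ℕ → ℕ → ℕ
  add_lt : ∀ a < q, ∀ b < q, add a b < q
  mul_lt : ∀ a < q, ∀ b < q, mul a b < q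
  dec_add : ∀ a < q, ∀ b < q, dec (add a b) = dec a + dec b
  dec_mul : ∀ a < q, ∀ b < q, dec (mul a b) = dec a * dec b
  dec_zero : dec 0 = 0
  zero_of : ∀ a < q, dec a = 0 → a = 0
  surj : ∀ x : K, ∃ a < q, dec a = x

/-- the dot product of two lists of codes -/
def dot (add mul : ℕ → ℕ → ℕ) : List ℕ → List ℕ → ℕ
  | a :: as, b :: bs => add (mul a b) (dot add mul as bs)
  | [], _ => 0
  | _ :: _, [] => 0

/-- all lists of codes of length `k` -/
def allW (q : ℕ) : ℕ → List (List ℕ)
  | 0 => [[]]
  | k + 1 => (List.range q).flatMap fun a => (allW q k).map fun w => a :: w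

theorem mem_allW {q k : ℕ} {w : List ℕ} : w ∈ allW q k ↔ w.length = k ∧ ∀ a ∈ w, a < q := by
  induction k generalizing w with
  | zero =>
    simp only [allW, List.mem_singleton, List.length_eq_zero_iff]
    constructor
    · rintro rfl; simp
    · exact fun h => h.1
  | succ k ih =>
    simp only [allW, List.mem_flatMap, List.mem_range, List.mem_map]
    constructor
    · rintro ⟨a, ha, w', hw', rfl⟩
      rw [ih] at hw'
      refine ⟨by simp [hw'.1], ?_⟩
      intro b hb
      rcases List.mem_cons.1 hb with h1 | h1
      · rw [h1]; exact ha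
      · exact hw'.2 b h1
    · rintro ⟨h1, h2⟩
      cases w with
      | nil => simp at h1
      | cons a w' =>
        refine ⟨a, h2 a List.mem_cons_self, w', ih.2 ⟨by simpa using h1, fun b hb =>
          h2 b (List.mem_cons_of_mem _ hb)⟩, rfl⟩

/-- the number with the given bits -/
def bitsN : List Bool → ℕ
  | [] => 0
  | b :: bs => Nat.add (cond b 1 0) (Nat.mul 2 (bitsN bs))

theorem testBit_bitsN (bs : List Bool) : ∀ i : ℕ, (bitsN bs).testBit i = bs.getD i false := by
  induction bs with
  | nil => intro i; simp [bitsN]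
  | cons b bs ih =>
    intro i
    have h0 : bitsN (b :: bs) = cond b 1 0 + 2 * bitsN bs := rfl
    rw [h0]
    cases i with
    | zero =>
      rw [Nat.testBit_zero]
      cases b <;> simp <;> omega
    | succ i =>
      rw [Nat.testBit_succ]
      have h1 : (cond b 1 0 + 2 * bitsN bs) / 2 = bitsN bs := by
        cases b <;> simp <;> omega
      rw [h1, ih]
      simp

/-- the support of the relation determined by `w` -/
def maskW (add mul : ℕ → ℕ → ℕ) (rows : List (List ℕ)) (w : List ℕ) : ℕ :=
  bitsN (rows.map (fun row => !Nat.beq (dot add mul row w) 0) ++ w.map fun a => !Nat.beq a 0)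

theorem not_beq_zero (a : ℕ) : ((!Nat.beq a 0) = true) ↔ a ≠ 0 := by
  cases hb : Nat.beq a 0
  · simp only [Bool.not_false, true_iff]
    intro h0
    rw [h0] at hb
    simp at hb
  · simp only [Bool.not_true, ne_eq, Bool.false_eq_true, false_iff, not_not]
    exact Nat.eq_of_beq_eq_true hb

section

variable {K : Type*} [Field K] (c : Code K)

theorem dot_dec (as : List ℕ) : ∀ (k : ℕ) (bs : List ℕ), as.length = k → bs.length = k →
    (∀ a ∈ as, a < c.q) → (∀ b ∈ bs, b < c.q) →
    dot c.add c.mul as bs < c.q ∧ c.dec (dot c.add c.mul as bs) =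
      ∑ j : Fin k, c.dec (as.getD j 0) * c.dec (bs.getD j 0) := by
  induction as with
  | nil =>
    intro k bs h1 h2 _ _
    simp only [List.length_nil] at h1
    subst h1
    obtain ⟨a, ha, _⟩ := c.surj 0
    refine ⟨by unfold dot; omega, ?_⟩
    simp [dot, c.dec_zero]
  | cons a as ih =>
    intro k bs h1 h2 h3 h4
    rw [List.length_cons] at h1
    subst h1
    cases bs with
    | nil => simp at h2
    | cons b bs =>
      have h5 : bs.length = as.length := by simpa using h2
      obtain ⟨h6, h7⟩ := ih as.length bs rfl h5 (fun x hx => h3 x (List.mem_cons_of_mem _ hx))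
        (fun x hx => h4 x (List.mem_cons_of_mem _ hx))
      have ha := h3 a List.mem_cons_self
      have hb := h4 b List.mem_cons_self
      have h8 := c.mul_lt a ha b hb
      refine ⟨c.add_lt _ h8 _ h6, ?_⟩
      show c.dec (c.add (c.mul a b) (dot c.add c.mul as bs)) = _
      rw [c.dec_add _ h8 _ h6, c.dec_mul _ ha _ hb, h7, Fin.sum_univ_succ]
      simp

/-- The dependent sets of the vector matroid, in terms of the supports of the relations. -/
theorem dep_iff_mask {r k : ℕ} (A : Fin r → Fin (r + k) → K) (rows : List (List ℕ))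
    (hr : rows.length = r) (hk : ∀ row ∈ rows, row.length = k ∧ ∀ a ∈ row, a < c.q)
    (hA1 : ∀ i j, A i (Fin.castAdd k j) = if i = j then 1 else 0)
    (hA2 : ∀ (i : Fin r) (j : Fin k), A i (Fin.natAdd r j) =
      c.dec ((rows.getD i []).getD j 0)) (I : Set (Fin (r + k))) :
    (vecMatroid K fun j i => A i j).Dep I ↔ ∃ w ∈ allW c.q k,
      (∃ a ∈ w, a ≠ 0) ∧ ∀ j : Fin (r + k),
        (maskW c.add c.mul rows w).testBit j = true → j ∈ I := by
  classical
  have hrow : ∀ i : Fin r, (rows.getD i []) ∈ rows := by
    intro i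
    have hi : (i : ℕ) < rows.length := by rw [hr]; exact i.2
    rw [List.getD_eq_getElem _ _ hi]
    exact List.getElem_mem _
  have hrel : ∀ (x : Fin (r + k) → K), IsRel (fun (j : Fin (r + k)) (i : Fin r) => A i j) x ↔
      ∀ i : Fin r, x (Fin.castAdd k i) + ∑ j : Fin k, x (Fin.natAdd r j) *
        c.dec ((rows.getD i []).getD j 0) = 0 := by
    intro x
    unfold IsRel
    rw [funext_iff]
    refine forall_congr' fun i => ?_
    rw [Finset.sum_apply, Fin.sum_univ_add]
    simp only [Pi.smul_apply, smul_eq_mul, Pi.zero_apply, hA1, hA2]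
    have h1 : ∑ j : Fin r, x (Fin.castAdd k j) * (if i = j then (1 : K) else 0) =
        x (Fin.castAdd k i) := by
      simp
    rw [h1]
  have hdot : ∀ (w : List ℕ), w ∈ allW c.q k → ∀ i : Fin r,
      dot c.add c.mul (rows.getD i []) w < c.q ∧
      c.dec (dot c.add c.mul (rows.getD i []) w) =
        ∑ j : Fin k, c.dec ((rows.getD i []).getD j 0) * c.dec (w.getD j 0) := by
    intro w hw i
    rw [mem_allW] at hw
    exact dot_dec c _ k w (hk _ (hrow i)).1 hw.1 (hk _ (hrow i)).2 hw.2
  have hm1 : ∀ (w : List ℕ) (i : Fin r), w ∈ allW c.q k →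
      ((maskW c.add c.mul rows w).testBit (Fin.castAdd k i) = true ↔
        dot c.add c.mul (rows.getD i []) w ≠ 0) := by
    intro w i hw
    unfold maskW
    rw [testBit_bitsN]
    have hi : (i : ℕ) < rows.length := by rw [hr]; exact i.2
    rw [List.getD_append _ _ _ _ (by simpa using hi)]
    rw [List.getD_eq_getElem _ _ (by simpa using hi), List.getElem_map,
      List.getD_eq_getElem _ _ hi]
    exact not_beq_zero _
  have hm2 : ∀ (w : List ℕ) (j : Fin k), w ∈ allW c.q k →
      ((maskW c.add c.mul rows w).testBit (Fin.natAdd r j) = true ↔ w.getD j 0 ≠ 0) := by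
    intro w j hw
    rw [mem_allW] at hw
    unfold maskW
    rw [testBit_bitsN]
    rw [List.getD_append_right _ _ _ _ (by simp [hr])]
    have hj : (j : ℕ) < w.length := by rw [hw.1]; exact j.2
    have h1 : ((Fin.natAdd r j : Fin (r + k)) : ℕ) -
      (rows.map fun row => !Nat.beq (dot c.add c.mul row w) 0).length = j := by
      simp [hr]
    rw [h1, List.getD_eq_getElem _ _ (by simpa using hj), List.getElem_map,
      List.getD_eq_getElem _ _ hj]
    exact not_beq_zero _
  have hj0 : ∀ (j : Fin (r + k)), (∃ i, j = Fin.castAdd k i) ∨ ∃ i, j = Fin.natAdd r i := by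
    intro j
    refine Fin.addCases (fun i => Or.inl ⟨i, rfl⟩) (fun i => Or.inr ⟨i, rfl⟩) j
  rw [Pool.Agent.Helper998.VecMatroid.dep_iff]
  constructor
  · rintro ⟨x, hx0, hx, hs⟩
    rw [hrel] at hx
    choose code hcode hdec using c.surj
    set w : List ℕ := List.ofFn fun j : Fin k => code (x (Fin.natAdd r j)) with hw
    have hwm : w ∈ allW c.q k := by
      rw [mem_allW]
      refine ⟨by simp [hw], fun a ha => ?_⟩
      rw [hw, List.mem_ofFn] at ha
      obtain ⟨j, rfl⟩ := ha
      exact hcode _
    have hwj : ∀ j : Fin k, w.getD j 0 = code (x (Fin.natAdd r j)) := by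
      intro j
      rw [List.getD_eq_getElem _ _ (by simp [hw])]
      simp [hw]
    have hcz : ∀ y : K, code y = 0 ↔ y = 0 := by
      intro y
      constructor
      · intro h
        rw [← hdec y, h, c.dec_zero]
      · intro h
        apply c.zero_of _ (hcode y)
        rw [hdec, h]
    have hdx : ∀ i : Fin r, c.dec (dot c.add c.mul (rows.getD i []) w) =
        - x (Fin.castAdd k i) := by
      intro i
      rw [(hdot w hwm i).2]
      have h1 := hx i
      rw [eq_neg_iff_add_eq_zero, add_comm, ← h1]
      congr 1
      refine Finset.sum_congr rfl fun j _ => ?_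
      rw [hwj, hdec, mul_comm]
    refine ⟨w, hwm, ?_, ?_⟩
    · by_contra hall
      push Not at hall
      apply hx0
      have h2 : ∀ j : Fin k, x (Fin.natAdd r j) = 0 := by
        intro j
        rw [← hcz, ← hwj]
        apply hall
        rw [List.getD_eq_getElem _ _ (by simp [hw])]
        exact List.getElem_mem _
      funext j
      rcases hj0 j with ⟨i, rfl⟩ | ⟨i, rfl⟩
      · have h1 := hx i
        simp only [h2, zero_mul, Finset.sum_const_zero, add_zero] at h1
        exact h1
      · exact h2 i
    · intro j hj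
      apply hs
      rw [Function.mem_support]
      rcases hj0 j with ⟨i, rfl⟩ | ⟨i, rfl⟩
      · rw [hm1 w i hwm] at hj
        intro h0
        apply hj
        apply c.zero_of _ (hdot w hwm i).1
        rw [hdx, h0, neg_zero]
      · rw [hm2 w i hwm, hwj, ne_eq, hcz] at hj
        exact hj
  · rintro ⟨w, hwm, ⟨a, haw, ha0⟩, hs⟩
    refine ⟨Fin.addCases (fun i : Fin r => - c.dec (dot c.add c.mul (rows.getD i []) w))
      (fun j : Fin k => c.dec (w.getD j 0)), ?_, ?_, ?_⟩
    · intro h0
      obtain ⟨j, hj, hja⟩ := List.getElem_of_mem haw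
      rw [mem_allW] at hwm
      have h1 := congrFun h0 (Fin.natAdd r ⟨j, by rw [← hwm.1]; exact hj⟩)
      simp only [Fin.addCases_right, Pi.zero_apply] at h1
      rw [List.getD_eq_getElem _ _ hj, hja] at h1
      exact ha0 (c.zero_of a (hwm.2 a haw) h1)
    · rw [hrel]
      intro i
      simp only [Fin.addCases_left, Fin.addCases_right]
      rw [(hdot w hwm i).2, neg_add_eq_zero]
      refine Finset.sum_congr rfl fun j _ => mul_comm _ _
    · intro j hj
      rw [Function.mem_support] at hj
      apply hs
      rcases hj0 j with ⟨i, rfl⟩ | ⟨i, rfl⟩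
      · simp only [Fin.addCases_left] at hj
        rw [hm1 w i hwm]
        intro h0
        rw [h0, c.dec_zero, neg_zero] at hj
        exact hj rfl
      · simp only [Fin.addCases_right] at hj
        rw [hm2 w i hwm]
        intro h0
        rw [h0, c.dec_zero] at hj
        exact hj rfl

/-- the rank of the vector matroid -/
theorem vec_eRank {r k : ℕ} (A : Fin r → Fin (r + k) → K)
    (hA1 : ∀ i j, A i (Fin.castAdd k j) = if i = j then 1 else 0) :
    (vecMatroid K fun j i => A i j).eRank = r := by
  classical
  apply le_antisymm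
  · obtain ⟨B, hB⟩ := (vecMatroid K fun j i => A i j).exists_isBase
    rw [← hB.encard_eq_eRank]
    have h1 : LinearIndepOn K (fun j i => A i j) B := hB.indep
    have h2 : Fintype B := Fintype.ofFinite B
    have h3 := LinearIndependent.fintype_card_le_finrank h1
    rw [Module.finrank_fin_fun] at h3
    rw [← (Set.toFinite B).cast_ncard_eq, ← Nat.card_coe_set_eq, Nat.card_eq_fintype_card]
    exact_mod_cast h3
  · have h1 : (vecMatroid K fun j i => A i j).Indep (Set.range (Fin.castAdd k : Fin r → _)) := by
      by_contra hnot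
      have hdep : (vecMatroid K fun j i => A i j).Dep (Set.range (Fin.castAdd k : Fin r → _)) :=
        ⟨hnot, Set.subset_univ _⟩
      rw [Pool.Agent.Helper998.VecMatroid.dep_iff] at hdep
      obtain ⟨x, hx0, hx, hs⟩ := hdep
      apply hx0
      have h2 : ∀ j : Fin k, x (Fin.natAdd r j) = 0 := by
        intro j
        by_contra hne
        obtain ⟨i, hi⟩ := hs (Function.mem_support.2 hne)
        have := congrArg Fin.val hi
        simp only [Fin.val_castAdd, Fin.val_natAdd] at this
        have := i.2
        omega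
      have h3 : ∀ i : Fin r, x (Fin.castAdd k i) = 0 := by
        intro i
        unfold IsRel at hx
        have h4 := congrFun hx i
        rw [Finset.sum_apply, Fin.sum_univ_add] at h4
        simpa [hA1, h2] using h4
      funext j
      refine Fin.addCases (fun i => ?_) (fun i => ?_) j
      · exact h3 i
      · exact h2 i
    have h2 := h1.encard_le_eRank
    rw [← Set.image_univ, (Fin.castAdd_injective r k).encard_image, Set.encard_univ,
      ENat.card_eq_coe_fintype_card, Fintype.card_fin] at h2
    exact h2

end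

end Pool.Agent.Run7.h133.Ray
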